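import Pool.Agent.NPC.Num

/-!
# Optimization problems, AP-reductions, MAX-3SAT-B and Max-3DM under `L_p`
-/

namespace Pool.Agent.H243R3.TP

open Pool.Agent.NPC Turing
open scoped ENNReal

/-- A function between types coded by bit strings is computable in polynomial time: some Turing
machine (in the sense of Mathlib) maps the code of every `a` to the code of `f a`, in polynomially
many steps. -/
def PolyFn {α β : Type} [TEnc α] [TEnc β] (f : α → β) : Prop :=
  Nonempty (TM2ComputableInPolyTime (bits : α → List Bool) (bits : β → List Bool) f)

/-- An optimization problem. Instances and solutions are coded by bit strings; `valid` says which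
elements of `Inst` are instances, `feas x y` says that `y` is a feasible solution of `x`, and
`val x y` is its value. The problem is a maximization problem if `maximize` is `true` and a
minimization problem otherwise. -/
structure OptProblem where
  Inst : Type
  Sol : Type
  encI : TEnc Inst
  encS : TEnc Sol
  valid : Inst → Prop
  feas : Inst → Sol → Prop
  val : Inst → Sol → ℝ
  maximize : Bool

attribute [instance] OptProblem.encI OptProblem.encS

/-- `y` is a feasible solution of `x` whose performance ratio is at most `r`: its value is within
the factor `r` of the value of every other feasible solution. -/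
def OptProblem.Approx (P : OptProblem) (r : ℝ) (x : P.Inst) (y : P.Sol) : Prop :=
  P.feas x y ∧ ∀ y', P.feas x y' →
    if P.maximize then P.val x y' ≤ r * P.val x y else P.val x y ≤ r * P.val x y'

/-- AP-reducibility (approximation-preserving reducibility): there are a constant `α ≥ 1` and
functions `f`, `g` such that, for every rational `r > 1`, both `f r` and `g r` are computable in
polynomial time, `f r` maps instances of `P` to instances of `Q` (with a feasible solution if the
instance of `P` has one), and `g r` maps an instance `x` of `P` and a feasible solution of `f r x`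
to a feasible solution of `x`, a solution of performance ratio at most `r` being mapped to one of
performance ratio at most `1 + α (r - 1)`. -/
def APReduces (P Q : OptProblem) : Prop :=
  ∃ (α : ℚ) (f : ℚ → P.Inst → Q.Inst) (g : ℚ → P.Inst → Q.Sol → P.Sol), 1 ≤ α ∧
    (∀ r : ℚ, 1 < r → PolyFn (f r)) ∧
    (∀ r : ℚ, 1 < r → PolyFn (fun z : P.Inst × Q.Sol => g r z.1 z.2)) ∧
    ∀ r : ℚ, 1 < r → ∀ x, P.valid x →
      Q.valid (f r x) ∧ ((∃ y, P.feas x y) → ∃ y, Q.feas (f r x) y) ∧
      ∀ y, Q.feas (f r x) y → P.feas x (g r x y) ∧
        (Q.Approx r (f r x) y → P.Approx (1 + α * (r - 1) : ℚ) x (g r x y))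

/-! ### MAX-3SAT-B -/

/-- A literal: a variable and its sign (`true` for the variable, `false` for its negation). -/
abbrev Lit : Type := ℕ × Bool

/-- A clause with three literals (repetitions are allowed). -/
abbrev Clause : Type := Lit × Lit × Lit

/-- The literals of a clause. -/
def lits (c : Clause) : List Lit := [c.1, c.2.1, c.2.2]

/-- The variables of the literals of a formula, one for each literal occurrence. -/
def occ (φ : List Clause) : List ℕ := φ.flatMap fun c => (lits c).map Prod.fst

/-- The literal `l` is true if exactly the variables in `A` are true. -/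
def LitTrue (A : List ℕ) (l : Lit) : Prop := l.1 ∈ A ↔ l.2 = true

/-- The clause is satisfied if exactly the variables in `A` are true. -/
def ClauseSat (A : List ℕ) (c : Clause) : Prop := ∃ l ∈ lits c, LitTrue A l

instance (A : List ℕ) (l : Lit) : Decidable (LitTrue A l) := by unfold LitTrue; infer_instance
instance (A : List ℕ) (c : Clause) : Decidable (ClauseSat A c) := by
  unfold ClauseSat; infer_instance

/-- The number of satisfied clauses. -/
def numSat (φ : List Clause) (A : List ℕ) : ℕ := φ.countP fun c => decide (ClauseSat A c)

/-- **MAX-3SAT-B**. An instance is a nonempty list of clauses with three literals in which every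
variable has at most `B` occurrences; a solution is an assignment, given by the list of the true
variables (each of them occurs in the formula, and the list is not longer than the number of
literals of the formula); its value is the number of satisfied clauses, to be maximized. -/
def max3Sat (B : ℕ) : OptProblem where
  Inst := List Clause
  Sol := List ℕ
  encI := inferInstance
  encS := inferInstance
  valid φ := φ ≠ [] ∧ ∀ x, (occ φ).count x ≤ B
  feas φ A := (∀ x ∈ A, x ∈ occ φ) ∧ A.length ≤ (occ φ).length
  val φ A := numSat φ A
  maximize := true

/-! ### Max-3DM under `L_p` -/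

/-- The point of `ℝ^s` with the `L_p` norm whose (rational) coordinates are listed in `x`. -/
noncomputable def toPt (p : ℝ≥0∞) (s : ℕ) (x : List ℚ) : PiLp p (fun _ : Fin s => ℝ) :=
  WithLp.toLp p fun i => ((x.getD i 0 : ℚ) : ℝ)

/-- The `L_p` distance of the points with the coordinates `x` and `y`. -/
noncomputable def lpDist (p : ℝ≥0∞) [Fact (1 ≤ p)] (s : ℕ) (x y : List ℚ) : ℝ :=
  dist (toPt p s x) (toPt p s y)

/-- The perimeter of a triangle. -/
noncomputable def perim (p : ℝ≥0∞) [Fact (1 ≤ p)] (s : ℕ) (t : List ℚ × List ℚ × List ℚ) : ℝ :=
  lpDist p s t.1 t.2.1 + lpDist p s t.2.1 t.2.2 + lpDist p s t.1 t.2.2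

/-- **Max-3DM under `L_p`**, with the dimension part of the input. An instance consists of the
dimension `s ≥ 1` and a list, without repetitions, of `3n` points (`n ≥ 1`) of `ℚ^s`. A solution is
a partition of the points into triples; its value, to be maximized, is the total perimeter. -/
noncomputable def max3DM (p : ℝ≥0∞) [Fact (1 ≤ p)] : OptProblem where
  Inst := ℕ × List (List ℚ)
  Sol := List (List ℚ × List ℚ × List ℚ)
  encI := inferInstance
  encS := inferInstance
  valid I := 1 ≤ I.1 ∧ I.2.Nodup ∧ (∀ x ∈ I.2, x.length = I.1) ∧
    ∃ n : ℕ, 1 ≤ n ∧ I.2.length = 3 * n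
  feas I π := (π.flatMap fun t => [t.1, t.2.1, t.2.2]).Perm I.2
  val I π := (π.map (perim p I.1)).sum
  maximize := true

end Pool.Agent.H243R3.TP
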