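import Pool.Agent.H243R3.TP.Wt

/-!
# Points realizing the multiplicities as Hamming distances
-/

namespace Pool.Agent.H243R3.TP

/-- A row of a Hadamard matrix. -/
def row (bs : List Bool) : List Bool := bs.foldr (fun b acc => acc ++ acc.map fun c => b ^^ c) [false]

/-- The Hamming distance. -/
def ham (x y : List Bool) : ℕ := (x.zip y).countP fun q => q.1 ^^ q.2

theorem ham_append {x y x' y' : List Bool} (h : x.length = y.length) :
    ham (x ++ x') (y ++ y') = ham x y + ham x' y' := by
  unfold ham
  rw [List.zip_append h, List.countP_append]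

theorem ham_self (x : List Bool) : ham x x = 0 := by
  induction x with
  | nil => rfl
  | cons b x ih =>
    unfold ham at ih ⊢
    simp [List.zip_cons_cons, List.countP_cons, ih]

theorem ham_map : ∀ (x y : List Bool) (b c : Bool), x.length = y.length →
    ham (x.map fun d => b ^^ d) (y.map fun d => c ^^ d) =
      if b = c then ham x y else x.length - ham x y := by
  intro x
  induction x with
  | nil => intro y b c h; simp [ham]
  | cons a x ih =>
    intro y b c h
    cases y with
    | nil => simp at h
    | cons a' y =>
      have h' : x.length = y.length := by simpa using h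
      have h1 := ih y b c h'
      have h2 : ham x y ≤ x.length := by
        unfold ham
        refine List.countP_le_length.trans ?_
        simp [h']
      unfold ham at h1 h2 ⊢
      simp only [List.map_cons, List.zip_cons_cons, List.countP_cons, List.length_cons, h1]
      cases b <;> cases c <;> cases a <;> cases a' <;> simp <;> omega

theorem length_row (bs : List Bool) : (row bs).length = 2 ^ bs.length := by
  induction bs with
  | nil => rfl
  | cons b bs ih =>
    have : row (b :: bs) = row bs ++ (row bs).map fun c => b ^^ c := rfl
    rw [this, List.length_append, List.length_map, ih, List.length_cons, pow_succ]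
    ring

theorem ham_row : ∀ (bs cs : List Bool), bs.length = cs.length → bs ≠ cs →
    2 * ham (row bs) (row cs) = 2 ^ bs.length := by
  intro bs
  induction bs with
  | nil =>
    intro cs h hne
    cases cs with
    | nil => exact absurd rfl hne
    | cons c cs => simp at h
  | cons b bs ih =>
    intro cs h hne
    cases cs with
    | nil => simp at h
    | cons c cs =>
      have h' : bs.length = cs.length := by simpa using h
      have e1 : row (b :: bs) = row bs ++ (row bs).map fun c => b ^^ c := rfl
      have e2 : row (c :: cs) = row cs ++ (row cs).map fun d => c ^^ d := rfl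
      have hl : (row bs).length = (row cs).length := by rw [length_row, length_row, h']
      rw [e1, e2, ham_append hl, ham_map _ _ _ _ hl]
      by_cases hbc : b = c
      · rw [if_pos hbc]
        have hne' : bs ≠ cs := fun h => hne (by rw [hbc, h])
        have := ih cs h' hne'
        rw [List.length_cons, pow_succ]
        omega
      · rw [if_neg hbc]
        have h3 : ham (row bs) (row cs) ≤ (row bs).length := by
          unfold ham
          refine List.countP_le_length.trans ?_
          simp
        rw [length_row] at h3 ⊢
        rw [List.length_cons, pow_succ]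
        omega

/-- A number coding a vertex. -/
def code (v : ℕ × ℕ) : ℕ := 9 * v.1 + v.2

theorem code_inj {n : ℕ} {u v : ℕ × ℕ} (hu : InV n u) (hv : InV n v) (h : code u = code v) :
    u = v := by
  unfold code at h
  have h1 := hu.2
  have h2 := hv.2
  apply Prod.ext <;> omega

theorem code_lt {n : ℕ} {u : ℕ × ℕ} (hu : InV n u) : code u < 9 * n := by
  unfold code
  have h1 := hu.1
  have h2 := hu.2
  omega

/-- The segment of the coordinates of a vertex that belongs to a matching. -/
def seg (f : ℕ → ℕ) (n : ℕ) (sg : ℕ → Bool) (L k : ℕ) (v : ℕ × ℕ) : List Bool :=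
  (row ((min (code v) (code (mu f n sg k v)) % L + L).bits)).map fun c =>
    decide (code (mu f n sg k v) < code v) ^^ c

theorem length_bits {R x : ℕ} (hx : x < 2 ^ R) : (x + 2 ^ R).bits.length = R + 1 := by
  rw [Nat.size_eq_bits_len]
  apply le_antisymm
  · rw [Nat.size_le, pow_succ]
    omega
  · rw [Nat.succ_le_iff, Nat.lt_size]
    omega

theorem bits_inj {x y : ℕ} (h : x.bits = y.bits) : x = y := by
  have h2 : Nat.digits 2 x = Nat.digits 2 y := by
    rw [Nat.digits_two_eq_bits, Nat.digits_two_eq_bits, h]
  exact Nat.digits_inj_iff.1 h2

variable {f : ℕ → ℕ} {n : ℕ} {sg : ℕ → Bool} {S D R : ℕ}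

theorem length_seg (k : ℕ) (v : ℕ × ℕ) :
    (seg f n sg (2 ^ R) k v).length = 2 ^ (R + 1) := by
  unfold seg
  rw [List.length_map, length_row, length_bits]
  exact Nat.mod_lt _ (by positivity)

theorem ham_seg (hn : n % 3 = 0) (hR : 9 * n ≤ 2 ^ R) (k : ℕ) {u v : ℕ × ℕ} (hu : InV n u)
    (hv : InV n v) (huv : u ≠ v) :
    ham (seg f n sg (2 ^ R) k u) (seg f n sg (2 ^ R) k v) =
      2 ^ R * (1 + if mu f n sg k u = v then 1 else 0) := by
  have cu := code_lt hu
  have cv := code_lt hv
  have hl1 : ((min (code u) (code (mu f n sg k u)) + 2 ^ R).bits).length = R + 1 :=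
    length_bits (by omega)
  have hl2 : ((min (code v) (code (mu f n sg k v)) + 2 ^ R).bits).length = R + 1 :=
    length_bits (by omega)
  unfold seg
  rw [Nat.mod_eq_of_lt (show min (code u) (code (mu f n sg k u)) < 2 ^ R by omega),
    Nat.mod_eq_of_lt (show min (code v) (code (mu f n sg k v)) < 2 ^ R by omega)]
  rw [ham_map _ _ _ _ (by rw [length_row, length_row, hl1, hl2]), length_row, hl1]
  have iu := mu_inV (f := f) (sg := sg) hn k hu
  have iv := mu_inV (f := f) (sg := sg) hn k hv
  by_cases hm : mu f n sg k u = v
  · have hm' : mu f n sg k v = u := (mu_eq_comm hn k hu hv).1 hm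
    have hne : code u ≠ code v := fun h => huv (code_inj hu hv h)
    rw [hm, hm', if_pos rfl, min_comm (code u), ham_self, if_neg, Nat.sub_zero, pow_succ]
    intro h
    rw [decide_eq_decide] at h
    omega
  · have hm' : mu f n sg k v ≠ u := fun h => hm ((mu_eq_comm hn k hu hv).2 h)
    have hmm : mu f n sg k u ≠ mu f n sg k v := by
      intro h
      have := congrArg (mu f n sg k) h
      rw [mu_mu hn k hu, mu_mu hn k hv] at this
      exact huv this
    have hne : (min (code u) (code (mu f n sg k u)) + 2 ^ R).bits ≠
        (min (code v) (code (mu f n sg k v)) + 2 ^ R).bits := by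
      intro h
      have h1 := bits_inj h
      have e1 : code u ≠ code v := fun h => huv (code_inj hu hv h)
      have e2 : code (mu f n sg k u) ≠ code v := fun h => hm (code_inj iu hv h)
      have e3 : code (mu f n sg k v) ≠ code u := fun h => hm' (code_inj iv hu h)
      have e4 : code (mu f n sg k u) ≠ code (mu f n sg k v) := fun h => hmm (code_inj iu iv h)
      omega
    have h1 := ham_row _ _ (hl1.trans hl2.symm) hne
    rw [hl1, pow_succ] at h1
    rw [if_neg hm, add_zero, mul_one, pow_succ]
    split_ifs <;> omega

/-- The coordinates of a vertex, as booleans. -/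
def bp (f : ℕ → ℕ) (n : ℕ) (sg : ℕ → Bool) (S D L : ℕ) (v : ℕ × ℕ) : List Bool :=
  (kinds S D).flatMap fun k => seg f n sg L k v

theorem ham_flatMap (A B : ℕ → List Bool) (h : ∀ k, (A k).length = (B k).length) (ks : List ℕ) :
    ham (ks.flatMap A) (ks.flatMap B) = (ks.map fun k => ham (A k) (B k)).sum := by
  induction ks with
  | nil => rfl
  | cons k ks ih => rw [List.flatMap_cons, List.flatMap_cons, ham_append (h k), ih]; rfl

theorem ham_bp (hn : n % 3 = 0) (hR : 9 * n ≤ 2 ^ R) {u v : ℕ × ℕ} (hu : InV n u)
    (hv : InV n v) (huv : u ≠ v) :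
    ham (bp f n sg S D (2 ^ R) u) (bp f n sg S D (2 ^ R) v) =
      2 ^ R * ((kinds S D).length + mult f n sg S D u v) := by
  unfold bp
  rw [ham_flatMap]
  · unfold mult
    induction kinds S D with
    | nil => simp
    | cons k ks ih =>
      rw [List.map_cons, List.sum_cons, ih, ham_seg hn hR k hu hv huv, List.length_cons,
        List.countP_cons]
      simp only [decide_eq_true_eq]
      ring
  · intro k
    rw [length_seg, length_seg]

theorem length_bp (v : ℕ × ℕ) :
    (bp f n sg S D (2 ^ R) v).length = (kinds S D).length * 2 ^ (R + 1) := by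
  unfold bp
  induction kinds S D with
  | nil => simp
  | cons k ks ih =>
    rw [List.flatMap_cons, List.length_append, ih, length_seg, List.length_cons]
    ring

theorem length_kinds : (kinds S D).length = 10 * S + D + 9 := by
  unfold kinds
  simp
  ring

end Pool.Agent.H243R3.TP
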