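import Pool.Agent.H243R3.TP.Defs
import Pool.Agent.H243R3.TP.Emb
import Pool.Agent.H642R2.TMSim

/-!
# Polynomial time: general facts
-/

namespace Pool.Agent.NPC.TP

open Pool.Agent.H243R3.TP

open Turing

/-- Programs yield Turing machines. -/
theorem polyFn_of {α β : Type} [TEnc α] [TEnc β] {f : α → β} (h : Poly f) : PolyFn f := by
  obtain ⟨c, p, h⟩ := h
  have key : ∀ x : α, ∃ t, t ≤ p.eval (bits x).length + 1 ∧
      Nonempty (TM2OutputsInTime (c.map (Fin.ofNat (c.bd + 1))).toTM (bits x)
        (some (bits (f x))) t) := by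
    intro x
    obtain ⟨t, ht, hr⟩ := h x
    have h1 := hr.restrict (n := c.bd) (by omega)
    refine ⟨t + 1, by simpa using ht, toTM_outputs ?_⟩
    convert! h1 using 1
    · funext i
      by_cases hi : i = 0
      · subst hi; simp [inp]
      · have : (i : ℕ) ≠ 0 := fun h => hi (Fin.ext h)
        simp [inp, hi, this]
    · funext i
      by_cases hi : i = 0
      · subst hi; simp [inp]
      · have : (i : ℕ) ≠ 0 := fun h => hi (Fin.ext h)
        simp [inp, hi, this]
  refine ⟨{ tm := (c.map (Fin.ofNat (c.bd + 1))).toTM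
            inputAlphabet := Equiv.refl Bool
            outputAlphabet := Equiv.refl Bool
            time := p + 1
            outputsFun := ?_ }⟩
  intro x
  have hx := key x
  have ht := hx.choose_spec.1
  have hm := hx.choose_spec.2.some
  refine outputs_conv (List.map_id (bits x)).symm (List.map_id (bits (f x))).symm (ht.trans ?_) hm
  simp

/-- Turing machines yield programs. -/
theorem poly_of {α β : Type} [TEnc α] [TEnc β] {f : α → β} (h : PolyFn f) : Poly f :=
  H642R2.TMSim.toPC h

/-- AP-reductions compose. -/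
theorem apReduces_trans {P Q R : OptProblem} (h1 : APReduces P Q) (h2 : APReduces Q R) :
    APReduces P R := by
  obtain ⟨α1, f1, g1, a1, pf1, pg1, c1⟩ := h1
  obtain ⟨α2, f2, g2, a2, pf2, pg2, c2⟩ := h2
  have hr' : ∀ r : ℚ, 1 < r → 1 < 1 + α2 * (r - 1) := by
    intro r hr
    have : 0 < α2 * (r - 1) := mul_pos (by linarith) (by linarith)
    linarith
  refine ⟨α1 * α2, fun r x => f2 r (f1 (1 + α2 * (r - 1)) x),
    fun r x y => g1 (1 + α2 * (r - 1)) x (g2 r (f1 (1 + α2 * (r - 1)) x) y), ?_, ?_, ?_, ?_⟩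
  · nlinarith
  · intro r hr
    exact polyFn_of ((poly_of (pf2 r hr)).comp (poly_of (pf1 _ (hr' r hr))))
  · intro r hr
    have e1 := poly_of (pf1 _ (hr' r hr))
    have e2 := poly_of (pg1 _ (hr' r hr))
    have e3 := poly_of (pg2 r hr)
    have e4 : Poly (fun z : P.Inst × R.Sol => g2 r (f1 (1 + α2 * (r - 1)) z.1) z.2) :=
      e3.comp (Poly.pair (e1.comp (Poly.fst Poly.id)) (Poly.snd Poly.id))
    exact polyFn_of (e2.comp (Poly.pair (Poly.fst Poly.id) e4))
  · intro r hr x hx
    obtain ⟨b1, b2, b3⟩ := c1 _ (hr' r hr) x hx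
    obtain ⟨d1, d2, d3⟩ := c2 r hr _ b1
    refine ⟨d1, fun h => d2 (b2 h), fun y hy => ?_⟩
    obtain ⟨e1, e2⟩ := d3 y hy
    obtain ⟨e3, e4⟩ := b3 _ e1
    refine ⟨e3, fun h => ?_⟩
    have := e4 (e2 h)
    have e : (1 + α1 * (1 + α2 * (r - 1) - 1) : ℚ) = 1 + α1 * α2 * (r - 1) := by ring
    rwa [e] at this

section

variable {α β γ : Type} [TEnc α] [TEnc β] [TEnc γ]

theorem poly_optGetD {o : α → Option β} {d : α → β} (ho : Poly o) (hd : Poly d) :
    Poly (fun a => (o a).getD (d a)) :=
  (Poly.optCases ho hd (h := fun _ b => b) (Poly.snd Poly.id)).congr fun a => by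
    cases o a <;> rfl

theorem poly_natCast {n : α → ℕ} (hn : Poly n) : Poly (fun a => ((n a : ℕ) : ℚ)) := by
  refine Poly.of_toT ((Poly.pair (Poly.pair (Poly.const false) hn)
    (Poly.const (1 : ℕ))).toT'.congr fun a => ?_)
  change _ = toT (((n a : ℕ) : ℚ).num, ((n a : ℕ) : ℚ).den)
  have h1 : ((n a : ℕ) : ℚ).num = (n a : ℤ) := by simp
  have h2 : ((n a : ℕ) : ℚ).den = 1 := by simp
  rw [h1, h2]
  change _ = T.node (toT (decide ((n a : ℤ) < 0), ((n a : ℤ)).natAbs)) (toT 1)
  have h3 : decide ((n a : ℤ) < 0) = false := by simp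
  rw [h3, Int.natAbs_natCast]
  rfl

theorem poly_countP {l : α → List β} {p : α → β → Bool} (hl : Poly l)
    (hp : Poly (fun x : α × β => p x.1 x.2)) : Poly (fun a => (l a).countP (p a)) :=
  (Poly.length (Poly.filter hl hp)).congr fun a => by rw [List.countP_eq_length_filter]

/-- A power of two above a number. -/
theorem poly_pow {n : α → ℕ} (hn : Poly n) : Poly (fun a => 2 ^ (n a).size) := by
  have h1 : Poly (fun a => (n a).bits.map (fun _ => false) ++ [true]) :=
    Poly.append (Poly.map (F := fun _ _ => false) (Poly.natBits hn) (Poly.const false))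
      (Poly.const [true])
  refine (Poly.valBits h1).congr fun a => ?_
  have h2 : (n a).bits.map (fun _ => false) = List.replicate (n a).size false := by
    rw [List.eq_replicate_iff]
    refine ⟨?_, ?_⟩
    · rw [List.length_map, Nat.size_eq_bits_len]
    · intro b hb
      rw [List.mem_map] at hb
      obtain ⟨_, _, rfl⟩ := hb
      rfl
  rw [h2, valB_replicate_false]
  simp

theorem pow_size_le (n : ℕ) : 2 ^ n.size ≤ 2 * n + 1 := by
  rcases Nat.eq_zero_or_pos n with h | h
  · subst h; simp
  · have h1 : n.size ≠ 0 := by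
      rw [Ne, Nat.size_eq_zero]; omega
    obtain ⟨k, hk⟩ := Nat.exists_eq_succ_of_ne_zero h1
    have h2 : 2 ^ k ≤ n := by
      rw [← Nat.lt_size]; omega
    rw [hk, pow_succ]
    omega

theorem poly_row {bs : α → List Bool} {U : α → ℕ} (hb : Poly bs) (hU : UPoly U)
    (h : ∀ a, 2 ^ (bs a).length ≤ U a) : Poly (fun a => row (bs a)) := by
  obtain ⟨r, hr⟩ := Poly.sz_le hU
  have hU' : ∀ a, U a ≤ r.eval (sz a) := by
    intro a
    have h1 := length_lt_sz (List.replicate (U a) ())
    rw [List.length_replicate] at h1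
    exact h1.le.trans (hr a)
  unfold row
  refine Poly.foldr (F := fun _ b acc => acc ++ acc.map fun c => b ^^ c) hb (Poly.const [false])
    (Poly.append (Poly.snd (Poly.snd Poly.id))
      (Poly.map (F := fun (x : α × Bool × List Bool) c => x.2.1 ^^ c) (Poly.snd (Poly.snd Poly.id))
        (Poly.xor (Poly.fst (Poly.snd (Poly.fst Poly.id))) (Poly.snd Poly.id))))
    (Polynomial.C 4 * r + Polynomial.C 1) fun a k hk => ?_
  have h1 : sz (row ((bs a).drop k)) ≤ 4 * (row ((bs a).drop k)).length + 1 := sz_listBool_le _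
  have h2 : (row ((bs a).drop k)).length ≤ U a := by
    rw [length_row]
    refine le_trans (Nat.pow_le_pow_right (by norm_num) ?_) (h a)
    rw [List.length_drop]
    omega
  have h3 := hU' a
  simp only [Polynomial.eval_add, Polynomial.eval_mul, Polynomial.eval_C]
  change sz (row ((bs a).drop k)) ≤ _
  omega

end

end Pool.Agent.NPC.TP
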