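import Pool.Agent.H243R3.TP.Upper

/-!
# Reading off an assignment from a partition
-/

namespace Pool.Agent.H243R3.TP

open Finset

variable {f : ℕ → ℕ} {n : ℕ} {sg : ℕ → Bool} {S D : ℕ} {Φ : ℕ → ℝ}

/-- A partition of the vertices into triples. -/
def IsPart (n : ℕ) (π : List ((ℕ × ℕ) × (ℕ × ℕ) × (ℕ × ℕ))) : Prop := (π.flatMap tl).Perm (verts n)

/-- The position `l` is in the state that stands for true. -/
def St (π : List ((ℕ × ℕ) × (ℕ × ℕ) × (ℕ × ℕ))) (l : ℕ) : Prop :=
  ∃ t ∈ π, (l, 0) ∈ tl t ∧ (l, 1) ∈ tl t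

/-- The value of a variable. -/
def Vl (f : ℕ → ℕ) (n : ℕ) (π : List ((ℕ × ℕ) × (ℕ × ℕ) × (ℕ × ℕ))) (x : ℕ) : Prop :=
  ∃ l < n, f l = x ∧ St π l

section

variable {π : List ((ℕ × ℕ) × (ℕ × ℕ) × (ℕ × ℕ))} (hπ : IsPart n π)

include hπ

theorem part_nodup : (π.flatMap tl).Nodup := (List.Perm.nodup_iff hπ).2 (nodup_verts n)

theorem part_tl {t} (ht : t ∈ π) : (tl t).Nodup :=
  (List.nodup_flatMap.1 (part_nodup hπ)).1 t ht

theorem part_inV {t} (ht : t ∈ π) {v} (hv : v ∈ tl t) : InV n v := by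
  rw [← mem_verts]
  exact hπ.subset (List.mem_flatMap.2 ⟨t, ht, hv⟩)

theorem part_cover {v} (hv : InV n v) : ∃ t ∈ π, v ∈ tl t := by
  rw [← mem_verts] at hv
  exact List.mem_flatMap.1 (hπ.symm.subset hv)

theorem part_uniq {t t'} (ht : t ∈ π) (ht' : t' ∈ π) {v} (hv : v ∈ tl t) (hv' : v ∈ tl t') :
    t = t' := by
  have h := (List.nodup_flatMap.1 (part_nodup hπ)).2
  rw [List.pairwise_iff_getElem] at h
  obtain ⟨i, hi, rfl⟩ := List.getElem_of_mem ht
  obtain ⟨j, hj, rfl⟩ := List.getElem_of_mem ht'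
  rcases Nat.lt_trichotomy i j with hij | rfl | hij
  · exact (h i j hi hj hij hv hv').elim
  · rfl
  · exact (h j i hj hi hij hv' hv).elim

theorem part_nodup' : π.Nodup := by
  have h := (List.nodup_flatMap.1 (part_nodup hπ)).2
  refine List.Pairwise.imp ?_ h
  rintro a b hab rfl
  exact hab (a := a.1) (by simp [tl]) (by simp [tl])

end

section State

variable (hn : n % 3 = 0) (hΦ : Good S Φ) {π : List ((ℕ × ℕ) × (ℕ × ℕ) × (ℕ × ℕ))}
  (hπ : IsPart n π)

include hπ

/-- The structure of a proper triangle at one of its cores. -/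
theorem proper_core {t} (ht : t ∈ π) (hp : (wtd f n sg S D Φ hn hΦ).Proper t) {z : ℕ × ℕ}
    (hz : z ∈ tl t) (hz0 : ty z = 0) : ∃ p x, p ∈ tl t ∧ x ∈ tl t ∧
      (mu f n sg 0 z = p ∨ mu f n sg 1 z = p) ∧ (∀ y ∈ tl t, ty y = 0 → y = z ∨ y = p) ∧
      (mu f n sg 2 z = x ∨ mu f n sg 3 z = x) ∧ (mu f n sg 2 p = x ∨ mu f n sg 3 p = x) := by
  obtain ⟨u, v, x, h1, h2, h3, h4, h5, h6, h7⟩ := hp
  have hmem : ∀ y, y ∈ tl t ↔ y ∈ [u, v, x] := fun y => (h1.mem_iff).symm
  have hs := hΦ.pos
  have hs4 := hΦ.le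
  change ty u = 0 at h2
  change ty v = 0 at h3
  change ty x = 1 at h4
  change wt f n sg S D Φ u v = Φ (4 * S) at h5
  change wt f n sg S D Φ u x = Φ S at h6
  change wt f n sg S D Φ v x = Φ S at h7
  obtain ⟨-, iu, iv, -, a1⟩ := (adj00 (f := f) (n := n) (sg := sg) (D := D) hΦ h2 h3).resolve_left
    (by rw [h5]; linarith)
  obtain ⟨-, -, -, a2⟩ := (adj01 (f := f) (n := n) (sg := sg) (D := D) hΦ h2 h4).resolve_left
    (by rw [h6]; linarith)
  obtain ⟨-, -, -, a3⟩ := (adj01 (f := f) (n := n) (sg := sg) (D := D) hΦ h3 h4).resolve_left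
    (by rw [h7]; linarith)
  rw [hmem] at hz
  have hcase : z = u ∨ z = v := by
    simp only [List.mem_cons, List.not_mem_nil, or_false] at hz
    rcases hz with rfl | rfl | rfl
    · exact Or.inl rfl
    · exact Or.inr rfl
    · omega
  rcases hcase with rfl | rfl
  · refine ⟨v, x, by rw [hmem]; simp, by rw [hmem]; simp, a1, ?_, a2, a3⟩
    intro y hy hy0
    rw [hmem] at hy
    simp only [List.mem_cons, List.not_mem_nil, or_false] at hy
    rcases hy with rfl | rfl | rfl
    · exact Or.inl rfl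
    · exact Or.inr rfl
    · omega
  · refine ⟨u, x, by rw [hmem]; simp, by rw [hmem]; simp, ?_, ?_, a3, a2⟩
    · rcases a1 with a1 | a1
      · exact Or.inl ((mu_eq_comm hn _ iu iv).1 a1)
      · exact Or.inr ((mu_eq_comm hn _ iu iv).1 a1)
    intro y hy hy0
    rw [hmem] at hy
    simp only [List.mem_cons, List.not_mem_nil, or_false] at hy
    rcases hy with rfl | rfl | rfl
    · exact Or.inr rfl
    · exact Or.inl rfl
    · omega

theorem ty_core (l i : ℕ) (hi : i < 4) : ty (l, i) = 0 := ty_zero.2 hi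

/-- If all cores of the variable of the position `l` are in proper triangles, the state of one
position of the variable passes to the next one. -/
theorem st_step {l : ℕ} (hall : ∀ l' < n, f l' = f l → ∀ i < 4, ∀ t ∈ π, (l', i) ∈ tl t →
    (wtd f n sg S D Φ hn hΦ).Proper t) {k : ℕ} (hk : k < n) (hf : f k = f l) (h : St π k) :
    St π (nxt f n k) := by
  obtain ⟨t1, ht1, h10, h11⟩ := h
  -- the triangle at `(k, 2)`
  obtain ⟨t2, ht2, h2⟩ := part_cover hπ (v := (k, 2)) ⟨hk, by norm_num⟩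
  obtain ⟨p, x, hp, hx, c1, c2, c3, c4⟩ := proper_core hn hΦ hπ ht2
    (hall k hk hf 2 (by norm_num) t2 ht2 h2) h2 (ty_core hπ _ _ (by norm_num))
  have hp3 : p = (k, 3) := by
    rcases c1 with c1 | c1
    · rw [← c1]; simp [mu]
    · exfalso
      have hp1 : p = (k, 1) := by rw [← c1]; simp [mu]
      subst hp1
      have := part_uniq hπ ht2 ht1 hp h11
      subst this
      have := c2 (k, 0) h10 (ty_core hπ _ _ (by norm_num))
      simp at this
  subst hp3
  -- the triangle at the next position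
  have hk' := nxt_lt (f := f) hk
  obtain ⟨t3, ht3, h3⟩ := part_cover hπ (v := (nxt f n k, 0)) ⟨hk', by norm_num⟩
  obtain ⟨p, x', hp', hx', d1, d2, d3, d4⟩ := proper_core hn hΦ hπ ht3
    (hall _ hk' ((f_nxt hk).trans hf) 0 (by norm_num) t3 ht3 h3) h3 (ty_core hπ _ _ (by norm_num))
  rcases d1 with d1 | d1
  · refine ⟨t3, ht3, h3, ?_⟩
    have : p = (nxt f n k, 1) := by rw [← d1]; simp [mu]
    rwa [this] at hp'
  · exfalso
    have hp1 : p = (k, 3) := by rw [← d1]; simp [mu, prv_nxt hk]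
    subst hp1
    have := part_uniq hπ ht3 ht2 hp' hp
    subst this
    have := c2 _ h3 (ty_core hπ _ _ (by norm_num))
    simp at this

/-- If the tip that is joined to a clause is in a triple without a core and all cores of its
variable are in proper triangles, the literal is true. -/
theorem lit_true {l : ℕ} (hl : l < n) (hall : ∀ l' < n, f l' = f l → ∀ i < 4, ∀ t ∈ π,
    (l', i) ∈ tl t → (wtd f n sg S D Φ hn hΦ).Proper t) {t} (ht : t ∈ π)
    (h1 : (l, off sg l) ∈ tl t) (h2 : ∀ v ∈ tl t, ty v ≠ 0) : Vl f n π (f l) ↔ sg l = true := by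
  constructor
  · rintro ⟨l', hl', hf, hst⟩
    by_contra hsg
    have hoff : off sg l = 4 := by simp [off, hsg]
    have hall' : ∀ k, k < n → f k = f l' → St π k → St π (nxt f n k) := fun k hk hkf =>
      st_step hn hΦ hπ hall hk (hkf.trans hf)
    obtain ⟨t1, ht1, h10, h11⟩ := nxt_trans (f := f) hl' hall' hst l hl hf.symm
    obtain ⟨p, x, hp, hx, c1, c2, c3, c4⟩ := proper_core hn hΦ hπ ht1
      (hall l hl rfl 0 (by norm_num) t1 ht1 h10) h10 (ty_core hπ _ _ (by norm_num))
    have hp1 : p = (l, 1) := by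
      have := c2 _ h11 (ty_core hπ _ _ (by norm_num))
      simp only [Prod.mk.injEq, true_and] at this
      rcases this with h | h
      · omega
      · exact h.symm
    subst hp1
    have hx4 : x = (l, 4) := by
      rcases c3 with c3 | c3
      · rw [← c3]; simp [mu]
      · rcases c4 with c4 | c4
        · exfalso
          have := c3.trans c4.symm
          simp [mu] at this
        · rw [← c4]; simp [mu]
    rw [hoff, ← hx4] at h1
    have := part_uniq hπ ht ht1 h1 hx
    subst this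
    exact h2 _ h10 (ty_core hπ _ _ (by norm_num))
  · intro hsg
    have hoff : off sg l = 5 := by simp [off, hsg]
    refine ⟨l, hl, rfl, ?_⟩
    obtain ⟨t1, ht1, h11⟩ := part_cover hπ (v := (l, 1)) ⟨hl, by norm_num⟩
    obtain ⟨p, x, hp, hx, c1, c2, c3, c4⟩ := proper_core hn hΦ hπ ht1
      (hall l hl rfl 1 (by norm_num) t1 ht1 h11) h11 (ty_core hπ _ _ (by norm_num))
    rcases c1 with c1 | c1
    · refine ⟨t1, ht1, ?_, h11⟩
      have : p = (l, 0) := by rw [← c1]; simp [mu]
      rwa [this] at hp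
    · exfalso
      have hp2 : p = (l, 2) := by rw [← c1]; simp [mu]
      subst hp2
      have hx5 : x = (l, 5) := by
        rcases c3 with c3 | c3
        · rw [← c3]; simp [mu]
        · rcases c4 with c4 | c4
          · exfalso
            have := c3.trans c4.symm
            simp [mu] at this
          · rw [← c4]; simp [mu]
      rw [hoff, ← hx5] at h1
      have := part_uniq hπ ht ht1 h1 hx
      subst this
      exact h2 _ h11 (ty_core hπ _ _ (by norm_num))

end State

/-- The clause `j` is satisfied. -/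
def CSat (f : ℕ → ℕ) (n : ℕ) (sg : ℕ → Bool) (π : List ((ℕ × ℕ) × (ℕ × ℕ) × (ℕ × ℕ))) (j : ℕ) :
    Prop := ∃ k < 3, (Vl f n π (f (3 * j + k)) ↔ sg (3 * j + k) = true)

open Classical in
/-- The number of bonus triples. -/
theorem bonus_le (hn : n % 3 = 0) (hΦ : Good S Φ) {π : List ((ℕ × ℕ) × (ℕ × ℕ) × (ℕ × ℕ))}
    (hπ : IsPart n π) {B : ℕ} (hB : ∀ x, ((range n).filter fun l => f l = x).card ≤ B) :
    (π.toFinset.filter (wtd f n sg S D Φ hn hΦ).Bonus).card ≤
      ((range (n / 3)).filter (CSat f n sg π)).card +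
      3 * B * (π.toFinset.filter (wtd f n sg S D Φ hn hΦ).Bad).card := by
  set W := wtd f n sg S D Φ hn hΦ with hW
  have hone := hΦ.one
  -- the position of a bonus triple
  have hpos : ∀ t ∈ π, W.Bonus t → ∃ l < n, (l, off sg l) ∈ tl t ∧ (l - l % 3, 8) ∈ tl t ∧
      ∀ v ∈ tl t, ty v ≠ 0 := by
    intro t ht hb
    obtain ⟨u, v, x, h1, h2, h3, h4, h5, h6⟩ := hb
    change ty u = 2 at h2
    change ty v = 3 at h3
    change ty x = 1 at h4
    change wt f n sg S D Φ u x = Φ 1 at h6
    rw [wt_symm hn] at h6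
    obtain ⟨-, ix, iu, a1, a2⟩ := (adj12 (f := f) (n := n) (sg := sg) (D := D) hΦ h4
      (by omega : 1 ≤ ty u)).resolve_left (by rw [h6]; linarith)
    refine ⟨x.1, ix.1, ?_, ?_, ?_⟩
    · rw [← a2]
      exact (h1.mem_iff).1 (by simp)
    · rw [← a1]
      exact (h1.mem_iff).1 (by simp)
    · intro y hy
      rw [← h1.mem_iff] at hy
      simp only [List.mem_cons, List.not_mem_nil, or_false] at hy
      rcases hy with rfl | rfl | rfl <;> omega
  let P : (ℕ × ℕ) × (ℕ × ℕ) × (ℕ × ℕ) → ℕ := fun t =>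
    if h : ∃ l < n, (l, off sg l) ∈ tl t ∧ (l - l % 3, 8) ∈ tl t ∧ ∀ v ∈ tl t, ty v ≠ 0 then
      h.choose else 0
  have hP : ∀ t ∈ π, W.Bonus t → P t < n ∧ (P t, off sg (P t)) ∈ tl t ∧
      (P t - P t % 3, 8) ∈ tl t ∧ ∀ v ∈ tl t, ty v ≠ 0 := by
    intro t ht hb
    have h := hpos t ht hb
    simp only [P, dif_pos h]
    exact h.choose_spec
  have hinj : ∀ t ∈ π, W.Bonus t → ∀ t' ∈ π, W.Bonus t' → P t / 3 = P t' / 3 → t = t' := by
    intro t ht hb t' ht' hb' he
    have h1 := (hP t ht hb).2.2.1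
    have h2 := (hP t' ht' hb').2.2.1
    have : P t - P t % 3 = P t' - P t' % 3 := by omega
    rw [this] at h1
    exact part_uniq hπ ht ht' h1 h2
  -- the two kinds of bonus triples
  let Lt : ℕ → Prop := fun l => (Vl f n π (f l) ↔ sg l = true)
  have hsplit : π.toFinset.filter W.Bonus ⊆
      (π.toFinset.filter fun t => W.Bonus t ∧ Lt (P t)) ∪
      (π.toFinset.filter fun t => W.Bonus t ∧ ¬ Lt (P t)) := by
    intro t ht
    simp only [mem_filter, mem_union] at ht ⊢
    by_cases h : Lt (P t)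
    · exact Or.inl ⟨ht.1, ht.2, h⟩
    · exact Or.inr ⟨ht.1, ht.2, h⟩
  refine (card_le_card hsplit).trans ((card_union_le _ _).trans (add_le_add ?_ ?_))
  · refine card_le_card_of_injOn (fun t => P t / 3) ?_ ?_
    · intro t ht
      simp only [coe_filter, List.mem_toFinset, Set.mem_setOf_eq] at ht
      obtain ⟨ht, hb, hL⟩ := ht
      have h1 := (hP t ht hb).1
      simp only [coe_filter, mem_range, Set.mem_setOf_eq]
      refine ⟨by omega, P t % 3, by omega, ?_⟩
      rw [show 3 * (P t / 3) + P t % 3 = P t by omega]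
      exact hL
    · intro t ht t' ht' he
      simp only [coe_filter, List.mem_toFinset, Set.mem_setOf_eq] at ht ht'
      exact hinj t ht.1 ht.2.1 t' ht'.1 ht'.2.1 he
  · -- the false ones are near bad triples
    have hU : ∀ t ∈ π, W.Bonus t → ¬ Lt (P t) → ∃ t' ∈ π, W.Bad t' ∧
        ∃ v ∈ tl t', f (P t) = f v.1 := by
      intro t ht hb hL
      by_contra hc
      push Not at hc
      obtain ⟨h1, h2, h3, h4⟩ := hP t ht hb
      refine hL (lit_true (D := D) hn hΦ hπ h1 ?_ ht h2 h4)
      intro l' hl' hf i hi t' ht' hmem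
      by_contra hnp
      exact hc t' ht' ⟨⟨_, hmem, ty_zero.2 hi⟩, hnp⟩ _ hmem hf.symm
    calc (π.toFinset.filter fun t => W.Bonus t ∧ ¬ Lt (P t)).card
        ≤ ((π.toFinset.filter W.Bad).biUnion fun t' => (tl t').toFinset.biUnion fun v =>
            (range n).filter fun l => f l = f v.1).card := by
          refine card_le_card_of_injOn P ?_ ?_
          · intro t ht
            simp only [coe_filter, List.mem_toFinset, Set.mem_setOf_eq] at ht
            obtain ⟨t', ht', hb, v, hv, hf⟩ := hU t ht.1 ht.2.1 ht.2.2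
            simp only [coe_biUnion, Set.mem_iUnion, coe_filter, List.mem_toFinset,
              Set.mem_setOf_eq, mem_range, List.coe_toFinset]
            exact ⟨t', ⟨ht', hb⟩, v, hv, (hP t ht.1 ht.2.1).1, hf⟩
          · intro t ht t' ht' he
            simp only [coe_filter, List.mem_toFinset, Set.mem_setOf_eq] at ht ht'
            refine hinj t ht.1 ht.2.1 t' ht'.1 ht'.2.1 ?_
            rw [he]
      _ ≤ ∑ t' ∈ π.toFinset.filter W.Bad, 3 * B := by
          refine card_biUnion_le.trans (sum_le_sum fun t' _ => ?_)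
          refine card_biUnion_le.trans ?_
          refine (sum_le_sum fun v _ => hB (f v.1)).trans ?_
          rw [sum_const, smul_eq_mul]
          refine Nat.mul_le_mul_right _ ?_
          exact (List.toFinset_card_le _).trans (by simp [tl])
      _ = 3 * B * (π.toFinset.filter W.Bad).card := by
          rw [sum_const, smul_eq_mul, mul_comm]

theorem sum_ch (W : Wtd (ℕ × ℕ)) (hty : W.ty = ty) (hn : n % 3 = 0) :
    ((verts n).map W.ch).sum = n * (4 * (W.h / 2 + W.s)) + (n / 3 : ℕ) * W.q := by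
  have h1 : ∀ l, (((List.range 9).map fun i => (l, i)).map W.ch).sum =
      4 * (W.h / 2 + W.s) + if l % 3 = 2 then 0 else W.q / 2 := by
    intro l
    have e : List.range 9 = [0, 1, 2, 3, 4, 5, 6, 7, 8] := rfl
    rw [e]
    simp only [List.map_cons, List.map_nil, List.sum_cons, List.sum_nil, Wtd.ch, hty, ty]
    have : l % 3 = 0 ∨ l % 3 = 1 ∨ l % 3 = 2 := by omega
    rcases this with h | h | h <;> simp [h] <;> ring
  have h2 : ∀ m, ((verts (3 * m)).map W.ch).sum =
      (3 * m : ℕ) * (4 * (W.h / 2 + W.s)) + m * W.q := by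
    intro m
    induction m with
    | zero => simp [verts]
    | succ m ih =>
      have hr : List.range (3 * (m + 1)) = List.range (3 * m) ++ [3 * m] ++ [3 * m + 1] ++
          [3 * m + 1 + 1] := by
        rw [show 3 * (m + 1) = 3 * m + 1 + 1 + 1 by ring, List.range_succ, List.range_succ,
          List.range_succ]
      unfold verts at ih ⊢
      rw [hr]
      simp only [List.flatMap_append, List.map_append, List.sum_append, List.flatMap_singleton]
      rw [ih, h1, h1, h1]
      have e0 : (3 * m) % 3 = 0 := by omega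
      have e1 : (3 * m + 1) % 3 = 1 := by omega
      have e2 : (3 * m + 1 + 1) % 3 = 2 := by omega
      simp only [e0, e1, e2]
      push_cast
      norm_num
      ring
  obtain ⟨m, rfl⟩ : ∃ m, n = 3 * m := ⟨n / 3, by omega⟩
  rw [h2]
  have : 3 * m / 3 = m := by omega
  rw [this]

/-- The total value of a partition. -/
noncomputable def tval (W : Wtd (ℕ × ℕ)) (π : List ((ℕ × ℕ) × (ℕ × ℕ) × (ℕ × ℕ))) : ℝ :=
  (π.map fun t => W.vl t.1 t.2.1 t.2.2).sum

open Classical in
/-- **The upper bound.** -/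
theorem tval_le (hn : n % 3 = 0) (hΦ : Good S Φ) {π : List ((ℕ × ℕ) × (ℕ × ℕ) × (ℕ × ℕ))}
    (hπ : IsPart n π) {B : ℕ} (hB : ∀ x, ((range n).filter fun l => f l = x).card ≤ B)
    (hS : 6 * B * Φ 1 ≤ Φ S) :
    tval (wtd f n sg S D Φ hn hΦ) π ≤ n * (4 * (Φ (4 * S) / 2 + Φ S)) + (n / 3 : ℕ) * Φ 6 +
      Φ 1 * ((range (n / 3)).filter (CSat f n sg π)).card := by
  set W := wtd f n sg S D Φ hn hΦ with hW
  have hone := hΦ.one
  have h0 : ((verts n).map W.ch).sum = (π.map fun t => ((tl t).map W.ch).sum).sum := by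
    rw [← (hπ.map W.ch).sum_eq, List.map_flatMap]
    rw [List.flatMap_def, List.sum_flatten, List.map_map]
    rfl
  have h1 : tval W π ≤ (π.map fun t => ((tl t).map W.ch).sum + (if W.Bonus t then W.a else 0) -
      (if W.Bad t then W.s / 2 else 0)).sum := by
    refine List.sum_le_sum fun t ht => W.triple_le t (part_tl hπ ht)
  have hnd := part_nodup' hπ
  have h2 : (π.map fun t => ((tl t).map W.ch).sum + (if W.Bonus t then W.a else 0) -
      (if W.Bad t then W.s / 2 else 0)).sum =
      ((verts n).map W.ch).sum + W.a * (π.toFinset.filter W.Bonus).card -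
      W.s / 2 * (π.toFinset.filter W.Bad).card := by
    rw [h0, ← List.sum_toFinset _ hnd, ← List.sum_toFinset _ hnd, sum_sub_distrib,
      sum_add_distrib, ← sum_filter, ← sum_filter, sum_const, sum_const, nsmul_eq_mul,
      nsmul_eq_mul]
    ring
  have h3 := bonus_le (D := D) (sg := sg) hn hΦ hπ hB
  rw [← hW] at h3
  rw [h2, sum_ch W rfl hn] at h1
  have h3' : ((π.toFinset.filter W.Bonus).card : ℝ) ≤
      ((range (n / 3)).filter (CSat f n sg π)).card +
      3 * B * (π.toFinset.filter W.Bad).card := by exact_mod_cast h3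
  have ea : W.a = Φ 1 := rfl
  have es : W.s = Φ S := rfl
  have eh : W.h = Φ (4 * S) := rfl
  have eq : W.q = Φ 6 := rfl
  rw [ea, es, eh, eq] at h1
  have h4 : (0 : ℝ) ≤ (π.toFinset.filter W.Bad).card := Nat.cast_nonneg _
  have h5 : Φ 1 * ((π.toFinset.filter W.Bonus).card : ℝ) ≤
      Φ 1 * (((range (n / 3)).filter (CSat f n sg π)).card +
      3 * B * (π.toFinset.filter W.Bad).card) := mul_le_mul_of_nonneg_left h3' hone.le
  nlinarith

end Pool.Agent.H243R3.TP
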