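import Mathlib

/-!
# A cyclic order on the positions of each variable
-/

namespace Pool.Agent.H243R3.TP

/-- The next position (cyclically) among the first `n` with the same value of `f`. -/
def nxt (f : ℕ → ℕ) (n l : ℕ) : ℕ :=
  ((((List.range n).filter fun m => decide (l < m) && decide (f m = f l)) ++
    (List.range n).filter fun m => decide (f m = f l)).head?).getD l

/-- The previous position. -/
def prv (f : ℕ → ℕ) (n l : ℕ) : ℕ :=
  (((List.range n).filter fun m => decide (nxt f n m = l)).head?).getD l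

variable {f : ℕ → ℕ} {n : ℕ}

theorem nxt_spec {l : ℕ} (hl : l < n) : nxt f n l < n ∧ f (nxt f n l) = f l ∧
    ((l < nxt f n l ∧ ∀ k, l < k → k < nxt f n l → f k ≠ f l) ∨
     (nxt f n l ≤ l ∧ (∀ k, k < nxt f n l → f k ≠ f l) ∧ ∀ k, l < k → k < n → f k ≠ f l)) := by
  unfold nxt
  rw [List.head?_append, List.head?_filter, List.head?_filter]
  rcases h1 : (List.range n).find? (fun m => decide (l < m) && decide (f m = f l)) with _ | m
  · rw [List.find?_eq_none] at h1
    rcases h2 : (List.range n).find? (fun m => decide (f m = f l)) with _ | m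
    · exfalso
      rw [List.find?_eq_none] at h2
      exact h2 l (List.mem_range.2 hl) (by simp)
    · rw [List.find?_range_eq_some] at h2
      simp only [Option.none_or, Option.getD_some]
      obtain ⟨h3, h4, h5⟩ := h2
      simp only [decide_eq_true_eq, List.mem_range, Bool.not_eq_true', decide_eq_false_iff_not]
        at h3 h4 h5
      refine ⟨h4, h3, Or.inr ⟨?_, h5, ?_⟩⟩
      · by_contra h
        exact h5 l (by omega) rfl
      · intro k hk hkn hf
        exact h1 k (List.mem_range.2 hkn) (by simp [hk, hf])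
  · rw [List.find?_range_eq_some] at h1
    simp only [Option.some_or, Option.getD_some]
    obtain ⟨h3, h4, h5⟩ := h1
    simp only [Bool.and_eq_true, decide_eq_true_eq, List.mem_range, Bool.not_eq_true',
      Bool.and_eq_false_iff, decide_eq_false_iff_not] at h3 h4 h5
    refine ⟨h4, h3.2, Or.inl ⟨h3.1, ?_⟩⟩
    intro k hk hkm hf
    rcases h5 k hkm with h | h
    · exact h hk
    · exact h hf

theorem nxt_lt {l : ℕ} (hl : l < n) : nxt f n l < n := (nxt_spec hl).1
theorem f_nxt {l : ℕ} (hl : l < n) : f (nxt f n l) = f l := (nxt_spec hl).2.1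

theorem nxt_inj {l l' : ℕ} (hl : l < n) (hl' : l' < n) (h : nxt f n l = nxt f n l') : l = l' := by
  obtain ⟨a1, a2, a3⟩ := nxt_spec (f := f) hl
  obtain ⟨b1, b2, b3⟩ := nxt_spec (f := f) hl'
  rw [← h] at b1 b2 b3
  have hf : f l = f l' := a2.symm.trans b2
  rcases Nat.lt_trichotomy l l' with h1 | h1 | h1
  · exfalso
    rcases a3 with ⟨c1, c2⟩ | ⟨c1, c2, c3⟩
    · rcases b3 with ⟨d1, d2⟩ | ⟨d1, d2, d3⟩
      · exact c2 l' h1 d1 hf.symm
      · exact d2 l c1 hf
    · exact c3 l' h1 hl' hf.symm
  · exact h1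
  · exfalso
    rcases b3 with ⟨c1, c2⟩ | ⟨c1, c2, c3⟩
    · rcases a3 with ⟨d1, d2⟩ | ⟨d1, d2, d3⟩
      · exact c2 l h1 d1 hf
      · exact d2 l' c1 hf.symm
    · exact c3 l h1 hl hf

theorem nxt_surj {l : ℕ} (hl : l < n) : ∃ m < n, nxt f n m = l := by
  have h := Finset.surj_on_of_inj_on_of_card_le (s := Finset.range n) (t := Finset.range n)
    (fun a _ => nxt f n a) (fun a ha => Finset.mem_range.2 (nxt_lt (Finset.mem_range.1 ha)))
    (fun a b ha hb hab => nxt_inj (Finset.mem_range.1 ha) (Finset.mem_range.1 hb) hab)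
    le_rfl l (Finset.mem_range.2 hl)
  obtain ⟨a, ha, hb⟩ := h
  exact ⟨a, Finset.mem_range.1 ha, hb.symm⟩

theorem prv_spec {l : ℕ} (hl : l < n) : prv f n l < n ∧ nxt f n (prv f n l) = l := by
  unfold prv
  rw [List.head?_filter]
  rcases h1 : (List.range n).find? (fun m => decide (nxt f n m = l)) with _ | m
  · exfalso
    rw [List.find?_eq_none] at h1
    obtain ⟨m, hm, hml⟩ := nxt_surj (f := f) hl
    exact h1 m (List.mem_range.2 hm) (by simp [hml])
  · rw [List.find?_range_eq_some] at h1
    simp only [Option.getD_some]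
    simp only [decide_eq_true_eq, List.mem_range] at h1
    exact ⟨h1.2.1, h1.1⟩

theorem prv_lt {l : ℕ} (hl : l < n) : prv f n l < n := (prv_spec hl).1
theorem nxt_prv {l : ℕ} (hl : l < n) : nxt f n (prv f n l) = l := (prv_spec hl).2
theorem prv_nxt {l : ℕ} (hl : l < n) : prv f n (nxt f n l) = l :=
  nxt_inj (prv_lt (nxt_lt hl)) hl (nxt_prv (nxt_lt hl))
theorem f_prv {l : ℕ} (hl : l < n) : f (prv f n l) = f l := by
  have := f_nxt (f := f) (prv_lt (f := f) hl)
  rw [nxt_prv hl] at this
  exact this.symm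

/-- A property that passes from a position to the next one holds for all positions of the
variable, or for none. -/
theorem nxt_trans {S : ℕ → Prop} {l : ℕ} (hl : l < n)
    (hS : ∀ k, k < n → f k = f l → S k → S (nxt f n k)) (h : S l) :
    ∀ m, m < n → f m = f l → S m := by
  have h1 : ∀ m, m < n → l ≤ m → f m = f l → S m := by
    intro m
    induction m using Nat.strong_induction_on with
    | _ m ih =>
      intro hm hlm hf
      rcases Nat.eq_or_lt_of_le hlm with rfl | hlm
      · exact h
      obtain ⟨a1, a2⟩ := prv_spec (f := f) hm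
      have a3 : f (prv f n m) = f l := (f_prv hm).trans hf
      obtain ⟨b1, b2, b3⟩ := nxt_spec (f := f) a1
      rw [a2] at b1 b2 b3
      have := hS _ a1 a3
      rw [a2] at this
      refine this ?_
      rcases b3 with ⟨c1, c2⟩ | ⟨c1, c2, c3⟩
      · refine ih _ c1 a1 ?_ a3
        by_contra hc
        exact c2 l (by omega) hlm a3.symm
      · exact absurd a3.symm (c2 l hlm)
  intro m
  induction m using Nat.strong_induction_on with
  | _ m ih =>
    intro hm hf
    obtain ⟨a1, a2⟩ := prv_spec (f := f) hm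
    have a3 : f (prv f n m) = f l := (f_prv hm).trans hf
    obtain ⟨b1, b2, b3⟩ := nxt_spec (f := f) a1
    rw [a2] at b1 b2 b3
    have := hS _ a1 a3
    rw [a2] at this
    refine this ?_
    rcases b3 with ⟨c1, c2⟩ | ⟨c1, c2, c3⟩
    · exact ih _ c1 a1 a3
    · refine h1 _ a1 ?_ a3
      by_contra hc
      exact c3 l (by omega) hl a3.symm

end Pool.Agent.H243R3.TP
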