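import Pool.Agent.H243R3.TP.Defs

/-!
# The positions of the literals of a formula
-/

namespace Pool.Agent.H243R3.TP

/-- The variable at a position. -/
def vr (φ : List Clause) (l : ℕ) : ℕ := ((φ.flatMap lits).getD l (0, false)).1

/-- The sign at a position. -/
def sn (φ : List Clause) (l : ℕ) : Bool := ((φ.flatMap lits).getD l (0, false)).2

/-- The number of positions. -/
def np (φ : List Clause) : ℕ := 3 * φ.length

theorem np_mod (φ : List Clause) : np φ % 3 = 0 := by unfold np; omega

theorem np_div (φ : List Clause) : np φ / 3 = φ.length := by unfold np; omega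

theorem length_lits (φ : List Clause) : (φ.flatMap lits).length = np φ := by
  unfold np lits
  induction φ with
  | nil => simp
  | cons c φ ih => rw [List.flatMap_cons, List.length_append, ih]; simp; ring

theorem getD_lits : ∀ (φ : List Clause) (j k : ℕ), j < φ.length → k < 3 →
    (φ.flatMap lits).getD (3 * j + k) (0, false) =
      (lits (φ.getD j ((0, false), (0, false), (0, false)))).getD k (0, false) := by
  intro φ
  induction φ with
  | nil => intro j k hj; simp at hj
  | cons c φ ih =>
    intro j k hj hk
    rw [List.flatMap_cons]
    cases j with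
    | zero =>
      have : (lits c).length = 3 := rfl
      rw [List.getD_append _ _ _ _ (by omega)]
      simp
    | succ j =>
      have h3 : (lits c).length = 3 := rfl
      rw [List.getD_append_right _ _ _ _ (by omega), h3, List.getD_cons_succ,
        ← ih j k (by simpa using hj) hk]
      congr 1
      omega

theorem map_range_getD {α : Type} (l : List α) (d : α) :
    (List.range l.length).map (fun i => l.getD i d) = l := by
  apply List.ext_getElem
  · simp
  · intro i h1 h2
    simp [List.getD_eq_getElem?_getD, List.getElem?_eq_getElem h2]

theorem occ_eq (φ : List Clause) : occ φ = (List.range (np φ)).map (vr φ) := by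
  have h1 : occ φ = (φ.flatMap lits).map Prod.fst := by
    unfold occ
    rw [List.map_flatMap]
  have h2 := map_range_getD (φ.flatMap lits) (0, false)
  rw [length_lits] at h2
  rw [h1]
  conv_lhs => rw [← h2]
  rw [List.map_map]
  rfl

theorem length_occ (φ : List Clause) : (occ φ).length = np φ := by
  rw [occ_eq, List.length_map, List.length_range]

theorem countP_range (p : ℕ → Prop) [DecidablePred p] (m : ℕ) :
    (List.range m).countP (fun j => decide (p j)) = ((Finset.range m).filter p).card := by
  induction m with
  | zero => simp
  | succ m ih =>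
    rw [List.range_succ, List.countP_append, ih, Finset.range_add_one, Finset.filter_insert]
    split_ifs with h
    · rw [Finset.card_insert_of_notMem (by simp)]
      simp [h]
    · simp [h]

theorem card_occ (φ : List Clause) (x : ℕ) :
    ((Finset.range (np φ)).filter fun l => vr φ l = x).card = (occ φ).count x := by
  rw [← countP_range, occ_eq, List.count_eq_countP, List.countP_map]
  congr 1

theorem clauseSat_iff {A : List ℕ} {φ : List Clause} {j : ℕ} (hj : j < φ.length) :
    ClauseSat A (φ.getD j ((0, false), (0, false), (0, false))) ↔
      ∃ k < 3, (vr φ (3 * j + k) ∈ A ↔ sn φ (3 * j + k) = true) := by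
  have h : ∀ k < 3, ((vr φ (3 * j + k) ∈ A ↔ sn φ (3 * j + k) = true) ↔ LitTrue A
      ((lits (φ.getD j ((0, false), (0, false), (0, false)))).getD k (0, false))) := by
    intro k hk
    unfold vr sn LitTrue
    rw [getD_lits φ j k hj hk]
  unfold ClauseSat
  constructor
  · rintro ⟨l, hl, h1⟩
    obtain ⟨k, hk, rfl⟩ := List.getElem_of_mem hl
    have hk3 : k < 3 := hk
    refine ⟨k, hk3, ?_⟩
    rw [h k hk3, List.getD_eq_getElem?_getD, List.getElem?_eq_getElem hk]
    exact h1
  · rintro ⟨k, hk, h1⟩
    rw [h k hk] at h1
    refine ⟨_, ?_, h1⟩
    generalize φ.getD j ((0, false), (0, false), (0, false)) = c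
    unfold lits
    interval_cases k <;> simp

theorem numSat_eq (φ : List Clause) (A : List ℕ) (Q : ℕ → Prop) [DecidablePred Q]
    (h : ∀ j < φ.length, (Q j ↔ ∃ k < 3, (vr φ (3 * j + k) ∈ A ↔ sn φ (3 * j + k) = true))) :
    numSat φ A = ((Finset.range (np φ / 3)).filter Q).card := by
  rw [np_div, ← countP_range]
  unfold numSat
  conv_lhs => rw [← map_range_getD φ ((0, false), (0, false), (0, false))]
  rw [List.countP_map]
  refine List.countP_congr fun j hj => ?_
  rw [List.mem_range] at hj
  simp only [Function.comp_apply, decide_eq_true_eq]
  rw [clauseSat_iff hj, h j hj]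

/-- One of the two constant assignments satisfies half of the clauses. -/
theorem half (φ : List Clause) : φ.length ≤ numSat φ [] + numSat φ (occ φ) := by
  have key : ∀ (A : List ℕ) (ψ : List Clause), (∀ c ∈ ψ, ∀ l ∈ lits c, l.1 ∈ A) →
      ψ.length ≤ numSat ψ [] + numSat ψ A := by
    intro A ψ
    induction ψ with
    | nil => intro _; simp
    | cons c ψ ih =>
      intro h
      have h1 := ih fun c' hc' => h c' (List.mem_cons_of_mem _ hc')
      have h2 := h c List.mem_cons_self c.1 (by simp [lits])
      unfold numSat at h1 ⊢
      rw [List.countP_cons, List.countP_cons, List.length_cons]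
      have h3 : ClauseSat [] c ∨ ClauseSat A c := by
        cases hb : c.1.2
        · left
          exact ⟨c.1, by simp [lits], by simp [LitTrue, hb]⟩
        · right
          exact ⟨c.1, by simp [lits], by simp [LitTrue, hb, h2]⟩
      rcases h3 with h3 | h3
      · rw [if_pos (by simpa using h3)]
        split_ifs <;> omega
      · rw [if_pos (c := (decide (ClauseSat A c) = true)) (by simpa using h3)]
        split_ifs <;> omega
  apply key
  intro c hc l hl
  unfold occ
  exact List.mem_flatMap.2 ⟨c, hc, List.mem_map.2 ⟨l, hl, rfl⟩⟩

/-- The better of two assignments. -/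
def best (φ : List Clause) (A A' : List ℕ) : List ℕ := if numSat φ A < numSat φ A' then A' else A

theorem numSat_best (φ : List Clause) (A A' : List ℕ) :
    numSat φ A ≤ numSat φ (best φ A A') ∧ numSat φ A' ≤ numSat φ (best φ A A') := by
  unfold best
  split_ifs <;> omega

theorem best_cases (φ : List Clause) (A A' : List ℕ) : best φ A A' = A ∨ best φ A A' = A' := by
  unfold best
  split_ifs <;> simp

end Pool.Agent.H243R3.TP
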