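import Pool.Agent.H243R3.TP.Inst

/-!
# Powers with exponent at most one
-/

namespace Pool.Agent.H243R3.TP

/-- The increase of the distance caused by the multiplicity `m`. -/
noncomputable def gr (U θ T : ℝ) (m : ℕ) : ℝ := U * (T + m) ^ θ - U * T ^ θ

variable {U θ T : ℝ}

theorem gr_le (hU : 0 < U) (h0 : 0 < θ) (h1 : θ ≤ 1) (hT : 0 < T) (m : ℕ) :
    gr U θ T m ≤ (U * T ^ θ * θ / T) * m := by
  have hm : (0 : ℝ) ≤ m := Nat.cast_nonneg _
  have e1 : T + m = T * (1 + m / T) := by field_simp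
  have hq : 0 ≤ (m : ℝ) / T := by positivity
  have h2 : (1 + (m : ℝ) / T) ^ θ ≤ 1 + θ * (m / T) :=
    rpow_one_add_le_one_add_mul_self (by linarith) h0.le h1
  unfold gr
  rw [e1, Real.mul_rpow hT.le (by positivity)]
  have hpos : 0 < T ^ θ := Real.rpow_pos_of_pos hT _
  have h3 : T ^ θ * (1 + (m : ℝ) / T) ^ θ ≤ T ^ θ * (1 + θ * (m / T)) :=
    mul_le_mul_of_nonneg_left h2 hpos.le
  have h4 := mul_le_mul_of_nonneg_left h3 hU.le
  have e2 : U * (T ^ θ * (1 + θ * (m / T))) - U * T ^ θ = U * T ^ θ * θ / T * m := by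
    field_simp
    ring
  linarith

theorem le_gr (hU : 0 < U) (h0 : 0 < θ) (h1 : θ ≤ 1) (hT : 0 < T) (m : ℕ) :
    (U * T ^ θ * θ / T) * m * (T / (T + m)) ≤ gr U θ T m := by
  have hm : (0 : ℝ) ≤ m := Nat.cast_nonneg _
  have hTm : 0 < T + m := by linarith
  have e1 : T = (T + m) * (1 + (-(m / (T + m)))) := by field_simp; ring
  have h2 : (1 + (-((m : ℝ) / (T + m)))) ^ θ ≤ 1 + θ * (-(m / (T + m))) :=
    rpow_one_add_le_one_add_mul_self (by
      have : (m : ℝ) / (T + m) ≤ 1 := by rw [div_le_one hTm]; linarith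
      linarith) h0.le h1
  have hnn : 0 ≤ 1 + (-((m : ℝ) / (T + m))) := by
    have : (m : ℝ) / (T + m) ≤ 1 := by rw [div_le_one hTm]; linarith
    linarith
  have h3 : T ^ θ = (T + m) ^ θ * (1 + (-(m / (T + m)))) ^ θ := by
    rw [← Real.mul_rpow hTm.le hnn, ← e1]
  have hpos : 0 < T ^ θ := Real.rpow_pos_of_pos hT _
  have hpos' : 0 < (T + m) ^ θ := Real.rpow_pos_of_pos hTm _
  have hmono : T ^ θ ≤ (T + m) ^ θ := Real.rpow_le_rpow hT.le (by linarith) h0.le
  have h4 : T ^ θ ≤ (T + m) ^ θ * (1 + θ * (-(m / (T + m)))) := by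
    conv_lhs => rw [h3]
    exact mul_le_mul_of_nonneg_left h2 hpos'.le
  have h5 : (T + m) ^ θ * (θ * (m / (T + m))) ≤ (T + m) ^ θ - T ^ θ := by linarith
  have h6 : T ^ θ * (θ * (m / (T + m))) ≤ (T + m) ^ θ * (θ * (m / (T + m))) :=
    mul_le_mul_of_nonneg_right hmono (by positivity)
  have h7 := mul_le_mul_of_nonneg_left (h6.trans h5) hU.le
  unfold gr
  have e2 : U * T ^ θ * θ / T * m * (T / (T + m)) = U * (T ^ θ * (θ * (m / (T + m)))) := by
    field_simp
  rw [e2]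
  linarith

theorem gr_zero : gr U θ T 0 = 0 := by unfold gr; simp

/-- The numbers that are used satisfy the conditions. -/
theorem good_gr (hU : 0 < U) (h0 : 0 < θ) (h1 : θ ≤ 1) {S : ℕ} (hS : 1 ≤ S)
    (hT : (12 * S : ℝ) ≤ T) : Good S (gr U θ T) := by
  have hS' : (1 : ℝ) ≤ S := by exact_mod_cast hS
  have hT0 : 0 < T := by linarith
  have hc : 0 < U * T ^ θ * θ / T := by
    have : 0 < T ^ θ := Real.rpow_pos_of_pos hT0 _
    positivity
  have hpos : ∀ m : ℕ, 0 < m → 0 < gr U θ T m := by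
    intro m hm
    have hm' : (0 : ℝ) < m := by exact_mod_cast hm
    refine lt_of_lt_of_le ?_ (le_gr hU h0 h1 hT0 m)
    positivity
  refine ⟨gr_zero, hpos 1 one_pos, hpos S (by omega), ?_, ?_, ?_⟩
  · have a1 := gr_le hU h0 h1 hT0 S
    have a2 := le_gr hU h0 h1 hT0 (4 * S)
    have a3 : (3 : ℝ) * S ≤ (4 * S : ℕ) * (T / (T + (4 * S : ℕ))) := by
      push_cast
      rw [mul_div_assoc', le_div_iff₀ (by linarith)]
      nlinarith
    have a4 := mul_le_mul_of_nonneg_left a3 hc.le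
    linarith [a4]
  · have hcc := @(Real.concaveOn_rpow h0.le h1).2 T (by simp only [Set.mem_Ici]; linarith)
      (T + 4 * S) (by simp only [Set.mem_Ici]; linarith) (3 / 4) (1 / 4) (by norm_num)
      (by norm_num) (by norm_num)
    have e : (3 / 4 : ℝ) • T + (1 / 4 : ℝ) • (T + 4 * S) = T + S := by
      simp only [smul_eq_mul]; ring
    simp only [e] at hcc
    simp only [smul_eq_mul] at hcc
    have := mul_le_mul_of_nonneg_left hcc hU.le
    unfold gr
    push_cast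
    linarith
  · have a1 := gr_le hU h0 h1 hT0 1
    have a2 := le_gr hU h0 h1 hT0 6
    have a3 : (4 : ℝ) * (1 : ℕ) ≤ (6 : ℕ) * (T / (T + (6 : ℕ))) := by
      push_cast
      rw [mul_div_assoc', le_div_iff₀ (by linarith)]
      nlinarith
    have a4 := mul_le_mul_of_nonneg_left a3 hc.le
    linarith [a4]

theorem gr_bd (hU : 0 < U) (h0 : 0 < θ) (h1 : θ ≤ 1) {S B : ℕ} (hS : 1 ≤ S)
    (hT : (12 * S : ℝ) ≤ T) (hB : 12 * B ≤ S) : 6 * (B : ℝ) * gr U θ T 1 ≤ gr U θ T S := by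
  have hS' : (1 : ℝ) ≤ S := by exact_mod_cast hS
  have hT0 : 0 < T := by linarith
  have hB' : (12 : ℝ) * B ≤ S := by exact_mod_cast hB
  have hB0 : (0 : ℝ) ≤ B := Nat.cast_nonneg _
  have hc : 0 < U * T ^ θ * θ / T := by
    have : 0 < T ^ θ := Real.rpow_pos_of_pos hT0 _
    positivity
  have a1 := gr_le hU h0 h1 hT0 1
  have a2 := le_gr hU h0 h1 hT0 S
  have a3 : (6 : ℝ) * B ≤ S * (T / (T + S)) := by
    have : (1 / 2 : ℝ) ≤ T / (T + S) := by
      rw [le_div_iff₀ (by linarith)]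
      linarith
    nlinarith
  have a4 := mul_le_mul_of_nonneg_left a3 hc.le
  have a5 := mul_le_mul_of_nonneg_left a1 (by positivity : (0 : ℝ) ≤ 6 * B)
  push_cast at a5
  linarith [a4, a5]

/-- The increase is proportional to the factor. -/
theorem gr_scale (m : ℕ) : gr U θ T m = U * gr 1 θ T m := by
  unfold gr
  ring

end Pool.Agent.H243R3.TP
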