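import Pool.Agent.H243R3.TP.Count

/-!
# A partition of large value for every assignment
-/

namespace Pool.Agent.H243R3.TP

open Finset

variable {f : ℕ → ℕ} {n : ℕ} {sg : ℕ → Bool} {S D : ℕ} {Φ : ℕ → ℝ}

theorem exists_chunks {α : Type} : ∀ (m : ℕ) (r : List α), r.length = 3 * m →
    ∃ R : List (α × α × α), R.flatMap tl = r
  | 0, r, h => ⟨[], by simpa using (List.length_eq_zero_iff.1 (by simpa using h)).symm⟩
  | m + 1, r, h => by
    match r, h with
    | a :: b :: c :: r, h =>
      obtain ⟨R, hR⟩ := exists_chunks m r (by simp at h; omega)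
      exact ⟨(a, b, c) :: R, by simp [hR, tl]⟩
    | [a, b], h => simp at h; omega
    | [a], h => simp at h; omega
    | [], h => simp at h

theorem length_verts (n : ℕ) : (verts n).length = 9 * n := by
  unfold verts
  simp [List.length_flatMap, mul_comm]

theorem length_flatMap_tl {α : Type} (U : List (α × α × α)) : (U.flatMap tl).length = 3 * U.length := by
  simp [List.length_flatMap, tl, mul_comm]

theorem extend (U : List ((ℕ × ℕ) × (ℕ × ℕ) × (ℕ × ℕ))) (h1 : (U.flatMap tl).Nodup)
    (h2 : ∀ v ∈ U.flatMap tl, InV n v) : ∃ R, IsPart n (U ++ R) := by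
  classical
  set r := (verts n).filter fun v => decide (v ∉ U.flatMap tl) with hr
  have hp : (U.flatMap tl ++ r).Perm (verts n) := by
    rw [List.perm_ext_iff_of_nodup]
    · intro v
      rw [List.mem_append, hr, List.mem_filter, mem_verts, decide_eq_true_eq]
      constructor
      · rintro (h | h)
        · exact h2 v h
        · exact h.1
      · intro h
        by_cases hv : v ∈ U.flatMap tl
        · exact Or.inl hv
        · exact Or.inr ⟨h, hv⟩
    · rw [List.nodup_append']
      refine ⟨h1, (nodup_verts n).filter _, ?_⟩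
      intro v hv hv'
      rw [hr, List.mem_filter, decide_eq_true_eq] at hv'
      exact hv'.2 hv
    · exact nodup_verts n
  have hlen := hp.length_eq
  rw [List.length_append, length_flatMap_tl, length_verts] at hlen
  obtain ⟨R, hR⟩ := exists_chunks (3 * n - U.length) r (by omega)
  refine ⟨R, ?_⟩
  unfold IsPart
  rw [List.flatMap_append, hR]
  exact hp

/-- The two triangles at a position. -/
def tri (f : ℕ → ℕ) (n : ℕ) (al : ℕ → Bool) (l : ℕ) : List ((ℕ × ℕ) × (ℕ × ℕ) × (ℕ × ℕ)) :=
  if al (f l) = true then [((l, 0), (l, 1), (l, 4)), ((l, 2), (l, 3), (l, 6))]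
  else [((l, 1), (l, 2), (l, 5)), ((l, 3), (nxt f n l, 0), (l, 7))]

/-- The literal at the position `l` is true. -/
def LT (f : ℕ → ℕ) (sg : ℕ → Bool) (al : ℕ → Bool) (l : ℕ) : Prop := al (f l) = sg l

instance (al : ℕ → Bool) (l : ℕ) : Decidable (LT f sg al l) := by unfold LT; infer_instance

/-- The third vertex in the triple of a clause. -/
def third (f : ℕ → ℕ) (sg : ℕ → Bool) (al : ℕ → Bool) (j : ℕ) : ℕ × ℕ :=
  if LT f sg al (3 * j) then (3 * j, off sg (3 * j))
  else if LT f sg al (3 * j + 1) then (3 * j + 1, off sg (3 * j + 1))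
  else if LT f sg al (3 * j + 2) then (3 * j + 2, off sg (3 * j + 2))
  else (3 * j + 2, 8)

/-- The triples that are used. -/
def used (f : ℕ → ℕ) (n : ℕ) (sg : ℕ → Bool) (al : ℕ → Bool) :
    List ((ℕ × ℕ) × (ℕ × ℕ) × (ℕ × ℕ)) :=
  (List.range n).flatMap (tri f n al) ++
    (List.range (n / 3)).map fun j => ((3 * j, 8), (3 * j + 1, 8), third f sg al j)

/-- A labelling of the vertices by the triples. -/
def lab (f : ℕ → ℕ) (n : ℕ) (al : ℕ → Bool) (v : ℕ × ℕ) : ℕ × ℕ :=
  if v.2 = 8 then (v.1 / 3, 2)
  else if al (f v.1) = true then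
    (if v.2 = 0 ∨ v.2 = 1 ∨ v.2 = 4 then (v.1, 0) else if v.2 = 2 ∨ v.2 = 3 ∨ v.2 = 6 then (v.1, 1)
      else (v.1 / 3, 2))
  else (if v.2 = 1 ∨ v.2 = 2 ∨ v.2 = 5 then (v.1, 0) else if v.2 = 3 ∨ v.2 = 7 then (v.1, 1)
      else if v.2 = 0 then (prv f n v.1, 1) else (v.1 / 3, 2))

theorem third_cases (al : ℕ → Bool) (j : ℕ) : third f sg al j = (3 * j + 2, 8) ∨
    ∃ k < 3, LT f sg al (3 * j + k) ∧ third f sg al j = (3 * j + k, off sg (3 * j + k)) := by
  unfold third
  split_ifs with h1 h2 h3
  · exact Or.inr ⟨0, by norm_num, h1, rfl⟩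
  · exact Or.inr ⟨1, by norm_num, h2, rfl⟩
  · exact Or.inr ⟨2, by norm_num, h3, rfl⟩
  · exact Or.inl rfl

theorem lab_third (al : ℕ → Bool) (j : ℕ) : lab f n al (third f sg al j) = (j, 2) := by
  rcases third_cases (f := f) (sg := sg) al j with h | ⟨k, hk, h1, h⟩ <;> rw [h]
  · simp [lab]; omega
  · unfold LT at h1
    unfold lab off
    rcases hs : sg (3 * j + k) with _ | _ <;> rw [hs] at h1 <;> simp [h1] <;> omega

theorem used_lab (al : ℕ → Bool) : ∀ t ∈ used f n sg al, ∀ v ∈ tl t,
    lab f n al v = lab f n al t.1 := by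
  intro t ht v hv
  unfold used at ht
  rw [List.mem_append, List.mem_flatMap, List.mem_map] at ht
  rcases ht with ⟨l, hl, ht⟩ | ⟨j, hj, rfl⟩
  · rw [List.mem_range] at hl
    unfold tri at ht
    split_ifs at ht with h
    · simp only [List.mem_cons, List.not_mem_nil, or_false] at ht
      rcases ht with rfl | rfl <;> simp only [tl, List.mem_cons, List.not_mem_nil, or_false] at hv <;>
        rcases hv with rfl | rfl | rfl <;> simp [lab, h]
    · simp only [List.mem_cons, List.not_mem_nil, or_false] at ht
      rcases ht with rfl | rfl <;> simp only [tl, List.mem_cons, List.not_mem_nil, or_false] at hv <;>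
        rcases hv with rfl | rfl | rfl <;> simp [lab, h, f_nxt hl, prv_nxt hl]
  · simp only [tl, List.mem_cons, List.not_mem_nil, or_false] at hv
    have h0 : lab f n al (3 * j, 8) = (j, 2) := by simp [lab]
    rcases hv with rfl | rfl | rfl
    · rfl
    · rw [h0]; simp [lab]; omega
    · rw [h0, lab_third]

theorem used_map_lab (al : ℕ → Bool) : (used f n sg al).map (fun t => lab f n al t.1) =
    ((List.range n).flatMap fun l => [(l, 0), (l, 1)]) ++
      (List.range (n / 3)).map fun j => (j, 2) := by
  unfold used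
  rw [List.map_append, List.map_flatMap, List.map_map]
  congr 1
  · refine List.flatMap_congr fun l hl => ?_
    unfold tri
    split_ifs with h <;> simp [lab, h]
  · refine List.map_congr_left fun j hj => ?_
    simp [lab]

theorem used_nodup (al : ℕ → Bool) : ((used f n sg al).flatMap tl).Nodup := by
  rw [List.nodup_flatMap]
  constructor
  · intro t ht
    unfold used at ht
    rw [List.mem_append, List.mem_flatMap, List.mem_map] at ht
    rcases ht with ⟨l, hl, ht⟩ | ⟨j, hj, rfl⟩
    · unfold tri at ht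
      split_ifs at ht with h <;> simp only [List.mem_cons, List.not_mem_nil, or_false] at ht <;>
        rcases ht with rfl | rfl <;> simp [tl]
    · have := off_cases sg (3 * j)
      rcases third_cases (f := f) (sg := sg) al j with h | ⟨k, hk, h1, h⟩
      · simp [tl, h]
      · have := off_cases sg (3 * j + k)
        simp only [tl, h, List.nodup_cons, List.mem_cons, Prod.mk.injEq, List.not_mem_nil,
          or_false, not_or, List.nodup_nil, not_false_eq_true, and_true]
        omega
  · have hnd : ((used f n sg al).map fun t => lab f n al t.1).Nodup := by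
      rw [used_map_lab, List.nodup_append']
      refine ⟨?_, ?_, ?_⟩
      · rw [List.nodup_flatMap]
        refine ⟨fun l _ => by simp, ?_⟩
        refine List.Pairwise.imp (R := fun a b : ℕ => a ≠ b) ?_ List.nodup_range
        intro a b hab x hx hy
        simp only [List.mem_cons, List.not_mem_nil, or_false] at hx hy
        rcases hx with rfl | rfl <;> rcases hy with h | h <;> simp at h <;> exact hab h
      · exact List.Nodup.map (fun a b h => (Prod.mk.inj h).1) List.nodup_range
      · intro x hx hy
        simp only [List.mem_flatMap, List.mem_cons, List.not_mem_nil, or_false, List.mem_map] at hx hy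
        obtain ⟨l, -, hx⟩ := hx
        obtain ⟨j, -, rfl⟩ := hy
        rcases hx with h | h <;> simp at h
    unfold List.Nodup at hnd
    rw [List.pairwise_map] at hnd
    refine List.Pairwise.imp_of_mem ?_ hnd
    intro a b ha hb hab x hx hy
    exact hab ((used_lab al a ha x hx).symm.trans (used_lab al b hb x hy))

theorem used_inV (hn : n % 3 = 0) (al : ℕ → Bool) : ∀ v ∈ (used f n sg al).flatMap tl, InV n v := by
  intro v hv
  rw [List.mem_flatMap] at hv
  obtain ⟨t, ht, hv⟩ := hv
  unfold used at ht
  rw [List.mem_append, List.mem_flatMap, List.mem_map] at ht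
  unfold InV
  rcases ht with ⟨l, hl, ht⟩ | ⟨j, hj, rfl⟩
  · rw [List.mem_range] at hl
    have := nxt_lt (f := f) hl
    unfold tri at ht
    split_ifs at ht with h <;> simp only [List.mem_cons, List.not_mem_nil, or_false] at ht <;>
      rcases ht with rfl | rfl <;> simp only [tl, List.mem_cons, List.not_mem_nil, or_false] at hv <;>
      rcases hv with rfl | rfl | rfl <;> simp only <;> omega
  · rw [List.mem_range] at hj
    simp only [tl, List.mem_cons, List.not_mem_nil, or_false] at hv
    rcases hv with rfl | rfl | rfl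
    · simp only; omega
    · simp only; omega
    · rcases third_cases (f := f) (sg := sg) al j with h | ⟨k, hk, h1, h⟩
      · rw [h]; simp only; omega
      · have := off_cases sg (3 * j + k)
        rw [h]; simp only; omega

/-! ### The value -/

theorem wt_nonneg (hΦ : Good S Φ) (u v : ℕ × ℕ) (hn : n % 3 = 0) : 0 ≤ wt f n sg S D Φ u v := by
  have h1 := hΦ.one
  have h2 := hΦ.pos
  have h3 := hΦ.le
  have h4 := hΦ.six
  have main : ∀ u v : ℕ × ℕ, ty u ≤ ty v → 0 ≤ wt f n sg S D Φ u v := by
    intro u v huv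
    have := ty_le v
    obtain hu | hu | hu : ty u = 0 ∨ ty u = 1 ∨ 2 ≤ ty u := by omega
    · obtain hv | hv | hv : ty v = 0 ∨ ty v = 1 ∨ 2 ≤ ty v := by omega
      · rcases adj00 (f := f) (n := n) (sg := sg) (D := D) hΦ hu hv with h | h
        · rw [h]
        · rw [h.1]; linarith
      · rcases adj01 (f := f) (n := n) (sg := sg) (D := D) hΦ hu hv with h | h
        · rw [h]
        · rw [h.1]; linarith
      · rw [(wtd f n sg S D Φ hn hΦ).h0k u v hu hv |> fun h => (show wt f n sg S D Φ u v = 0 from h)]
    · rcases adj12 (f := f) (n := n) (sg := sg) (D := D) hΦ hu (by omega : 1 ≤ ty v) with h | h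
      · rw [h]
      · rw [h.1]; linarith
    · rcases adjkk (f := f) (n := n) (sg := sg) (D := D) hΦ hu (by omega : 2 ≤ ty v) with h | h
      · rw [h]
      · rw [h.1]; linarith
  rcases le_total (ty u) (ty v) with h | h
  · exact main u v h
  · rw [wt_symm hn]; exact main v u h

theorem wt_h {u v : ℕ × ℕ} (hu : InV n u) (hv : InV n v) (huv : u ≠ v) (h1 : ty u = 0)
    (h2 : ty v = 0) (h : mu f n sg 0 u = v ∨ mu f n sg 1 u = v) :
    wt f n sg S D Φ u v = Φ (4 * S) := by
  rw [wt_of hu hv huv, mult00 hu huv h1 h2, if_pos h, mul_one]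

theorem wt_s {u v : ℕ × ℕ} (hu : InV n u) (hv : InV n v) (h1 : ty u = 0)
    (h2 : ty v = 1) (h : mu f n sg 2 u = v ∨ mu f n sg 3 u = v) :
    wt f n sg S D Φ u v = Φ S := by
  rw [wt_of hu hv (by rintro rfl; omega), mult01 hu h1 h2, if_pos h, mul_one]

theorem tval_tri (hn : n % 3 = 0) (hΦ : Good S Φ) (al : ℕ → Bool) {l : ℕ} (hl : l < n) :
    tval (wtd f n sg S D Φ hn hΦ) (tri f n al l) = 4 * (Φ (4 * S) / 2 + Φ S) := by
  have hl' := nxt_lt (f := f) hl
  have i : ∀ i < 9, InV n (l, i) := fun i hi => ⟨hl, hi⟩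
  have j : ∀ i < 9, InV n (nxt f n l, i) := fun i hi => ⟨hl', hi⟩
  unfold tval tri
  split_ifs with h
  · simp only [List.map_cons, List.map_nil, List.sum_cons, List.sum_nil, Wtd.vl]
    change wt f n sg S D Φ _ _ + wt f n sg S D Φ _ _ + wt f n sg S D Φ _ _ +
      (wt f n sg S D Φ _ _ + wt f n sg S D Φ _ _ + wt f n sg S D Φ _ _ + 0) = _
    rw [wt_h (i 0 (by norm_num)) (i 1 (by norm_num)) (by simp) (ty_zero.2 (by norm_num))
        (ty_zero.2 (by norm_num)) (by simp [mu]),
      wt_s (i 1 (by norm_num)) (i 4 (by norm_num)) (ty_zero.2 (by norm_num))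
        (ty_one.2 (by norm_num)) (by simp [mu]),
      wt_s (i 0 (by norm_num)) (i 4 (by norm_num)) (ty_zero.2 (by norm_num))
        (ty_one.2 (by norm_num)) (by simp [mu]),
      wt_h (i 2 (by norm_num)) (i 3 (by norm_num)) (by simp) (ty_zero.2 (by norm_num))
        (ty_zero.2 (by norm_num)) (by simp [mu]),
      wt_s (i 3 (by norm_num)) (i 6 (by norm_num)) (ty_zero.2 (by norm_num))
        (ty_one.2 (by norm_num)) (by simp [mu]),
      wt_s (i 2 (by norm_num)) (i 6 (by norm_num)) (ty_zero.2 (by norm_num))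
        (ty_one.2 (by norm_num)) (by simp [mu])]
    ring
  · simp only [List.map_cons, List.map_nil, List.sum_cons, List.sum_nil, Wtd.vl]
    change wt f n sg S D Φ _ _ + wt f n sg S D Φ _ _ + wt f n sg S D Φ _ _ +
      (wt f n sg S D Φ _ _ + wt f n sg S D Φ _ _ + wt f n sg S D Φ _ _ + 0) = _
    rw [wt_h (i 1 (by norm_num)) (i 2 (by norm_num)) (by simp) (ty_zero.2 (by norm_num))
        (ty_zero.2 (by norm_num)) (by simp [mu]),
      wt_s (i 2 (by norm_num)) (i 5 (by norm_num)) (ty_zero.2 (by norm_num))
        (ty_one.2 (by norm_num)) (by simp [mu]),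
      wt_s (i 1 (by norm_num)) (i 5 (by norm_num)) (ty_zero.2 (by norm_num))
        (ty_one.2 (by norm_num)) (by simp [mu]),
      wt_h (i 3 (by norm_num)) (j 0 (by norm_num)) (by simp) (ty_zero.2 (by norm_num))
        (ty_zero.2 (by norm_num)) (by simp [mu]),
      wt_s (j 0 (by norm_num)) (i 7 (by norm_num)) (ty_zero.2 (by norm_num))
        (ty_one.2 (by norm_num)) (by simp [mu, prv_nxt hl]),
      wt_s (i 3 (by norm_num)) (i 7 (by norm_num)) (ty_zero.2 (by norm_num))
        (ty_one.2 (by norm_num)) (by simp [mu])]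
    ring

/-- The clause `j` is satisfied. -/
def CS (f : ℕ → ℕ) (sg : ℕ → Bool) (al : ℕ → Bool) (j : ℕ) : Prop :=
  ∃ k < 3, LT f sg al (3 * j + k)

open Classical in
theorem tval_clause (hn : n % 3 = 0) (hΦ : Good S Φ) (al : ℕ → Bool) {j : ℕ} (hj : j < n / 3) :
    Φ 6 + (if CS f sg al j then Φ 1 else 0) ≤
    (wtd f n sg S D Φ hn hΦ).vl (3 * j, 8) (3 * j + 1, 8) (third f sg al j) := by
  have h6 : wt f n sg S D Φ (3 * j, 8) (3 * j + 1, 8) = Φ 6 := by
    have i1 : InV n (3 * j, 8) := ⟨by simp only; omega, by norm_num⟩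
    have i2 : InV n (3 * j + 1, 8) := ⟨by simp only; omega, by norm_num⟩
    rw [wt_of i1 i2 (by simp), multkk i1 i2 _ _ (by simp), if_pos]
    · simp [mu]
    · rw [(ty_two (v := (3 * j, 8)) (by norm_num)).2 ⟨rfl, by simp only; omega⟩]
    · rw [(ty_three (v := (3 * j + 1, 8)) (by norm_num)).2 ⟨rfl, by simp only; omega⟩]
      norm_num
  have hnn := wt_nonneg (f := f) (sg := sg) (D := D) hΦ (3 * j + 1, 8) (third f sg al j) hn
  have hnn' := wt_nonneg (f := f) (sg := sg) (D := D) hΦ (3 * j, 8) (third f sg al j) hn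
  change _ ≤ wt f n sg S D Φ _ _ + wt f n sg S D Φ _ _ + wt f n sg S D Φ _ _
  rw [h6]
  split_ifs with hc
  · have h1 : wt f n sg S D Φ (3 * j, 8) (third f sg al j) = Φ 1 := by
      rcases third_cases (f := f) (sg := sg) al j with h | ⟨k, hk, h1, h⟩
      · exfalso
        obtain ⟨k, hk, hL⟩ := hc
        unfold third at h
        have := off_cases sg (3 * j)
        have := off_cases sg (3 * j + 1)
        have := off_cases sg (3 * j + 2)
        split_ifs at h with a1 a2 a3
        · simp only [Prod.mk.injEq] at h; omega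
        · simp only [Prod.mk.injEq] at h; omega
        · simp only [Prod.mk.injEq] at h; omega
        · interval_cases k
          · exact a1 hL
          · exact a2 hL
          · exact a3 hL
      · rw [h, wt_symm hn]
        have := off_cases sg (3 * j + k)
        have i1 : InV n (3 * j, 8) := ⟨by simp only; omega, by norm_num⟩
        have i2 : InV n (3 * j + k, off sg (3 * j + k)) := ⟨by simp only; omega, by simp only; omega⟩
        have hne : ((3 * j + k, off sg (3 * j + k)) : ℕ × ℕ) ≠ (3 * j, 8) := by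
          simp only [ne_eq, Prod.mk.injEq]; omega
        rw [wt_of i2 i1 hne, mult1k i2 (ty_one.2 (by simp only; omega)) _ hne, if_pos]
        · refine ⟨?_, rfl⟩
          simp only [Prod.mk.injEq, and_true]
          omega
        · rw [(ty_two (v := (3 * j, 8)) (by norm_num)).2 ⟨rfl, by simp only; omega⟩]
          norm_num
    rw [h1]
    linarith
  · linarith

open Classical in
/-- **The lower bound.** -/
theorem exists_part (hn : n % 3 = 0) (hΦ : Good S Φ) (al : ℕ → Bool) :
    ∃ π, IsPart n π ∧ n * (4 * (Φ (4 * S) / 2 + Φ S)) + (n / 3 : ℕ) * Φ 6 +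
      Φ 1 * ((range (n / 3)).filter (CS f sg al)).card ≤ tval (wtd f n sg S D Φ hn hΦ) π := by
  obtain ⟨R, hR⟩ := extend (n := n) (used f n sg al) (used_nodup al) (used_inV hn al)
  refine ⟨_, hR, ?_⟩
  have h0 : 0 ≤ tval (wtd f n sg S D Φ hn hΦ) R := by
    unfold tval
    refine List.sum_nonneg ?_
    intro x hx
    rw [List.mem_map] at hx
    obtain ⟨t, -, rfl⟩ := hx
    have := fun u v => wt_nonneg (f := f) (sg := sg) (D := D) hΦ u v hn
    exact add_nonneg (add_nonneg (this _ _) (this _ _)) (this _ _)
  have happ : ∀ A B, tval (wtd f n sg S D Φ hn hΦ) (A ++ B) =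
      tval (wtd f n sg S D Φ hn hΦ) A + tval (wtd f n sg S D Φ hn hΦ) B := by
    intro A B; unfold tval; simp
  have h1 : ∀ m ≤ n, tval (wtd f n sg S D Φ hn hΦ) ((List.range m).flatMap (tri f n al)) =
      m * (4 * (Φ (4 * S) / 2 + Φ S)) := by
    intro m
    induction m with
    | zero => simp [tval]
    | succ m ih =>
      intro hm
      rw [List.range_succ, List.flatMap_append, happ, ih (by omega), List.flatMap_singleton,
        tval_tri hn hΦ al (by omega)]
      push_cast
      ring
  have h2 : ∀ m ≤ n / 3, m * Φ 6 + Φ 1 * ((range m).filter (CS f sg al)).card ≤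
      tval (wtd f n sg S D Φ hn hΦ) ((List.range m).map fun j =>
        ((3 * j, 8), (3 * j + 1, 8), third f sg al j)) := by
    intro m
    induction m with
    | zero => simp [tval]
    | succ m ih =>
      intro hm
      rw [List.range_succ, List.map_append, happ]
      have h3 := tval_clause (f := f) (sg := sg) (D := D) hn hΦ al (j := m) (by omega)
      have h4 : tval (wtd f n sg S D Φ hn hΦ) (List.map (fun j =>
        ((3 * j, 8), (3 * j + 1, 8), third f sg al j)) [m]) =
        (wtd f n sg S D Φ hn hΦ).vl (3 * m, 8) (3 * m + 1, 8) (third f sg al m) := by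
        simp [tval]
      rw [h4]
      have h5 := ih (by omega)
      rw [range_add_one, filter_insert]
      split_ifs at h3 ⊢ with hc
      · rw [card_insert_of_notMem (by simp)]
        push_cast
        linarith
      · push_cast
        linarith
  rw [happ]
  unfold used
  rw [happ, h1 n le_rfl]
  have := h2 (n / 3) le_rfl
  linarith

end Pool.Agent.H243R3.TP
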