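import Pool.Agent.H243R3.TP.Inst

/-!
# The value of a partition is at most a constant plus the number of clauses satisfied by the
assignment that is read off from it
-/

namespace Pool.Agent.H243R3.TP

/-- The three vertices of a triple. -/
def tl {α : Type} (t : α × α × α) : List α := [t.1, t.2.1, t.2.2]

/-- The vertices. -/
def verts (n : ℕ) : List (ℕ × ℕ) := (List.range n).flatMap fun l => (List.range 9).map fun i => (l, i)

theorem mem_verts {n : ℕ} {v : ℕ × ℕ} : v ∈ verts n ↔ InV n v := by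
  obtain ⟨l, i⟩ := v
  simp [verts, InV]

theorem nodup_verts (n : ℕ) : (verts n).Nodup := by
  unfold verts
  rw [List.nodup_flatMap]
  refine ⟨fun l _ => ?_, ?_⟩
  · exact List.Nodup.map (fun a b h => (Prod.mk.inj h).2) List.nodup_range
  · refine List.Pairwise.imp (R := fun a b : ℕ => a ≠ b) ?_ List.nodup_range
    intro a b hab x hx hy
    simp only [List.mem_map, List.mem_range] at hx hy
    obtain ⟨i, -, rfl⟩ := hx
    obtain ⟨j, -, h⟩ := hy
    exact hab (Prod.mk.inj h).1.symm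

theorem perm3 {α : Type} {u v x a b c : α} (h : [u, v, x].Perm [a, b, c]) :
    (u = a ∧ v = b ∧ x = c) ∨ (u = a ∧ v = c ∧ x = b) ∨ (u = b ∧ v = a ∧ x = c) ∨
    (u = b ∧ v = c ∧ x = a) ∨ (u = c ∧ v = a ∧ x = b) ∨ (u = c ∧ v = b ∧ x = a) := by
  have two : ∀ {v x b c : α}, [v, x].Perm [b, c] → (v = b ∧ x = c) ∨ (v = c ∧ x = b) := by
    intro v x b c h
    have hv : v ∈ [b, c] := h.subset (by simp)
    rw [List.mem_cons, List.mem_singleton] at hv
    rcases hv with rfl | rfl
    · have := List.perm_singleton.1 (h.cons_inv)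
      simp at this
      exact Or.inl ⟨rfl, this⟩
    · have h2 : [v, x].Perm [v, b] := h.trans (List.Perm.swap _ _ _)
      have := List.perm_singleton.1 (h2.cons_inv)
      simp at this
      exact Or.inr ⟨rfl, this⟩
  have hu : u ∈ [a, b, c] := h.subset (by simp)
  simp only [List.mem_cons, List.not_mem_nil, or_false] at hu
  rcases hu with rfl | rfl | rfl
  · rcases two h.cons_inv with h | h
    · exact Or.inl ⟨rfl, h⟩
    · exact Or.inr (Or.inl ⟨rfl, h⟩)
  · have h2 : [u, v, x].Perm [u, a, c] := h.trans (List.Perm.swap _ _ _)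
    rcases two h2.cons_inv with h | h
    · exact Or.inr (Or.inr (Or.inl ⟨rfl, h⟩))
    · exact Or.inr (Or.inr (Or.inr (Or.inl ⟨rfl, h⟩)))
  · have h2 : [u, v, x].Perm [u, a, b] := h.trans (((List.Perm.swap _ _ _).cons _).trans
      (List.Perm.swap _ _ _))
    rcases two h2.cons_inv with h | h
    · exact Or.inr (Or.inr (Or.inr (Or.inr (Or.inl ⟨rfl, h⟩))))
    · exact Or.inr (Or.inr (Or.inr (Or.inr (Or.inr ⟨rfl, h⟩))))

namespace Wtd

variable {V : Type} (W : Wtd V)

theorem vl_perm {u v x a b c : V} (h : [u, v, x].Perm [a, b, c]) : W.vl u v x = W.vl a b c := by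
  have s := W.symm
  rcases perm3 h with ⟨rfl, rfl, rfl⟩ | ⟨rfl, rfl, rfl⟩ | ⟨rfl, rfl, rfl⟩ | ⟨rfl, rfl, rfl⟩ |
    ⟨rfl, rfl, rfl⟩ | ⟨rfl, rfl, rfl⟩ <;> unfold vl
  · rfl
  · rw [s v x]; ring
  · rw [s u v]; ring
  · rw [s x v, s x u]; ring
  · rw [s x u, s v u]; ring
  · rw [s x v, s v u, s x u]; ring

theorem ch_perm {u v x a b c : V} (h : [u, v, x].Perm [a, b, c]) :
    W.ch u + W.ch v + W.ch x = W.ch a + W.ch b + W.ch c := by
  rcases perm3 h with ⟨rfl, rfl, rfl⟩ | ⟨rfl, rfl, rfl⟩ | ⟨rfl, rfl, rfl⟩ | ⟨rfl, rfl, rfl⟩ |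
    ⟨rfl, rfl, rfl⟩ | ⟨rfl, rfl, rfl⟩ <;> ring

/-- The triple is a proper triangle. -/
def Proper (t : V × V × V) : Prop := ∃ u v x, [u, v, x].Perm (tl t) ∧ W.PropAt u v x

/-- The triple consists of the two vertices of a clause and an adjacent tip. -/
def Bonus (t : V × V × V) : Prop := ∃ u v x, [u, v, x].Perm (tl t) ∧ W.BonusAt u v x

/-- The triple contains a core and is not proper. -/
def Bad (t : V × V × V) : Prop := (∃ v ∈ tl t, W.ty v = 0) ∧ ¬ W.Proper t

open Classical in
theorem triple_le (t : V × V × V) (h : (tl t).Nodup) :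
    W.vl t.1 t.2.1 t.2.2 ≤ ((tl t).map W.ch).sum + (if W.Bonus t then W.a else 0) -
      (if W.Bad t then W.s / 2 else 0) := by
  obtain ⟨u, v, x⟩ := t
  have e : ((tl (u, v, x)).map W.ch).sum = W.ch u + W.ch v + W.ch x := by
    simp [tl]; ring
  rw [e]
  have ha := W.ha
  have hb : (0 : ℝ) ≤ if W.Bonus (u, v, x) then W.a else 0 := by split_ifs <;> linarith
  simp only [tl, List.nodup_cons, List.mem_cons, List.not_mem_nil, or_false, not_or] at h
  obtain ⟨⟨huv, hux⟩, hvx, -⟩ := h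
  simp only
  by_cases hc : ∃ y ∈ tl (u, v, x), W.ty y = 0
  · by_cases hp : W.Proper (u, v, x)
    · rw [if_neg (show ¬ W.Bad (u, v, x) from fun h => h.2 hp)]
      obtain ⟨a, b, c, h1, h2⟩ := hp
      rw [← W.vl_perm h1, ← W.ch_perm h1, W.ch0 h2.1, W.ch0 h2.2.1]
      have := W.ch_nonneg c
      unfold vl
      rw [h2.2.2.2.1, h2.2.2.2.2.1, h2.2.2.2.2.2]
      linarith
    · rw [if_pos (show W.Bad (u, v, x) from ⟨hc, hp⟩)]
      obtain ⟨y, hy, hy0⟩ := hc
      have hnp : ∀ a b c, [a, b, c].Perm [u, v, x] → ¬ W.PropAt a b c := fun a b c h1 h2 =>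
        hp ⟨a, b, c, h1, h2⟩
      simp only [tl, List.mem_cons, List.not_mem_nil, or_false] at hy
      rcases hy with rfl | rfl | rfl
      · have := W.core_le huv hvx hux hy0 (hnp _ _ _ (List.Perm.refl _))
          (hnp _ _ _ ((List.Perm.swap _ _ _).cons _))
        linarith
      · have hp1 : [y, u, x].Perm [u, y, x] := List.Perm.swap _ _ _
        have := W.core_le (Ne.symm huv) hux hvx hy0 (hnp _ _ _ hp1)
          (hnp _ _ _ (((List.Perm.swap _ _ _).cons _).trans hp1))
        rw [W.vl_perm hp1, W.ch_perm hp1] at this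
        linarith
      · have hp1 : [y, u, v].Perm [u, v, y] :=
          (List.Perm.swap _ _ _).trans ((List.Perm.swap _ _ _).cons _)
        have := W.core_le (Ne.symm hux) huv (Ne.symm hvx) hy0 (hnp _ _ _ hp1)
          (hnp _ _ _ (((List.Perm.swap _ _ _).cons _).trans hp1))
        rw [W.vl_perm hp1, W.ch_perm hp1] at this
        linarith
  · rw [if_neg (show ¬ W.Bad (u, v, x) from fun h => hc h.1)]
    push Not at hc
    have hu := hc u (by simp [tl])
    have hv := hc v (by simp [tl])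
    have hx := hc x (by simp [tl])
    by_cases hbo : W.Bonus (u, v, x)
    · rw [if_pos hbo]
      obtain ⟨a, b, c, h1, h2⟩ := hbo
      rw [← W.vl_perm h1, ← W.ch_perm h1, W.ch2 h2.1, W.ch3 h2.2.1]
      have := W.ch_nonneg c
      unfold vl
      have h3 : W.w b c = 0 := by
        rw [W.symm]; exact W.h13 _ _ h2.2.2.1 (by rw [h2.2.1])
      rw [h2.2.2.2.1, h2.2.2.2.2, h3]
      linarith
    · rw [if_neg hbo]
      have := W.nocore_le huv hvx hux (by omega) (by omega) (by omega)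
        (fun a b c h1 h2 => hbo ⟨a, b, c, h1, h2⟩)
      linarith

end Wtd

end Pool.Agent.H243R3.TP
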