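import Pool.Agent.H243R3.TP.Emb
import Pool.Agent.H243R3.TP.Defs
import Pool.Agent.H243R3.TP.Upper

/-!
# The points and their distances
-/

namespace Pool.Agent.H243R3.TP

open scoped ENNReal

/-- Booleans as rational numbers. -/
def br (b : Bool) : ℚ := if b then 1 else 0

theorem getD_br (x : List Bool) (i : ℕ) : (x.map br).getD i 0 = br (x.getD i false) := by
  have : (0 : ℚ) = br false := by simp [br]
  rw [this, List.getD_map]

theorem sum_ham : ∀ (s : ℕ) (x y : List Bool), x.length = s → y.length = s →
    ∑ i : Fin s, (if x.getD i false ^^ y.getD i false then (1 : ℝ) else 0) = ham x y := by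
  intro s
  induction s with
  | zero =>
    intro x y hx hy
    rw [List.length_eq_zero_iff] at hx
    simp [hx, ham]
  | succ s ih =>
    intro x y hx hy
    cases x with
    | nil => simp at hx
    | cons a x =>
      cases y with
      | nil => simp at hy
      | cons b y =>
        have := ih x y (by simpa using hx) (by simpa using hy)
        rw [Fin.sum_univ_succ]
        simp only [Fin.val_zero, List.getD_cons_zero, Fin.val_succ, List.getD_cons_succ, this]
        unfold ham
        rw [List.zip_cons_cons, List.countP_cons]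
        push_cast
        rw [add_comm]

theorem dist_fin {p : ℝ≥0∞} [Fact (1 ≤ p)] (hp : p ≠ ∞) {s : ℕ} {x y : List Bool}
    (hx : x.length = s) (hy : y.length = s) :
    lpDist p s (x.map br) (y.map br) = (ham x y : ℝ) ^ (1 / p.toReal) := by
  have h1 : (1 : ℝ≥0∞) ≤ p := Fact.out
  have hp0 : 0 < p.toReal := ENNReal.toReal_pos (by
    intro h
    rw [h] at h1
    simp at h1) hp
  unfold lpDist
  rw [PiLp.dist_eq_sum hp0, ← sum_ham s x y hx hy]
  congr 1
  refine Finset.sum_congr rfl fun i _ => ?_
  unfold toPt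
  simp only [getD_br, br]
  generalize x.getD i false = a
  generalize y.getD i false = b
  cases a <;> cases b <;> simp [hp0.ne', Real.dist_eq]

/-- The point of a vertex for finite `p`. -/
def ptF (f : ℕ → ℕ) (n : ℕ) (sg : ℕ → Bool) (S D L : ℕ) (v : ℕ × ℕ) : List ℚ :=
  (bp f n sg S D L v).map br

/-- The point of a vertex for `p = ∞`. -/
def ptI (f : ℕ → ℕ) (n : ℕ) (sg : ℕ → Bool) (S D : ℕ) (v : ℕ × ℕ) : List ℚ :=
  (verts n).map fun z => if z = v then 0 else (((kinds S D).length + mult f n sg S D v z : ℕ) : ℚ)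

variable {f : ℕ → ℕ} {n : ℕ} {sg : ℕ → Bool} {S D R : ℕ}

theorem length_ptI (v : ℕ × ℕ) : (ptI f n sg S D v).length = 9 * n := by
  unfold ptI verts
  simp [List.length_flatMap]
  ring

theorem getD_ptI {v : ℕ × ℕ} {i : ℕ} (hi : i < (verts n).length) :
    (ptI f n sg S D v).getD i 0 = if (verts n)[i] = v then 0 else
      (((kinds S D).length + mult f n sg S D v (verts n)[i] : ℕ) : ℚ) := by
  unfold ptI
  rw [List.getD_eq_getElem?_getD, List.getElem?_map, List.getElem?_eq_getElem hi]
  rfl

theorem mult_le {u v : ℕ × ℕ} : mult f n sg S D u v ≤ (kinds S D).length := List.countP_le_length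

theorem dist_inf (hn : n % 3 = 0) {u v : ℕ × ℕ} (hu : InV n u) (hv : InV n v) (huv : u ≠ v) :
    lpDist ∞ (9 * n) (ptI f n sg S D u) (ptI f n sg S D v) =
      ((kinds S D).length + mult f n sg S D u v : ℕ) := by
  have hlen : (verts n).length = 9 * n := by
    have := length_ptI (f := f) (n := n) (sg := sg) (S := S) (D := D) u
    unfold ptI at this
    rwa [List.length_map] at this
  unfold lpDist
  rw [PiLp.dist_eq_iSup]
  have key : ∀ i : Fin (9 * n), dist (toPt ∞ (9 * n) (ptI f n sg S D u) i)
      (toPt ∞ (9 * n) (ptI f n sg S D v) i) ≤ ((kinds S D).length + mult f n sg S D u v : ℕ) := by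
    intro i
    have hi : (i : ℕ) < (verts n).length := by rw [hlen]; exact i.2
    unfold toPt
    simp only [getD_ptI hi]
    have hz : (verts n)[(i : ℕ)] ∈ verts n := List.getElem_mem hi
    have m1 : mult f n sg S D u (verts n)[(i : ℕ)] ≤ (kinds S D).length := mult_le
    have m2 : mult f n sg S D v (verts n)[(i : ℕ)] ≤ (kinds S D).length := mult_le
    have hs : mult f n sg S D v u = mult f n sg S D u v := mult_comm hn hv hu
    rw [mem_verts] at hz
    generalize (verts n)[(i : ℕ)] = z at hz m1 m2
    have m1' : (mult f n sg S D u z : ℝ) ≤ (kinds S D).length := by exact_mod_cast m1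
    have m2' : (mult f n sg S D v z : ℝ) ≤ (kinds S D).length := by exact_mod_cast m2
    have m3 : (0 : ℝ) ≤ (mult f n sg S D u z : ℝ) := Nat.cast_nonneg _
    have m4 : (0 : ℝ) ≤ (mult f n sg S D v z : ℝ) := Nat.cast_nonneg _
    have m5 : (0 : ℝ) ≤ (mult f n sg S D u v : ℝ) := Nat.cast_nonneg _
    have m6 : (0 : ℝ) ≤ ((kinds S D).length : ℝ) := Nat.cast_nonneg _
    by_cases h1 : z = u
    · subst h1
      rw [if_pos rfl, if_neg huv, hs, Real.dist_eq]
      push_cast
      rw [abs_le]
      constructor <;> linarith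
    · by_cases h2 : z = v
      · subst h2
        rw [if_neg h1, if_pos rfl, Real.dist_eq]
        push_cast
        rw [abs_le]
        constructor <;> linarith
      · rw [if_neg h1, if_neg h2, Real.dist_eq]
        push_cast
        rw [abs_le]
        constructor <;> linarith
  have hv' : v ∈ verts n := mem_verts.2 hv
  obtain ⟨i, hi, hiv⟩ := List.getElem_of_mem hv'
  have hi' : i < 9 * n := hlen ▸ hi
  have : Nonempty (Fin (9 * n)) := ⟨⟨i, hi'⟩⟩
  apply le_antisymm
  · exact ciSup_le key
  · have hb : BddAbove (Set.range fun i : Fin (9 * n) => dist (toPt ∞ (9 * n) (ptI f n sg S D u) i)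
        (toPt ∞ (9 * n) (ptI f n sg S D v) i)) := ⟨_, by rintro _ ⟨i, rfl⟩; exact key i⟩
    refine le_trans ?_ (le_ciSup hb ⟨i, hi'⟩)
    unfold toPt
    simp only [getD_ptI hi, hiv]
    rw [if_neg huv.symm, if_pos trivial, Real.dist_eq]
    push_cast
    rw [sub_zero, abs_of_nonneg (by positivity)]

end Pool.Agent.H243R3.TP
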