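import Pool.Agent.H243R3.TP.Form
import Pool.Agent.H243R3.TP.Grow
import Pool.Agent.H243R3.TP.Lower
import Pool.Agent.H243R3.TP.Pts

/-!
# From partitions of points to assignments
-/

namespace Pool.Agent.H243R3.TP

open Finset
open scoped ENNReal

/-- The assignment read off from a partition of the points. -/
def dec (P : ℕ × ℕ → List ℚ) (φ : List Clause) (σ : List (List ℚ × List ℚ × List ℚ)) : List ℕ :=
  ((List.range (np φ)).filter fun l =>
    σ.any fun t => decide (P (l, 0) ∈ tl t) && decide (P (l, 1) ∈ tl t)).map (vr φ)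

/-- The assignment computed from a partition of the points. -/
def sol (P : ℕ × ℕ → List ℚ) (φ : List Clause) (σ : List (List ℚ × List ℚ × List ℚ)) : List ℕ :=
  best φ (best φ (dec P φ σ) []) (occ φ)

/-- The points realize the weights. -/
structure Emb (p : ℝ≥0∞) [Fact (1 ≤ p)] (φ : List Clause) (S D : ℕ) (P : ℕ × ℕ → List ℚ) (s : ℕ)
    (G : ℝ) (Φ : ℕ → ℝ) : Prop where
  good : Good S Φ
  nonneg : ∀ m, 0 ≤ Φ m
  hG : 0 < G
  dist : ∀ u v, InV (np φ) u → InV (np φ) v → u ≠ v →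
    lpDist p s (P u) (P v) = G + Φ (mult (vr φ) (np φ) (sn φ) S D u v)

/-- The triple of the points of a triple of vertices. -/
def P3 (P : ℕ × ℕ → List ℚ) (t : (ℕ × ℕ) × (ℕ × ℕ) × (ℕ × ℕ)) : List ℚ × List ℚ × List ℚ :=
  (P t.1, P t.2.1, P t.2.2)

theorem tl_P3 (P : ℕ × ℕ → List ℚ) (t : (ℕ × ℕ) × (ℕ × ℕ) × (ℕ × ℕ)) :
    tl (P3 P t) = (tl t).map P := rfl

variable {p : ℝ≥0∞} [Fact (1 ≤ p)] {φ : List Clause} {S D : ℕ} {P : ℕ × ℕ → List ℚ} {s : ℕ}
  {G : ℝ} {Φ : ℕ → ℝ}

theorem Emb.inj (E : Emb p φ S D P s G Φ) {u v : ℕ × ℕ} (hu : InV (np φ) u) (hv : InV (np φ) v)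
    (h : P u = P v) : u = v := by
  by_contra huv
  have h1 := E.dist u v hu hv huv
  rw [h] at h1
  unfold lpDist at h1
  rw [dist_self] at h1
  have := E.nonneg (mult (vr φ) (np φ) (sn φ) S D u v)
  have := E.hG
  linarith

/-- The weighted graph of the formula. -/
noncomputable def gph (φ : List Clause) (S D : ℕ) (hΦ : Good S Φ) : Wtd (ℕ × ℕ) :=
  wtd (vr φ) (np φ) (sn φ) S D Φ (np_mod φ) hΦ

theorem part_length {n : ℕ} {π : List ((ℕ × ℕ) × (ℕ × ℕ) × (ℕ × ℕ))} (hπ : IsPart n π) :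
    π.length = 3 * n := by
  have h1 := hπ.length_eq
  rw [length_flatMap_tl, length_verts] at h1
  omega

theorem Emb.val_eq (E : Emb p φ S D P s G Φ) {π : List ((ℕ × ℕ) × (ℕ × ℕ) × (ℕ × ℕ))}
    (hπ : IsPart (np φ) π) : ((π.map (P3 P)).map (perim p s)).sum =
      27 * φ.length * G + tval (gph φ S D E.good) π := by
  have h1 : ∀ t ∈ π, perim p s (P3 P t) = 3 * G + (gph φ S D E.good).vl t.1 t.2.1 t.2.2 := by
    intro t ht
    have hnd := part_tl hπ ht
    have hv := fun v (hv : v ∈ tl t) => part_inV hπ ht hv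
    obtain ⟨a, b, c⟩ := t
    simp only [tl, List.nodup_cons, List.mem_cons, List.not_mem_nil, or_false, not_or,
      not_false_eq_true, List.nodup_nil, and_true] at hnd hv
    have ia := hv a (Or.inl rfl)
    have ib := hv b (Or.inr (Or.inl rfl))
    have ic := hv c (Or.inr (Or.inr rfl))
    unfold perim P3
    simp only
    rw [E.dist a b ia ib hnd.1.1, E.dist b c ib ic hnd.2, E.dist a c ia ic hnd.1.2]
    unfold Wtd.vl gph wtd
    simp only
    rw [wt_of ia ib hnd.1.1, wt_of ib ic hnd.2, wt_of ia ic hnd.1.2]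
    ring
  rw [List.map_map]
  have h2 : (π.map (perim p s ∘ P3 P)) = π.map fun t => 3 * G +
      (gph φ S D E.good).vl t.1 t.2.1 t.2.2 := List.map_congr_left h1
  rw [h2, List.sum_map_add]
  have h3 : (π.map fun _ => 3 * G).sum = π.length * (3 * G) := by simp
  rw [h3, part_length hπ]
  unfold tval np
  push_cast
  ring

theorem Emb.pull (E : Emb p φ S D P s G Φ) {σ : List (List ℚ × List ℚ × List ℚ)}
    (hσ : (σ.flatMap tl).Perm ((verts (np φ)).map P)) :
    ∃ π, IsPart (np φ) π ∧ σ = π.map (P3 P) := by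
  classical
  set inv : List ℚ → ℕ × ℕ := fun x => if h : ∃ v, InV (np φ) v ∧ P v = x then h.choose else (0, 0)
    with hinv
  have h1 : ∀ v, InV (np φ) v → inv (P v) = v := by
    intro v hv
    have h : ∃ v', InV (np φ) v' ∧ P v' = P v := ⟨v, hv, rfl⟩
    simp only [hinv, dif_pos h]
    exact E.inj h.choose_spec.1 hv h.choose_spec.2
  refine ⟨σ.map fun t => (inv t.1, inv t.2.1, inv t.2.2), ?_, ?_⟩
  · unfold IsPart
    have e : (σ.map fun t => (inv t.1, inv t.2.1, inv t.2.2)).flatMap tl =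
        (σ.flatMap tl).map inv := by
      rw [List.flatMap_map, List.map_flatMap]
      rfl
    rw [e]
    refine (hσ.map inv).trans ?_
    rw [List.map_map]
    have : (verts (np φ)).map (inv ∘ P) = (verts (np φ)).map id :=
      List.map_congr_left fun v hv => h1 v (mem_verts.1 hv)
    rw [this, List.map_id]
  · rw [List.map_map]
    have : σ.map (P3 P ∘ fun t => (inv t.1, inv t.2.1, inv t.2.2)) = σ.map id := by
      refine List.map_congr_left fun t ht => ?_
      have h2 : ∀ x ∈ tl t, P (inv x) = x := by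
        intro x hx
        have := hσ.subset (List.mem_flatMap.2 ⟨t, ht, hx⟩)
        rw [List.mem_map] at this
        obtain ⟨v, hv, rfl⟩ := this
        rw [h1 v (mem_verts.1 hv)]
      obtain ⟨a, b, c⟩ := t
      simp only [tl, List.mem_cons, List.not_mem_nil, or_false] at h2
      simp only [Function.comp_apply, P3, id]
      rw [h2 a (Or.inl rfl), h2 b (Or.inr (Or.inl rfl)), h2 c (Or.inr (Or.inr rfl))]
    rw [this, List.map_id]

theorem Emb.push {π : List ((ℕ × ℕ) × (ℕ × ℕ) × (ℕ × ℕ))}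
    (hπ : IsPart (np φ) π) : ((π.map (P3 P)).flatMap tl).Perm ((verts (np φ)).map P) := by
  have e : (π.map (P3 P)).flatMap tl = (π.flatMap tl).map P := by
    rw [List.flatMap_map, List.map_flatMap]
    rfl
  rw [e]
  exact hπ.map P

theorem Emb.mem_dec (E : Emb p φ S D P s G Φ) {π : List ((ℕ × ℕ) × (ℕ × ℕ) × (ℕ × ℕ))}
    (hπ : IsPart (np φ) π) (x : ℕ) :
    x ∈ dec P φ (π.map (P3 P)) ↔ Vl (vr φ) (np φ) π x := by
  unfold dec Vl
  rw [List.mem_map]
  have key : ∀ l < np φ, ((π.map (P3 P)).any (fun t => decide (P (l, 0) ∈ tl t) &&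
      decide (P (l, 1) ∈ tl t)) = true ↔ St π l) := by
    intro l hl
    have key2 : ∀ t ∈ π, ∀ i < 9, (P (l, i) ∈ tl (P3 P t) ↔ (l, i) ∈ tl t) := by
      intro t ht i hi
      rw [tl_P3, List.mem_map]
      constructor
      · rintro ⟨v, hv, h⟩
        have := E.inj (part_inV hπ ht hv) ⟨hl, hi⟩ h
        rwa [← this]
      · intro h
        exact ⟨_, h, rfl⟩
    unfold St
    rw [List.any_eq_true]
    constructor
    · rintro ⟨t', ht', h⟩
      rw [List.mem_map] at ht'
      obtain ⟨t, ht, rfl⟩ := ht'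
      rw [Bool.and_eq_true, decide_eq_true_eq, decide_eq_true_eq, key2 t ht 0 (by norm_num),
        key2 t ht 1 (by norm_num)] at h
      exact ⟨t, ht, h⟩
    · rintro ⟨t, ht, h⟩
      refine ⟨P3 P t, List.mem_map.2 ⟨t, ht, rfl⟩, ?_⟩
      rw [Bool.and_eq_true, decide_eq_true_eq, decide_eq_true_eq, key2 t ht 0 (by norm_num),
        key2 t ht 1 (by norm_num)]
      exact h
  constructor
  · rintro ⟨l, hl, rfl⟩
    rw [List.mem_filter, List.mem_range] at hl
    exact ⟨l, hl.1, rfl, (key l hl.1).1 hl.2⟩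
  · rintro ⟨l, hl, rfl, h⟩
    exact ⟨l, List.mem_filter.2 ⟨List.mem_range.2 hl, (key l hl).2 h⟩, rfl⟩

theorem dec_feas (σ : List (List ℚ × List ℚ × List ℚ)) :
    (∀ x ∈ dec P φ σ, x ∈ occ φ) ∧ (dec P φ σ).length ≤ (occ φ).length := by
  unfold dec
  rw [occ_eq]
  refine ⟨?_, ?_⟩
  · intro x hx
    rw [List.mem_map] at hx ⊢
    obtain ⟨l, hl, rfl⟩ := hx
    exact ⟨l, (List.mem_filter.1 hl).1, rfl⟩
  · rw [List.length_map, List.length_map]
    exact List.length_filter_le _ _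

theorem sol_feas (σ : List (List ℚ × List ℚ × List ℚ)) :
    (∀ x ∈ sol P φ σ, x ∈ occ φ) ∧ (sol P φ σ).length ≤ (occ φ).length := by
  unfold sol
  rcases best_cases φ (best φ (dec P φ σ) []) (occ φ) with h | h
  · rw [h]
    rcases best_cases φ (dec P φ σ) [] with h | h
    · rw [h]
      exact dec_feas σ
    · rw [h]
      simp
  · rw [h]
    simp

theorem Emb.ineq (E : Emb p φ S D P s G Φ) {B : ℕ} (hB : ∀ x, (occ φ).count x ≤ B)
    (hS : 6 * B * Φ 1 ≤ Φ S) {σ : List (List ℚ × List ℚ × List ℚ)}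
    (hσ : (σ.flatMap tl).Perm ((verts (np φ)).map P)) {r : ℝ} (hr : 1 < r)
    (happ : ∀ σ' : List (List ℚ × List ℚ × List ℚ),
      (σ'.flatMap tl).Perm ((verts (np φ)).map P) →
      (σ'.map (perim p s)).sum ≤ r * (σ.map (perim p s)).sum) {α : ℝ}
    (hα : 1 + 2 * (27 * G + 3 * (4 * (Φ (4 * S) / 2 + Φ S)) + Φ 6) / Φ 1 ≤ α) (A : List ℕ) :
    (numSat φ A : ℝ) ≤ (1 + α * (r - 1)) * numSat φ (sol P φ σ) := by
  classical
  obtain ⟨π, hπ, rfl⟩ := E.pull hσ
  have hone := E.good.one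
  -- the upper bound
  have h1 := tval_le (D := D) (sg := sn φ) (np_mod φ) E.good hπ
    (fun x => (card_occ φ x).le.trans (hB x)) hS
  have h2 : numSat φ (dec P φ (π.map (P3 P))) =
      ((range (np φ / 3)).filter (CSat (vr φ) (np φ) (sn φ) π)).card := by
    apply numSat_eq
    intro j hj
    unfold CSat
    refine exists_congr fun k => and_congr_right fun hk => ?_
    rw [E.mem_dec hπ]
  rw [← h2] at h1
  have h3 := E.val_eq hπ
  -- the lower bound
  obtain ⟨π', hπ', h4⟩ := exists_part (f := vr φ) (sg := sn φ) (D := D) (np_mod φ) E.good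
    (fun x => decide (x ∈ A))
  have h5 : numSat φ A = ((range (np φ / 3)).filter
      (CS (vr φ) (sn φ) fun x => decide (x ∈ A))).card := by
    apply numSat_eq
    intro j hj
    unfold CS LT
    refine exists_congr fun k => and_congr_right fun hk => ?_
    rw [Bool.eq_iff_iff, decide_eq_true_eq]
  rw [← h5] at h4
  have h6 := E.val_eq hπ'
  have h7 := happ (π'.map (P3 P)) (Emb.push hπ')
  rw [h3, h6] at h7
  -- the constant assignments
  have h8 := numSat_best φ (best φ (dec P φ (π.map (P3 P))) []) (occ φ)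
  have h9 := numSat_best φ (dec P φ (π.map (P3 P))) []
  have h10 := half φ
  have e1 : (numSat φ (dec P φ (π.map (P3 P))) : ℝ) ≤ numSat φ (sol P φ (π.map (P3 P))) := by
    exact_mod_cast h9.1.trans h8.1
  have e2 : (φ.length : ℝ) ≤ 2 * numSat φ (sol P φ (π.map (P3 P))) := by
    have : φ.length ≤ 2 * numSat φ (sol P φ (π.map (P3 P))) := by
      unfold sol
      omega
    exact_mod_cast this
  set K := 27 * G + 3 * (4 * (Φ (4 * S) / 2 + Φ S)) + Φ 6 with hK
  have hKpos : 0 ≤ K := by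
    have := E.nonneg (4 * S)
    have := E.nonneg S
    have := E.nonneg 6
    have := E.hG
    rw [hK]
    linarith
  have hn : ((np φ : ℕ) : ℝ) = 3 * φ.length := by unfold np; push_cast; ring
  rw [np_div, hn] at h1 h4
  set m : ℝ := (φ.length : ℝ)
  set x : ℝ := (numSat φ (sol P φ (π.map (P3 P))) : ℝ)
  set y : ℝ := (numSat φ A : ℝ)
  set z : ℝ := (numSat φ (dec P φ (π.map (P3 P))) : ℝ)
  have h1' : 27 * m * G + tval (gph φ S D E.good) π ≤ K * m + Φ 1 * z := by
    have : tval (gph φ S D E.good) π ≤ 3 * m * (4 * (Φ (4 * S) / 2 + Φ S)) + m * Φ 6 +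
      Φ 1 * z := h1
    rw [hK]
    linarith
  have h4' : K * m + Φ 1 * y ≤ 27 * m * G + tval (gph φ S D E.good) π' := by
    have : 3 * m * (4 * (Φ (4 * S) / 2 + Φ S)) + m * Φ 6 +
      Φ 1 * y ≤ tval (gph φ S D E.good) π' := h4
    rw [hK]
    linarith
  have h11 : K * m + Φ 1 * y ≤ r * (K * m + Φ 1 * x) := by
    have a1 : r * (27 * m * G + tval (gph φ S D E.good) π) ≤ r * (K * m + Φ 1 * z) :=
      mul_le_mul_of_nonneg_left h1' (by linarith)
    have a2 : Φ 1 * z ≤ Φ 1 * x := mul_le_mul_of_nonneg_left e1 hone.le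
    have a3 : r * (K * m + Φ 1 * z) ≤ r * (K * m + Φ 1 * x) :=
      mul_le_mul_of_nonneg_left (by linarith) (by linarith)
    linarith
  have hx : 0 ≤ x := Nat.cast_nonneg _
  have h12 : Φ 1 * y ≤ (r - 1) * (K * (2 * x)) + r * (Φ 1 * x) := by
    have : (r - 1) * (K * m) ≤ (r - 1) * (K * (2 * x)) :=
      mul_le_mul_of_nonneg_left (mul_le_mul_of_nonneg_left e2 hKpos) (by linarith)
    linarith
  have h13 : y ≤ (1 + (1 + 2 * K / Φ 1) * (r - 1)) * x := by
    have e : (1 + (1 + 2 * K / Φ 1) * (r - 1)) * x =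
        ((r - 1) * (K * (2 * x)) + r * (Φ 1 * x)) / Φ 1 := by
      field_simp
      ring
    rw [e, le_div_iff₀ hone]
    linarith
  refine h13.trans (mul_le_mul_of_nonneg_right ?_ hx)
  have := mul_le_mul_of_nonneg_right hα (by linarith : 0 ≤ r - 1)
  linarith

end Pool.Agent.H243R3.TP
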