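import Pool.Agent.H243R3.TP.Wt

/-!
# The weighted graph of a formula
-/

namespace Pool.Agent.H243R3.TP

variable {f : ℕ → ℕ} {n : ℕ} {sg : ℕ → Bool} {S D : ℕ} {Φ : ℕ → ℝ}

open Classical in
/-- The weight of a pair: the value of `Φ` at its multiplicity. -/
noncomputable def wt (f : ℕ → ℕ) (n : ℕ) (sg : ℕ → Bool) (S D : ℕ) (Φ : ℕ → ℝ) (u v : ℕ × ℕ) : ℝ :=
  if InV n u ∧ InV n v ∧ u ≠ v then Φ (mult f n sg S D u v) else 0

theorem wt_of {u v : ℕ × ℕ} (hu : InV n u) (hv : InV n v) (huv : u ≠ v) :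
    wt f n sg S D Φ u v = Φ (mult f n sg S D u v) := if_pos ⟨hu, hv, huv⟩

/-- The conditions on the numbers `Φ m`. -/
structure Good (S : ℕ) (Φ : ℕ → ℝ) : Prop where
  zero : Φ 0 = 0
  one : 0 < Φ 1
  pos : 0 < Φ S
  le : 3 * Φ S ≤ Φ (4 * S)
  ge : Φ (4 * S) ≤ 4 * Φ S
  six : 4 * Φ 1 ≤ Φ 6

theorem wt_cases {u v : ℕ × ℕ} : wt f n sg S D Φ u v = 0 ∨ (InV n u ∧ InV n v ∧ u ≠ v) := by
  unfold wt
  split_ifs with h
  · exact Or.inr h
  · exact Or.inl rfl

theorem wt_symm (hn : n % 3 = 0) (u v : ℕ × ℕ) :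
    wt f n sg S D Φ u v = wt f n sg S D Φ v u := by
  unfold wt
  by_cases h : InV n u ∧ InV n v ∧ u ≠ v
  · rw [if_pos h, if_pos ⟨h.2.1, h.1, h.2.2.symm⟩, mult_comm hn h.1 h.2.1]
  · rw [if_neg h, if_neg (fun h' => h ⟨h'.2.1, h'.1, h'.2.2.symm⟩)]

theorem adj00 (hΦ : Good S Φ) {u v : ℕ × ℕ} (h1 : ty u = 0) (h2 : ty v = 0) :
    wt f n sg S D Φ u v = 0 ∨ (wt f n sg S D Φ u v = Φ (4 * S) ∧ InV n u ∧ InV n v ∧ u ≠ v ∧
      (mu f n sg 0 u = v ∨ mu f n sg 1 u = v)) := by
  rcases wt_cases (f := f) (n := n) (sg := sg) (S := S) (D := D) (Φ := Φ) (u := u) (v := v)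
    with h | ⟨hu, hv, huv⟩
  · exact Or.inl h
  · rw [wt_of hu hv huv, mult00 hu huv h1 h2]
    split_ifs with h
    · right
      rw [mul_one]
      exact ⟨rfl, hu, hv, huv, h⟩
    · left
      rw [mul_zero]
      exact hΦ.zero

theorem adj01 (hΦ : Good S Φ) {u v : ℕ × ℕ} (h1 : ty u = 0) (h2 : ty v = 1) :
    wt f n sg S D Φ u v = 0 ∨ (wt f n sg S D Φ u v = Φ S ∧ InV n u ∧ InV n v ∧
      (mu f n sg 2 u = v ∨ mu f n sg 3 u = v)) := by
  rcases wt_cases (f := f) (n := n) (sg := sg) (S := S) (D := D) (Φ := Φ) (u := u) (v := v)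
    with h | ⟨hu, hv, huv⟩
  · exact Or.inl h
  · rw [wt_of hu hv huv, mult01 hu h1 h2]
    split_ifs with h
    · right
      rw [mul_one]
      exact ⟨rfl, hu, hv, h⟩
    · left
      rw [mul_zero]
      exact hΦ.zero

theorem adj12 (hΦ : Good S Φ) {u v : ℕ × ℕ} (h1 : ty u = 1) (h2 : 1 ≤ ty v) :
    wt f n sg S D Φ u v = 0 ∨ (wt f n sg S D Φ u v = Φ 1 ∧ InV n u ∧ InV n v ∧
      v = (u.1 - u.1 % 3, 8) ∧ u.2 = off sg u.1) := by
  rcases wt_cases (f := f) (n := n) (sg := sg) (S := S) (D := D) (Φ := Φ) (u := u) (v := v)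
    with h | ⟨hu, hv, huv⟩
  · exact Or.inl h
  · rw [wt_of hu hv huv, mult1k hu h1 h2 huv]
    split_ifs with h
    · right
      exact ⟨rfl, hu, hv, h⟩
    · left
      exact hΦ.zero

theorem adjkk (hΦ : Good S Φ) {u v : ℕ × ℕ} (h1 : 2 ≤ ty u) (h2 : 2 ≤ ty v) :
    wt f n sg S D Φ u v = 0 ∨ (wt f n sg S D Φ u v = Φ 6 ∧ InV n u ∧ InV n v ∧
      mu f n sg 4 u = v) := by
  rcases wt_cases (f := f) (n := n) (sg := sg) (S := S) (D := D) (Φ := Φ) (u := u) (v := v)
    with h | ⟨hu, hv, huv⟩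
  · exact Or.inl h
  · rw [wt_of hu hv huv, multkk hu hv h1 h2 huv]
    split_ifs with h
    · right
      exact ⟨rfl, hu, hv, h⟩
    · left
      exact hΦ.zero

/-- The weighted graph. -/
noncomputable def wtd (f : ℕ → ℕ) (n : ℕ) (sg : ℕ → Bool) (S D : ℕ) (Φ : ℕ → ℝ) (hn : n % 3 = 0)
    (hΦ : Good S Φ) : Wtd (ℕ × ℕ) where
  ty := ty
  w := wt f n sg S D Φ
  a := Φ 1
  s := Φ S
  h := Φ (4 * S)
  q := Φ 6
  ha := hΦ.one
  hs := hΦ.pos
  h3s := hΦ.le
  h4s := hΦ.ge
  h4a := hΦ.six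
  symm := wt_symm hn
  ty_le := ty_le
  h00 u v _ h1 h2 := by
    rcases adj00 (f := f) (n := n) (sg := sg) (D := D) hΦ h1 h2 with h | h
    · exact Or.inl h
    · exact Or.inr h.1
  h000 u v x huv hvx hux hu hv hx := by
    by_contra hc
    push Not at hc
    obtain ⟨c1, c2, c3⟩ := hc
    obtain ⟨-, iu, iv, -, d1⟩ := (adj00 hΦ hu hv).resolve_left c1
    obtain ⟨-, -, ix, -, d2⟩ := (adj00 hΦ hv hx).resolve_left c2
    obtain ⟨-, -, -, -, d3⟩ := (adj00 hΦ hu hx).resolve_left c3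
    have e : ∀ k, mu f n sg k u = v → mu f n sg k v = x → False := by
      intro k h1 h2
      rw [← h1, mu_mu hn k iu] at h2
      exact hux h2
    have e' : ∀ k, mu f n sg k u = v → mu f n sg k u = x → False := by
      intro k h1 h2
      exact hvx (h1.symm.trans h2)
    have e'' : ∀ k, mu f n sg k v = x → mu f n sg k u = x → False := by
      intro k h1 h2
      have := congrArg (mu f n sg k) (h1.trans h2.symm)
      rw [mu_mu hn k iv, mu_mu hn k iu] at this
      exact huv this.symm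
    rcases d1 with d1 | d1 <;> rcases d2 with d2 | d2 <;> rcases d3 with d3 | d3 <;>
      first
      | exact e _ d1 d2
      | exact e' _ d1 d3
      | exact e'' _ d2 d3
  h01 u v h1 h2 := by
    rcases adj01 (f := f) (n := n) (sg := sg) (D := D) hΦ h1 h2 with h | h
    · exact Or.inl h
    · exact Or.inr h.1
  h001 u v x huv hu hv hx h1 h2 := by
    have hs := hΦ.pos
    obtain ⟨-, iu, ix, d1⟩ := (adj01 (f := f) (n := n) (sg := sg) (D := D) hΦ hu hx).resolve_left
      (by rw [h1]; exact hs.ne')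
    obtain ⟨-, iv, -, d2⟩ := (adj01 (f := f) (n := n) (sg := sg) (D := D) hΦ hv hx).resolve_left
      (by rw [h2]; exact hs.ne')
    rw [wt_of iu iv huv, mult00 iu huv hu hv, if_pos, mul_one]
    have e : ∀ k, mu f n sg k u = x → mu f n sg k v = x → False := by
      intro k h1 h2
      have := congrArg (mu f n sg k) (h1.trans h2.symm)
      rw [mu_mu hn k iv, mu_mu hn k iu] at this
      exact huv this
    rw [ty_one] at hx
    rcases d1 with d1 | d1 <;> rcases d2 with d2 | d2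
    · exact (e _ d1 d2).elim
    · rw [mu_eq_comm hn _ iu ix] at d1
      rw [mu_eq_comm hn _ iv ix] at d2
      obtain ⟨l, i⟩ := x
      simp only at hx
      obtain ⟨hx1, hx2⟩ := hx
      have hp := prv_nxt (f := f) ix.1
      simp only at hp
      rw [← d1, ← d2]
      interval_cases i <;> simp [mu]
    · rw [mu_eq_comm hn _ iu ix] at d1
      rw [mu_eq_comm hn _ iv ix] at d2
      obtain ⟨l, i⟩ := x
      simp only at hx
      obtain ⟨hx1, hx2⟩ := hx
      have hp := prv_nxt (f := f) ix.1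
      simp only at hp
      rw [← d1, ← d2]
      interval_cases i <;> simp [mu, hp]
    · exact (e _ d1 d2).elim
  h0k u v h1 h2 := by
    rcases wt_cases (f := f) (n := n) (sg := sg) (S := S) (D := D) (Φ := Φ) (u := u) (v := v)
      with h | ⟨hu, hv, huv⟩
    · exact h
    · rw [wt_of hu hv huv, mult0k hu h1 h2, hΦ.zero]
  h11 u v huv h1 h2 := by
    rcases adj12 (f := f) (n := n) (sg := sg) (D := D) hΦ h1 (by omega : 1 ≤ ty v) with h | h
    · exact h
    · obtain ⟨-, -, -, h3, -⟩ := h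
      rw [h3, ty_one] at h2
      simp at h2
  h12 u v h1 h2 := by
    rcases adj12 (f := f) (n := n) (sg := sg) (D := D) hΦ h1 (by omega : 1 ≤ ty v) with h | h
    · exact Or.inl h
    · exact Or.inr h.1
  h13 u v h1 h2 := by
    rcases adj12 (f := f) (n := n) (sg := sg) (D := D) hΦ h1 (by omega : 1 ≤ ty v) with h | h
    · exact h
    · obtain ⟨-, -, hv, h3, -⟩ := h
      exfalso
      have : ty v = 2 := by
        rw [ty_two hv.2, h3]
        simp only [true_and]
        omega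
      omega
  h22 u v huv h1 h2 := by
    rcases adjkk (f := f) (n := n) (sg := sg) (D := D) hΦ (by omega : 2 ≤ ty u)
      (by omega : 2 ≤ ty v) with h | h
    · exact h
    · obtain ⟨-, hu, hv, h3⟩ := h
      exfalso
      have := mu4_ty2 (f := f) (n := n) (sg := sg) hu.2 h1
      rw [h3] at this
      omega
  h33 u v huv h1 h2 := by
    rcases adjkk (f := f) (n := n) (sg := sg) (D := D) hΦ (by omega : 2 ≤ ty u)
      (by omega : 2 ≤ ty v) with h | h
    · exact h
    · obtain ⟨-, hu, hv, h3⟩ := h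
      exfalso
      have := mu4_ty3 (f := f) (n := n) (sg := sg) hu.2 h1
      rw [h3] at this
      omega
  h4k u v huv h1 := by
    by_cases h2 : 2 ≤ ty v
    · rcases adjkk (f := f) (n := n) (sg := sg) (D := D) hΦ (by omega : 2 ≤ ty u) h2 with h | h
      · exact h
      · obtain ⟨-, hu, hv, h3⟩ := h
        rw [mu4_fix hu.2 (by omega) (by omega)] at h3
        exact absurd h3 huv
    · rw [wt_symm hn]
      by_cases h3 : ty v = 0
      · rcases wt_cases (f := f) (n := n) (sg := sg) (S := S) (D := D) (Φ := Φ) (u := v) (v := u)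
          with h | ⟨hu, hv, huv⟩
        · exact h
        · rw [wt_of hu hv huv, mult0k hu h3 (by omega), hΦ.zero]
      · rcases adj12 (f := f) (n := n) (sg := sg) (D := D) hΦ (by omega : ty v = 1)
          (by omega : 1 ≤ ty u) with h | h
        · exact h
        · obtain ⟨-, -, hv, h3, -⟩ := h
          exfalso
          have : ty u = 2 := by
            rw [ty_two hv.2, h3]
            simp only [true_and]
            omega
          omega
  h23 u v h1 h2 := by
    rcases adjkk (f := f) (n := n) (sg := sg) (D := D) hΦ (by omega : 2 ≤ ty u)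
      (by omega : 2 ≤ ty v) with h | h
    · exact Or.inl h
    · exact Or.inr h.1
  h233 u v x hvx h1 h2 h3 := by
    rcases adjkk (f := f) (n := n) (sg := sg) (D := D) hΦ (by omega : 2 ≤ ty u)
      (by omega : 2 ≤ ty v) with h | h
    · exact Or.inl h
    · rcases adjkk (f := f) (n := n) (sg := sg) (D := D) hΦ (by omega : 2 ≤ ty u)
        (by omega : 2 ≤ ty x) with h' | h'
      · exact Or.inr h'
      · exact absurd (h.2.2.2.symm.trans h'.2.2.2) hvx
  h322 u v x hvx h1 h2 h3 := by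
    rcases adjkk (f := f) (n := n) (sg := sg) (D := D) hΦ (by omega : 2 ≤ ty u)
      (by omega : 2 ≤ ty v) with h | h
    · exact Or.inl h
    · rcases adjkk (f := f) (n := n) (sg := sg) (D := D) hΦ (by omega : 2 ≤ ty u)
        (by omega : 2 ≤ ty x) with h' | h'
      · exact Or.inr h'
      · exact absurd (h.2.2.2.symm.trans h'.2.2.2) hvx

end Pool.Agent.H243R3.TP
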