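import Pool.Agent.H243R3.TP.PolyB

/-!
# The AP-reduction
-/

namespace Pool.Agent.NPC.TP

open Pool.Agent.H243R3.TP
open scoped ENNReal

theorem reduce {p : ℝ≥0∞} [Fact (1 ≤ p)] (B : ℕ) (P : List Clause → ℕ × ℕ → List ℚ)
    (d : List Clause → ℕ) (hP : Poly fun a : List Clause × ℕ × ℕ => P a.1 a.2) (hd : Poly d)
    (θ : ℝ) (h0 : 0 < θ) (h1 : θ ≤ 1) (U : List Clause → ℝ) (hU : ∀ φ, 0 < U φ)
    (hlen : ∀ φ v, (P φ v).length = d φ) (hd1 : ∀ φ, φ ≠ [] → 1 ≤ d φ)
    (hdist : ∀ φ, ∀ u v, InV (np φ) u → InV (np φ) v → u ≠ v → lpDist p (d φ) (P φ u) (P φ v) =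
      U φ * (((kinds (12 * B + 1) (2 * (12 * B + 1))).length : ℝ) +
        (mult (vr φ) (np φ) (sn φ) (12 * B + 1) (2 * (12 * B + 1)) u v : ℕ)) ^ θ) :
    APReduces (max3Sat B) (max3DM p) := by
  set S := 12 * B + 1 with hS
  set T : ℝ := ((kinds S (2 * S)).length : ℝ) with hT
  have hTS : (12 * S : ℝ) ≤ T := by
    rw [hT, length_kinds]
    push_cast
    linarith
  have hS1 : 1 ≤ S := by omega
  have hT0 : 0 < T := by
    have : (1 : ℝ) ≤ S := by exact_mod_cast hS1
    linarith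
  have hTθ : 0 < T ^ θ := Real.rpow_pos_of_pos hT0 _
  have E : ∀ φ, Emb p φ S (2 * S) (P φ) (d φ) (U φ * T ^ θ) (gr (U φ) θ T) := by
    intro φ
    refine ⟨good_gr (hU φ) h0 h1 hS1 hTS, ?_, mul_pos (hU φ) hTθ, ?_⟩
    · intro m
      refine le_trans ?_ (le_gr (hU φ) h0 h1 hT0 m)
      have := hU φ
      positivity
    · intro u v hu hv huv
      rw [hdist φ u v hu hv huv]
      unfold gr
      ring
  obtain ⟨α, hα⟩ := exists_rat_gt (1 + 2 * (27 * T ^ θ + 3 * (4 * (gr 1 θ T (4 * S) / 2 +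
    gr 1 θ T S)) + gr 1 θ T 6) / gr 1 θ T 1)
  have hg1 : Good S (gr 1 θ T) := good_gr one_pos h0 h1 hS1 hTS
  have hK : 0 ≤ 27 * T ^ θ + 3 * (4 * (gr 1 θ T (4 * S) / 2 + gr 1 θ T S)) + gr 1 θ T 6 := by
    have a1 := hg1.pos
    have a2 := hg1.le
    have a3 := hg1.six
    have a4 := hg1.one
    linarith
  have hα1 : (1 : ℝ) ≤ α := by
    refine le_trans ?_ hα.le
    have : 0 ≤ 2 * (27 * T ^ θ + 3 * (4 * (gr 1 θ T (4 * S) / 2 +
      gr 1 θ T S)) + gr 1 θ T 6) / gr 1 θ T 1 := div_nonneg (by linarith) hg1.one.le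
    linarith
  refine ⟨α, fun _ φ => (d φ, (verts (np φ)).map (P φ)), fun _ φ σ => sol (P φ) φ σ,
    by exact_mod_cast hα1, fun _ _ => polyFn_of (poly_inst hP hd),
    fun _ _ => polyFn_of (poly_sol hP), ?_⟩
  intro r hr φ hφ
  obtain ⟨hne, hB⟩ := hφ
  refine ⟨⟨hd1 φ hne, ?_, ?_, ?_⟩, ?_, ?_⟩
  · refine List.Nodup.map_on ?_ (nodup_verts _)
    intro u hu v hv h
    exact (E φ).inj (mem_verts.1 hu) (mem_verts.1 hv) h
  · intro x hx
    rw [List.mem_map] at hx
    obtain ⟨v, -, rfl⟩ := hx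
    exact hlen φ v
  · refine ⟨3 * np φ, ?_, ?_⟩
    · have : φ.length ≠ 0 := by
        rw [Ne, List.length_eq_zero_iff]
        exact hne
      unfold np
      omega
    · simp only [List.length_map, length_verts]
      ring
  · rintro -
    obtain ⟨π, hπ, -⟩ := exists_part (f := vr φ) (sg := sn φ) (D := 2 * S) (np_mod φ) (E φ).good
      (fun _ => true)
    exact ⟨π.map (P3 (P φ)), Emb.push hπ⟩
  · intro σ hσ
    refine ⟨sol_feas σ, ?_⟩
    intro happ
    obtain ⟨-, happ⟩ := happ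
    refine ⟨sol_feas σ, ?_⟩
    intro A _
    rw [if_pos (show (max3Sat B).maximize = true from rfl)]
    have hr' : (1 : ℝ) < (r : ℝ) := by exact_mod_cast hr
    have e : ((1 + α * (r - 1) : ℚ) : ℝ) = 1 + (α : ℝ) * ((r : ℝ) - 1) := by push_cast; ring
    rw [e]
    refine (E φ).ineq hB (gr_bd (hU φ) h0 h1 hS1 hTS (by omega)) hσ hr' ?_ ?_ A
    · intro σ' hσ'
      have := happ σ' hσ'
      rw [if_pos (show (max3DM p).maximize = true from rfl)] at this
      exact this
    · refine le_trans (le_of_eq ?_) hα.le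
      have hU' := (hU φ).ne'
      have hg := hg1.one.ne'
      rw [gr_scale (U := U φ) (4 * S), gr_scale (U := U φ) S, gr_scale (U := U φ) 6,
        gr_scale (U := U φ) 1]
      field_simp

/-- **MAX-3SAT-B is AP-reducible to Max-3DM under `L_p`.** -/
theorem max3Sat_reduces (p : ℝ≥0∞) [Fact (1 ≤ p)] (B : ℕ) :
    APReduces (max3Sat B) (max3DM p) := by
  have hp1 : (1 : ℝ≥0∞) ≤ p := Fact.out
  by_cases hp : p = ∞
  · subst hp
    refine reduce B (PI B) (fun φ => 9 * np φ) (poly_PI B (Poly.fst Poly.id) (Poly.snd Poly.id))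
      (Poly.mul (Poly.const 9) (upoly_np Poly.id).toPoly) 1 one_pos le_rfl (fun _ => 1)
      (fun _ => one_pos) (fun φ v => length_ptI v) ?_ ?_
    · intro φ hφ
      have : φ.length ≠ 0 := by
        rw [Ne, List.length_eq_zero_iff]
        exact hφ
      unfold np
      omega
    · intro φ u v hu hv huv
      unfold PI
      rw [dist_inf (np_mod φ) hu hv huv, Real.rpow_one, one_mul]
      push_cast
      ring
  · have hp0 : 0 < p.toReal := ENNReal.toReal_pos (by
      intro h
      rw [h] at hp1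
      simp at hp1) hp
    have hp1' : 1 ≤ p.toReal := by
      rw [← ENNReal.toReal_one]
      exact (ENNReal.toReal_le_toReal (by simp) hp).2 hp1
    refine reduce B (PF B) (fun φ => (kinds (12 * B + 1) (2 * (12 * B + 1))).length * (2 * pw φ))
      (poly_PF B (Poly.fst Poly.id) (Poly.snd Poly.id))
      (Poly.mul (Poly.const _) (Poly.mul (Poly.const 2) (poly_pw Poly.id))) (1 / p.toReal)
      (by positivity) (by rw [div_le_one hp0]; exact hp1')
      (fun φ => ((pw φ : ℕ) : ℝ) ^ (1 / p.toReal)) ?_ ?_ ?_ ?_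
    · intro φ
      have : 0 < pw φ := by unfold pw; positivity
      exact Real.rpow_pos_of_pos (by exact_mod_cast this) _
    · intro φ v
      unfold PF ptF pw
      rw [List.length_map, length_bp, pow_succ]
      ring
    · intro φ _
      have h1 : 0 < pw φ := by unfold pw; positivity
      have h2 : 0 < (kinds (12 * B + 1) (2 * (12 * B + 1))).length := by
        rw [length_kinds]; omega
      have : 0 < (kinds (12 * B + 1) (2 * (12 * B + 1))).length * (2 * pw φ) := by positivity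
      exact this
    · intro φ u v hu hv huv
      have hR : 9 * np φ ≤ 2 ^ (9 * np φ).size := (Nat.lt_size_self _).le
      have e1 : ∀ w, (bp (vr φ) (np φ) (sn φ) (12 * B + 1) (2 * (12 * B + 1)) (pw φ) w).length =
          (kinds (12 * B + 1) (2 * (12 * B + 1))).length * (2 * pw φ) := by
        intro w
        unfold pw
        rw [length_bp, pow_succ]
        ring
      unfold PF ptF
      rw [dist_fin hp (e1 u) (e1 v)]
      unfold pw
      rw [ham_bp (np_mod φ) hR hu hv huv]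
      push_cast
      rw [Real.mul_rpow (by positivity) (by positivity)]

end Pool.Agent.NPC.TP
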