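import Pool.Agent.H243R3.TP.Cyc

/-!
# The matchings of the graph of a formula

The vertices are the pairs `(l, i)` with `l < n`, `i < 9`, where `n` is the number of literal
positions. The vertices with `i < 4` are cores, those with `4 ≤ i < 8` are tips, and `(l, 8)` is the
clause vertex `c`, the clause vertex `c'` or a dummy for `l % 3 = 0, 1, 2`.
-/

namespace Pool.Agent.H243R3.TP

/-- The index of the tip at position `l` that is joined to the clause. -/
def off (sg : ℕ → Bool) (l : ℕ) : ℕ := if sg l = true then 5 else 4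

/-- The matchings: the cycles of cores (`0`, `1`), the edges between cores and tips (`2`, `3`), the
edges between the two vertices of a clause (`4`), the edges between a clause and its three literals
(`5`, `6`, `7`), and the empty matching (all other numbers). -/
def mu (f : ℕ → ℕ) (n : ℕ) (sg : ℕ → Bool) (k : ℕ) (v : ℕ × ℕ) : ℕ × ℕ :=
  if k = 0 then
    (if v.2 = 0 then (v.1, 1) else if v.2 = 1 then (v.1, 0) else if v.2 = 2 then (v.1, 3)
      else if v.2 = 3 then (v.1, 2) else v)
  else if k = 1 then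
    (if v.2 = 0 then (prv f n v.1, 3) else if v.2 = 1 then (v.1, 2) else if v.2 = 2 then (v.1, 1)
      else if v.2 = 3 then (nxt f n v.1, 0) else v)
  else if k = 2 then
    (if v.2 < 4 then (v.1, v.2 + 4) else if v.2 < 8 then (v.1, v.2 - 4) else v)
  else if k = 3 then
    (if v.2 = 0 then (prv f n v.1, 7) else if v.2 < 4 then (v.1, v.2 + 3)
      else if v.2 < 7 then (v.1, v.2 - 3) else if v.2 = 7 then (nxt f n v.1, 0) else v)
  else if k = 4 then
    (if v.2 = 8 ∧ v.1 % 3 = 0 then (v.1 + 1, 8) else if v.2 = 8 ∧ v.1 % 3 = 1 then (v.1 - 1, 8)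
      else v)
  else if k < 8 then
    (if v.2 = 8 ∧ v.1 % 3 = 0 then (v.1 + (k - 5), off sg (v.1 + (k - 5)))
      else if v.1 % 3 = k - 5 ∧ v.2 = off sg v.1 then (v.1 - (k - 5), 8) else v)
  else v

/-- The type of a vertex. -/
def ty (v : ℕ × ℕ) : ℕ :=
  if v.2 < 4 then 0 else if v.2 < 8 then 1 else if v.1 % 3 = 0 then 2
  else if v.1 % 3 = 1 then 3 else 4

/-- The vertices. -/
def InV (n : ℕ) (v : ℕ × ℕ) : Prop := v.1 < n ∧ v.2 < 9

instance (n : ℕ) (v : ℕ × ℕ) : Decidable (InV n v) := by unfold InV; infer_instance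

variable {f : ℕ → ℕ} {n : ℕ} {sg : ℕ → Bool}

theorem off_cases (sg : ℕ → Bool) (l : ℕ) : off sg l = 4 ∨ off sg l = 5 := by
  unfold off; split_ifs <;> simp

theorem ty_le (v : ℕ × ℕ) : ty v ≤ 4 := by unfold ty; split_ifs <;> omega

theorem ty_zero {v : ℕ × ℕ} : ty v = 0 ↔ v.2 < 4 := by
  unfold ty
  split_ifs <;> constructor <;> intro h <;> first | omega | (exfalso; simp at h)

theorem ty_one {v : ℕ × ℕ} : ty v = 1 ↔ 4 ≤ v.2 ∧ v.2 < 8 := by
  unfold ty
  split_ifs <;> constructor <;> intro h <;> first | omega | (exfalso; simp at h)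

theorem ty_two {v : ℕ × ℕ} (hv : v.2 < 9) : ty v = 2 ↔ v.2 = 8 ∧ v.1 % 3 = 0 := by
  unfold ty
  split_ifs <;> constructor <;> intro h <;> first | omega | (exfalso; simp at h)

theorem ty_three {v : ℕ × ℕ} (hv : v.2 < 9) : ty v = 3 ↔ v.2 = 8 ∧ v.1 % 3 = 1 := by
  unfold ty
  split_ifs <;> constructor <;> intro h <;> first | omega | (exfalso; simp at h)

theorem ty_four {v : ℕ × ℕ} (hv : v.2 < 9) : ty v = 4 ↔ v.2 = 8 ∧ v.1 % 3 = 2 := by
  unfold ty
  split_ifs <;> constructor <;> intro h <;> first | omega | (exfalso; simp at h)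

theorem mu_inV (hn : n % 3 = 0) (k : ℕ) {v : ℕ × ℕ} (hv : InV n v) : InV n (mu f n sg k v) := by
  obtain ⟨l, i⟩ := v
  obtain ⟨hl, hi⟩ := hv
  simp only at hl hi
  have h1 := nxt_lt (f := f) hl
  have h2 := prv_lt (f := f) hl
  have h3 := off_cases sg (l + (k - 5))
  unfold mu InV
  simp only
  split_ifs <;> simp only <;> omega

theorem mu_mu (hn : n % 3 = 0) (k : ℕ) {v : ℕ × ℕ} (hv : InV n v) :
    mu f n sg k (mu f n sg k v) = v := by
  obtain ⟨l, i⟩ := v
  obtain ⟨hl, hi⟩ := hv
  simp only at hl hi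
  have h1 := nxt_prv (f := f) hl
  have h2 := prv_nxt (f := f) hl
  rcases Nat.lt_or_ge k 8 with hk | hk
  · interval_cases k
    · interval_cases i <;> simp [mu]
    · interval_cases i <;> simp [mu, h1, h2]
    · interval_cases i <;> simp [mu]
    · interval_cases i <;> simp [mu, h1, h2]
    · unfold mu
      simp only
      by_cases c1 : i = 8 ∧ l % 3 = 0
      · have : (l + 1) % 3 = 1 := by omega
        simp [c1.1, c1.2, this]
      · by_cases c2 : i = 8 ∧ l % 3 = 1
        · have : (l - 1) % 3 = 0 := by omega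
          simp [c2.1, c2.2, this]
          omega
        · simp [c1, c2]
    · unfold mu
      by_cases c1 : i = 8 ∧ l % 3 = 0
      · have := off_cases sg l
        simp [c1.1, c1.2] <;> omega
      · by_cases c2 : l % 3 = 0 ∧ i = off sg l
        · have h8 : ¬ off sg l = 8 := by have := off_cases sg l; omega
          simp [c2.1, c2.2, h8]
        · simp [c1, c2]
    · unfold mu
      by_cases c1 : i = 8 ∧ l % 3 = 0
      · have := off_cases sg (l + 1)
        have h : (l + 1) % 3 = 1 := by omega
        simp [c1.1, c1.2, h] <;> omega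
      · by_cases c2 : l % 3 = 1 ∧ i = off sg l
        · have := off_cases sg l
          have h : (l - 1) % 3 = 0 := by omega
          have h' : l - 1 + 1 = l := by omega
          simp [c2.1, c2.2, h, h'] <;> omega
        · simp [c1, c2]
    · unfold mu
      by_cases c1 : i = 8 ∧ l % 3 = 0
      · have := off_cases sg (l + 2)
        have h : (l + 2) % 3 = 2 := by omega
        simp [c1.1, c1.2, h] <;> omega
      · by_cases c2 : l % 3 = 2 ∧ i = off sg l
        · have := off_cases sg l
          have h : (l - 2) % 3 = 0 := by omega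
          have h' : l - 2 + 2 = l := by omega
          simp [c2.1, c2.2, h, h'] <;> omega
        · simp [c1, c2]
  · unfold mu
    simp [show k ≠ 0 by omega, show k ≠ 1 by omega, show k ≠ 2 by omega, show k ≠ 3 by omega,
      show k ≠ 4 by omega, show ¬ k < 8 by omega]

theorem mu_eq_comm (hn : n % 3 = 0) (k : ℕ) {u v : ℕ × ℕ} (hu : InV n u) (hv : InV n v) :
    mu f n sg k u = v ↔ mu f n sg k v = u := by
  constructor
  · rintro rfl; exact mu_mu hn k hu
  · rintro rfl; exact mu_mu hn k hv

end Pool.Agent.H243R3.TP
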