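import Pool.Agent.H243R3.TP.PolyA
import Pool.Agent.H243R3.TP.Glue

/-!
# Polynomial time: the functions of the reduction
-/

namespace Pool.Agent.NPC.TP

open Pool.Agent.H243R3.TP

variable {α : Type} [TEnc α]

theorem poly_lits : Poly (fun φ : List Clause => φ.flatMap lits) := by
  have h : Poly (fun c : Clause => lits c) := by
    unfold lits
    exact Poly.cons (Poly.fst Poly.id) (Poly.cons (Poly.fst (Poly.snd Poly.id))
      (Poly.cons (Poly.snd (Poly.snd Poly.id)) (Poly.const [])))
  exact Poly.flatMap (F := fun _ c => lits c) Poly.id (h.comp (Poly.snd Poly.id))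

theorem poly_getD0 : Poly (fun a : List Clause × ℕ => (a.1.flatMap lits).getD a.2 (0, false)) :=
  Poly.getD (poly_lits.comp (Poly.fst Poly.id)) (Poly.snd Poly.id) (Poly.const (0, false))

theorem poly_vr {F : α → List Clause} {l : α → ℕ} (hF : Poly F) (hl : Poly l) :
    Poly (fun a => vr (F a) (l a)) := by
  unfold vr
  exact Poly.fst (Poly.getD (poly_lits.comp hF) hl (Poly.const (0, false)))

theorem poly_sn {F : α → List Clause} {l : α → ℕ} (hF : Poly F) (hl : Poly l) :
    Poly (fun a => sn (F a) (l a)) := by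
  unfold sn
  exact Poly.snd (Poly.getD (poly_lits.comp hF) hl (Poly.const (0, false)))

theorem upoly_np {F : α → List Clause} (hF : Poly F) : UPoly (fun a => np (F a)) :=
  UPoly.mul (UPoly.const 3) (UPoly.length hF)

theorem poly_nxt {F : α → List Clause} {l : α → ℕ} (hF : Poly F) (hl : Poly l) :
    Poly (fun a => nxt (vr (F a)) (np (F a)) (l a)) := by
  unfold nxt
  refine poly_optGetD (Poly.head? (Poly.append ?_ ?_)) hl
  · refine Poly.filter (p := fun a m => decide (l a < m) && decide (vr (F a) m = vr (F a) (l a)))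
      (upoly_np hF).range ?_
    exact Poly.and (Poly.decide_lt (hl.comp (Poly.fst Poly.id)) (Poly.snd Poly.id))
      (Poly.decide_eq (poly_vr (hF.comp (Poly.fst Poly.id)) (Poly.snd Poly.id))
        (poly_vr (hF.comp (Poly.fst Poly.id)) (hl.comp (Poly.fst Poly.id))))
  · refine Poly.filter (p := fun a m => decide (vr (F a) m = vr (F a) (l a)))
      (upoly_np hF).range ?_
    exact Poly.decide_eq (poly_vr (hF.comp (Poly.fst Poly.id)) (Poly.snd Poly.id))
        (poly_vr (hF.comp (Poly.fst Poly.id)) (hl.comp (Poly.fst Poly.id)))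

theorem poly_prv {F : α → List Clause} {l : α → ℕ} (hF : Poly F) (hl : Poly l) :
    Poly (fun a => prv (vr (F a)) (np (F a)) (l a)) := by
  unfold prv
  refine poly_optGetD (Poly.head? ?_) hl
  refine Poly.filter (p := fun a m => decide (nxt (vr (F a)) (np (F a)) m = l a))
      (upoly_np hF).range ?_
  exact Poly.decide_eq (poly_nxt (hF.comp (Poly.fst Poly.id)) (Poly.snd Poly.id))
    (hl.comp (Poly.fst Poly.id))

theorem poly_off {F : α → List Clause} {l : α → ℕ} (hF : Poly F) (hl : Poly l) :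
    Poly (fun a => off (sn (F a)) (l a)) := by
  unfold off
  exact Poly.ite (Poly.decide_bool (poly_sn hF hl)) (Poly.const 5) (Poly.const 4)

theorem poly_mu {F : α → List Clause} {k : α → ℕ} {v : α → ℕ × ℕ} (hF : Poly F) (hk : Poly k)
    (hv : Poly v) : Poly (fun a => mu (vr (F a)) (np (F a)) (sn (F a)) (k a) (v a)) := by
  have h1 := Poly.fst hv
  have h2 := Poly.snd hv
  have hp := poly_prv hF h1
  have hn := poly_nxt hF h1
  have c := fun m => Poly.const (α := α) (m : ℕ)
  have ek := fun m => Poly.decide_eq hk (c m)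
  have ei := fun m => Poly.decide_eq h2 (c m)
  have li := fun m => Poly.decide_lt h2 (c m)
  have hm := Poly.mod h1 (c 3)
  unfold mu
  refine Poly.ite (ek 0) ?_ (Poly.ite (ek 1) ?_ (Poly.ite (ek 2) ?_ (Poly.ite (ek 3) ?_
    (Poly.ite (ek 4) ?_ (Poly.ite (Poly.decide_lt hk (c 8)) ?_ hv)))))
  · exact Poly.ite (ei 0) (Poly.pair h1 (c 1)) (Poly.ite (ei 1) (Poly.pair h1 (c 0))
      (Poly.ite (ei 2) (Poly.pair h1 (c 3)) (Poly.ite (ei 3) (Poly.pair h1 (c 2)) hv)))
  · exact Poly.ite (ei 0) (Poly.pair hp (c 3)) (Poly.ite (ei 1) (Poly.pair h1 (c 2))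
      (Poly.ite (ei 2) (Poly.pair h1 (c 1)) (Poly.ite (ei 3) (Poly.pair hn (c 0)) hv)))
  · exact Poly.ite (li 4) (Poly.pair h1 (Poly.add h2 (c 4))) (Poly.ite (li 8)
      (Poly.pair h1 (Poly.sub h2 (c 4))) hv)
  · exact Poly.ite (ei 0) (Poly.pair hp (c 7)) (Poly.ite (li 4) (Poly.pair h1 (Poly.add h2 (c 3)))
      (Poly.ite (li 7) (Poly.pair h1 (Poly.sub h2 (c 3))) (Poly.ite (ei 7)
        (Poly.pair hn (c 0)) hv)))
  · exact Poly.ite (Poly.decide_and (ei 8) (Poly.decide_eq hm (c 0)))
      (Poly.pair (Poly.add h1 (c 1)) (c 8))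
      (Poly.ite (Poly.decide_and (ei 8) (Poly.decide_eq hm (c 1)))
        (Poly.pair (Poly.sub h1 (c 1)) (c 8)) hv)
  · have hs := Poly.sub hk (c 5)
    exact Poly.ite (Poly.decide_and (ei 8) (Poly.decide_eq hm (c 0)))
      (Poly.pair (Poly.add h1 hs) (poly_off hF (Poly.add h1 hs)))
      (Poly.ite (Poly.decide_and (Poly.decide_eq hm hs) (Poly.decide_eq h2 (poly_off hF h1)))
        (Poly.pair (Poly.sub h1 hs) (c 8)) hv)

theorem poly_code {v : α → ℕ × ℕ} (hv : Poly v) : Poly (fun a => code (v a)) := by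
  unfold code
  exact Poly.add (Poly.mul (Poly.const 9) (Poly.fst hv)) (Poly.snd hv)

/-- The power of two that is used. -/
def pw (φ : List Clause) : ℕ := 2 ^ (9 * np φ).size

theorem poly_pw {F : α → List Clause} (hF : Poly F) : Poly (fun a => pw (F a)) := by
  unfold pw
  exact poly_pow (Poly.mul (Poly.const 9) (upoly_np hF).toPoly)

theorem upoly_pw {F : α → List Clause} (hF : Poly F) : UPoly (fun a => pw (F a)) := by
  refine UPoly.of_le (poly_pw hF) (n := fun a => 2 * (9 * np (F a)) + 1) ?_ ?_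
  · exact UPoly.add (UPoly.mul (UPoly.const 2) (UPoly.mul (UPoly.const 9) (upoly_np hF)))
      (UPoly.const 1)
  · intro a
    exact pow_size_le _

theorem poly_seg {F : α → List Clause} {k : α → ℕ} {v : α → ℕ × ℕ} (hF : Poly F) (hk : Poly k)
    (hv : Poly v) :
    Poly (fun a => seg (vr (F a)) (np (F a)) (sn (F a)) (pw (F a)) (k a) (v a)) := by
  have hmu := poly_code (poly_mu hF hk hv)
  have hc := poly_code hv
  have hp := poly_pw hF
  have hb := Poly.natBits (Poly.add (Poly.mod (Poly.min hc hmu) hp) hp)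
  have hr := poly_row (U := fun a => 2 * pw (F a)) hb (UPoly.mul (UPoly.const 2) (upoly_pw hF)) (by
    intro a
    have : pw (F a) = 2 ^ (9 * np (F a)).size := rfl
    rw [this, length_bits (Nat.mod_lt _ (by positivity)), pow_succ]
    omega)
  unfold seg
  exact Poly.map (F := fun a c => decide (code (mu (vr (F a)) (np (F a)) (sn (F a)) (k a) (v a)) <
    code (v a)) ^^ c) hr (Poly.xor (Poly.decide_lt (hmu.comp (Poly.fst Poly.id))
      (hc.comp (Poly.fst Poly.id))) (Poly.snd Poly.id))

/-- The points used for finite `p`. -/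
def PF (B : ℕ) (φ : List Clause) (v : ℕ × ℕ) : List ℚ :=
  ptF (vr φ) (np φ) (sn φ) (12 * B + 1) (2 * (12 * B + 1)) (pw φ) v

/-- The points used for `p = ∞`. -/
def PI (B : ℕ) (φ : List Clause) (v : ℕ × ℕ) : List ℚ :=
  ptI (vr φ) (np φ) (sn φ) (12 * B + 1) (2 * (12 * B + 1)) v

theorem poly_PF (B : ℕ) {F : α → List Clause} {v : α → ℕ × ℕ} (hF : Poly F)
    (hv : Poly v) : Poly (fun a => PF B (F a) (v a)) := by
  unfold PF ptF bp
  refine Poly.map (F := fun _ b => br b) (Poly.flatMap (F := fun a k => seg (vr (F a)) (np (F a))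
    (sn (F a)) (pw (F a)) k (v a)) (Poly.const _)
    (poly_seg (hF.comp (Poly.fst Poly.id)) (Poly.snd Poly.id) (hv.comp (Poly.fst Poly.id)))) ?_
  unfold br
  exact Poly.ite (Poly.decide_bool (Poly.snd Poly.id)) (Poly.const 1) (Poly.const 0)

theorem poly_mult (S D : ℕ) {F : α → List Clause} {u v : α → ℕ × ℕ} (hF : Poly F)
    (hu : Poly u) (hv : Poly v) :
    Poly (fun a => mult (vr (F a)) (np (F a)) (sn (F a)) S D (u a) (v a)) := by
  unfold mult
  exact poly_countP (p := fun a k => decide (mu (vr (F a)) (np (F a)) (sn (F a)) k (u a) = v a))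
    (Poly.const _) (Poly.decide_eq (poly_mu (hF.comp (Poly.fst Poly.id)) (Poly.snd Poly.id)
      (hu.comp (Poly.fst Poly.id))) (hv.comp (Poly.fst Poly.id)))

theorem poly_verts {F : α → List Clause} (hF : Poly F) : Poly (fun a => verts (np (F a))) := by
  unfold verts
  refine Poly.flatMap (F := fun _ l => (List.range 9).map fun i => (l, i)) (upoly_np hF).range ?_
  exact Poly.map (F := fun (x : α × ℕ) i => (x.2, i)) (Poly.const _)
    (Poly.pair (Poly.snd (Poly.fst Poly.id)) (Poly.snd Poly.id))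

theorem poly_PI (B : ℕ) {F : α → List Clause} {v : α → ℕ × ℕ} (hF : Poly F)
    (hv : Poly v) : Poly (fun a => PI B (F a) (v a)) := by
  unfold PI ptI
  refine Poly.map (F := fun a z => if z = v a then (0 : ℚ) else
    (((kinds (12 * B + 1) (2 * (12 * B + 1))).length + mult (vr (F a)) (np (F a)) (sn (F a))
      (12 * B + 1) (2 * (12 * B + 1)) (v a) z : ℕ) : ℚ)) (poly_verts hF) ?_
  exact Poly.ite (Poly.decide_eq (Poly.snd Poly.id) (hv.comp (Poly.fst Poly.id))) (Poly.const 0)
    (poly_natCast (Poly.add (Poly.const _) (poly_mult _ _ (hF.comp (Poly.fst Poly.id))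
      (hv.comp (Poly.fst Poly.id)) (Poly.snd Poly.id))))

theorem poly_clauseSat {A : α → List ℕ} {c : α → Clause} (hA : Poly A) (hc : Poly c) :
    Poly (fun a => decide (ClauseSat (A a) (c a))) := by
  have h : Poly (fun a => (lits (c a)).any fun l => !(decide (l.1 ∈ A a) ^^ l.2)) := by
    refine Poly.any (p := fun a (l : Lit) => !(decide (l.1 ∈ A a) ^^ l.2)) ?_ ?_
    · unfold lits
      exact Poly.cons (Poly.fst hc) (Poly.cons (Poly.fst (Poly.snd hc))
        (Poly.cons (Poly.snd (Poly.snd hc)) (Poly.const [])))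
    · exact Poly.not (Poly.xor (Poly.decide_mem (Poly.fst (Poly.snd Poly.id))
        (hA.comp (Poly.fst Poly.id))) (Poly.snd (Poly.snd Poly.id)))
  refine h.congr fun a => ?_
  rw [Bool.eq_iff_iff, List.any_eq_true, decide_eq_true_eq]
  unfold ClauseSat LitTrue
  refine exists_congr fun l => and_congr_right fun _ => ?_
  by_cases h : l.1 ∈ A a <;> cases l.2 <;> simp [h]

theorem poly_numSat {F : α → List Clause} {A : α → List ℕ} (hF : Poly F) (hA : Poly A) :
    Poly (fun a => numSat (F a) (A a)) := by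
  unfold numSat
  exact poly_countP (p := fun a c => decide (ClauseSat (A a) c)) hF
    (poly_clauseSat (hA.comp (Poly.fst Poly.id)) (Poly.snd Poly.id))

theorem poly_best {F : α → List Clause} {A A' : α → List ℕ} (hF : Poly F) (hA : Poly A)
    (hA' : Poly A') : Poly (fun a => best (F a) (A a) (A' a)) := by
  unfold best
  exact Poly.ite (Poly.decide_lt (poly_numSat hF hA) (poly_numSat hF hA')) hA' hA

theorem poly_occ {F : α → List Clause} (hF : Poly F) : Poly (fun a => occ (F a)) :=
  (Poly.map (F := fun a l => vr (F a) l) (upoly_np hF).range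
    (poly_vr (hF.comp (Poly.fst Poly.id)) (Poly.snd Poly.id))).congr fun a => by rw [occ_eq]

theorem poly_dec {P : List Clause → ℕ × ℕ → List ℚ}
    (hP : Poly fun a : List Clause × ℕ × ℕ => P a.1 a.2) {F : α → List Clause}
    {σ : α → List (List ℚ × List ℚ × List ℚ)} (hF : Poly F) (hσ : Poly σ) :
    Poly (fun a => dec (P (F a)) (F a) (σ a)) := by
  have htl : Poly (fun t : List ℚ × List ℚ × List ℚ => tl t) := by
    unfold tl
    exact Poly.cons (Poly.fst Poly.id) (Poly.cons (Poly.fst (Poly.snd Poly.id))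
      (Poly.cons (Poly.snd (Poly.snd Poly.id)) (Poly.const [])))
  have key : ∀ i : ℕ, Poly (fun x : (α × ℕ) × (List ℚ × List ℚ × List ℚ) =>
      decide (P (F x.1.1) (x.1.2, i) ∈ tl x.2)) := by
    intro i
    exact (Poly.decide_mem (hP.comp (Poly.pair (hF.comp (Poly.fst (Poly.fst Poly.id)))
      (Poly.pair (Poly.snd (Poly.fst Poly.id)) (Poly.const i))))
      (htl.comp (Poly.snd Poly.id))).congr fun _ => decide_eq_decide.2 Iff.rfl
  unfold dec
  refine Poly.map (F := fun a l => vr (F a) l) (Poly.filter (p := fun a l => (σ a).any fun t =>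
    decide (P (F a) (l, 0) ∈ tl t) && decide (P (F a) (l, 1) ∈ tl t)) (upoly_np hF).range ?_)
    (poly_vr (hF.comp (Poly.fst Poly.id)) (Poly.snd Poly.id))
  exact Poly.any (p := fun (x : α × ℕ) t => decide (P (F x.1) (x.2, 0) ∈ tl t) &&
    decide (P (F x.1) (x.2, 1) ∈ tl t)) (hσ.comp (Poly.fst Poly.id))
    (Poly.and (key 0) (key 1))

theorem poly_sol {P : List Clause → ℕ × ℕ → List ℚ}
    (hP : Poly fun a : List Clause × ℕ × ℕ => P a.1 a.2) :
    Poly (fun a : List Clause × List (List ℚ × List ℚ × List ℚ) => sol (P a.1) a.1 a.2) := by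
  unfold sol
  exact poly_best (Poly.fst Poly.id) (poly_best (Poly.fst Poly.id)
    (poly_dec hP (Poly.fst Poly.id) (Poly.snd Poly.id)) (Poly.const []))
    (poly_occ (Poly.fst Poly.id))

theorem poly_inst {P : List Clause → ℕ × ℕ → List ℚ}
    (hP : Poly fun a : List Clause × ℕ × ℕ => P a.1 a.2) {d : List Clause → ℕ} (hd : Poly d) :
    Poly (fun φ : List Clause => (d φ, (verts (np φ)).map (P φ))) :=
  Poly.pair hd (Poly.map (F := fun φ v => P φ v) (poly_verts Poly.id) hP)

end Pool.Agent.NPC.TP
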