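import Mathlib

/-!
# The value of a triple is at most the sum of the charges of its vertices
-/

namespace Pool.Agent.H243R3.TP

/-- A weighted graph whose vertices have types: 0 (core), 1 (tip), 2, 3 (clause vertices) and
4 (dummy). -/
structure Wtd (V : Type) where
  ty : V → ℕ
  w : V → V → ℝ
  a : ℝ
  s : ℝ
  h : ℝ
  q : ℝ
  ha : 0 < a
  hs : 0 < s
  h3s : 3 * s ≤ h
  h4s : h ≤ 4 * s
  h4a : 4 * a ≤ q
  symm : ∀ u v, w u v = w v u
  ty_le : ∀ u, ty u ≤ 4
  h00 : ∀ u v, u ≠ v → ty u = 0 → ty v = 0 → w u v = 0 ∨ w u v = h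
  h000 : ∀ u v x, u ≠ v → v ≠ x → u ≠ x → ty u = 0 → ty v = 0 → ty x = 0 →
    w u v = 0 ∨ w v x = 0 ∨ w u x = 0
  h01 : ∀ u v, ty u = 0 → ty v = 1 → w u v = 0 ∨ w u v = s
  h001 : ∀ u v x, u ≠ v → ty u = 0 → ty v = 0 → ty x = 1 → w u x = s → w v x = s → w u v = h
  h0k : ∀ u v, ty u = 0 → 2 ≤ ty v → w u v = 0
  h11 : ∀ u v, u ≠ v → ty u = 1 → ty v = 1 → w u v = 0
  h12 : ∀ u v, ty u = 1 → ty v = 2 → w u v = 0 ∨ w u v = a
  h13 : ∀ u v, ty u = 1 → 3 ≤ ty v → w u v = 0
  h22 : ∀ u v, u ≠ v → ty u = 2 → ty v = 2 → w u v = 0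
  h33 : ∀ u v, u ≠ v → ty u = 3 → ty v = 3 → w u v = 0
  h4k : ∀ u v, u ≠ v → ty u = 4 → w u v = 0
  h23 : ∀ u v, ty u = 2 → ty v = 3 → w u v = 0 ∨ w u v = q
  h233 : ∀ u v x, v ≠ x → ty u = 2 → ty v = 3 → ty x = 3 → w u v = 0 ∨ w u x = 0
  h322 : ∀ u v x, v ≠ x → ty u = 3 → ty v = 2 → ty x = 2 → w u v = 0 ∨ w u x = 0

namespace Wtd

variable {V : Type} (W : Wtd V)

/-- The charge of a vertex. -/
noncomputable def ch (v : V) : ℝ :=
  if W.ty v = 0 then W.h / 2 + W.s else if W.ty v = 2 ∨ W.ty v = 3 then W.q / 2 else 0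

/-- The value of a triple. -/
noncomputable def vl (u v x : V) : ℝ := W.w u v + W.w v x + W.w u x

/-- two adjacent cores and a tip adjacent to both -/
def PropAt (u v t : V) : Prop :=
  W.ty u = 0 ∧ W.ty v = 0 ∧ W.ty t = 1 ∧ W.w u v = W.h ∧ W.w u t = W.s ∧ W.w v t = W.s

/-- the two vertices of a clause and an adjacent tip -/
def BonusAt (c c' t : V) : Prop :=
  W.ty c = 2 ∧ W.ty c' = 3 ∧ W.ty t = 1 ∧ W.w c c' = W.q ∧ W.w c t = W.a

theorem vl_swap (u v x : V) : W.vl u v x = W.vl u x v := by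
  unfold vl; rw [W.symm x v]; ring

theorem vl_rot (u v x : V) : W.vl u v x = W.vl v x u := by
  unfold vl; rw [W.symm x u, W.symm v u]; ring

theorem ch_nonneg (v : V) : 0 ≤ W.ch v := by
  have := W.ha; have := W.hs; have := W.h3s; have := W.h4a
  unfold ch
  split_ifs <;> linarith

theorem ch0 {v : V} (h : W.ty v = 0) : W.ch v = W.h / 2 + W.s := by simp [ch, h]
theorem ch2 {v : V} (h : W.ty v = 2) : W.ch v = W.q / 2 := by simp [ch, h]
theorem ch3 {v : V} (h : W.ty v = 3) : W.ch v = W.q / 2 := by simp [ch, h]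

/-- A triple with a core which is not proper loses at least `s / 2`. -/
theorem core_le {u v x : V} (huv : u ≠ v) (hvx : v ≠ x) (hux : u ≠ x) (hu : W.ty u = 0)
    (hn1 : ¬ W.PropAt u v x) (hn2 : ¬ W.PropAt u x v) :
    W.vl u v x ≤ W.ch u + W.ch v + W.ch x - W.s / 2 := by
  have ha := W.ha
  have hs := W.hs
  have h3s := W.h3s
  have h4s := W.h4s
  have h4a := W.h4a
  have cu := W.ch0 hu
  have cvn := W.ch_nonneg v
  have cxn := W.ch_nonneg x
  -- a pair of non-core vertices
  have key : ∀ y z : V, y ≠ z → 1 ≤ W.ty y → 1 ≤ W.ty z → W.w y z ≤ W.ch y + W.ch z := by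
    intro y z hyz hy hz
    have hy4 := W.ty_le y
    have hz4 := W.ty_le z
    have cy := W.ch_nonneg y
    have cz := W.ch_nonneg z
    obtain hy | hy | hy | hy : W.ty y = 1 ∨ W.ty y = 2 ∨ W.ty y = 3 ∨ W.ty y = 4 := by omega
    · obtain hz | hz | hz : W.ty z = 1 ∨ W.ty z = 2 ∨ 3 ≤ W.ty z := by omega
      · rw [W.h11 _ _ hyz hy hz]; linarith
      · have := W.ch2 hz
        rcases W.h12 _ _ hy hz with h | h <;> rw [h] <;> linarith
      · rw [W.h13 _ _ hy hz]; linarith
    · obtain hz | hz | hz | hz : W.ty z = 1 ∨ W.ty z = 2 ∨ W.ty z = 3 ∨ W.ty z = 4 := by omega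
      · have := W.ch2 hy
        rw [W.symm]
        rcases W.h12 _ _ hz hy with h | h <;> rw [h] <;> linarith
      · rw [W.h22 _ _ hyz hy hz]; linarith
      · have := W.ch2 hy
        have := W.ch3 hz
        rcases W.h23 _ _ hy hz with h | h <;> rw [h] <;> linarith
      · rw [W.symm, W.h4k _ _ hyz.symm hz]; linarith
    · obtain hz | hz | hz | hz : W.ty z = 1 ∨ W.ty z = 2 ∨ W.ty z = 3 ∨ W.ty z = 4 := by omega
      · rw [W.symm, W.h13 _ _ hz (by omega)]; linarith
      · have := W.ch2 hz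
        have := W.ch3 hy
        rw [W.symm]
        rcases W.h23 _ _ hz hy with h | h <;> rw [h] <;> linarith
      · rw [W.h33 _ _ hyz hy hz]; linarith
      · rw [W.symm, W.h4k _ _ hyz.symm hz]; linarith
    · rw [W.h4k _ _ hyz hy]; linarith
  -- one core, two others
  have key2 : ∀ y, 1 ≤ W.ty y → W.w u y ≤ W.s := by
    intro y hy
    obtain hy | hy : W.ty y = 1 ∨ 2 ≤ W.ty y := by omega
    · rcases W.h01 _ _ hu hy with h | h <;> rw [h] <;> linarith
    · rw [W.h0k _ _ hu hy]; linarith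
  have two : ∀ v x : V, u ≠ v → v ≠ x → u ≠ x → ¬ W.PropAt u v x → W.ty v = 0 → 1 ≤ W.ty x →
      W.vl u v x ≤ W.ch u + W.ch v + W.ch x - W.s / 2 := by
    intro v x huv hvx hux hn hv hx
    have cx := W.ch_nonneg x
    have cv := W.ch0 hv
    unfold vl
    obtain hx | hx : W.ty x = 1 ∨ 2 ≤ W.ty x := by omega
    · rcases W.h01 _ _ hu hx with h1 | h1 <;> rcases W.h01 _ _ hv hx with h2 | h2 <;>
        rcases W.h00 _ _ huv hu hv with h3 | h3
      all_goals first
        | (rw [h1, h2, h3]; linarith)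
        | exact absurd ⟨hu, hv, hx, h3, h1, h2⟩ hn
    · rw [W.h0k _ _ hu hx, W.h0k _ _ hv hx]
      rcases W.h00 _ _ huv hu hv with h | h <;> rw [h] <;> linarith
  by_cases hv : W.ty v = 0
  · by_cases hx : W.ty x = 0
    · have cv := W.ch0 hv
      have cx := W.ch0 hx
      unfold vl
      rcases W.h00 _ _ huv hu hv with h1 | h1 <;> rcases W.h00 _ _ hvx hv hx with h2 | h2 <;>
        rcases W.h00 _ _ hux hu hx with h3 | h3 <;>
        rcases W.h000 _ _ _ huv hvx hux hu hv hx with h4 | h4 | h4 <;> linarith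
    · exact two v x huv hvx hux hn1 hv (by omega)
  · by_cases hx : W.ty x = 0
    · have := two x v hux hvx.symm huv hn2 hx (by omega)
      rw [vl_swap]
      linarith
    · have h1 := key v x hvx (by omega) (by omega)
      have h2 := key2 v (by omega)
      have h3 := key2 x (by omega)
      unfold vl
      linarith

theorem pw {y z : V} (hyz : y ≠ z) (hy : 1 ≤ W.ty y) (hz : 1 ≤ W.ty z) :
    (W.w y z = 0 ∧ W.w z y = 0) ∨
    (W.ty y = 1 ∧ W.ty z = 2 ∧ W.w y z = W.a ∧ W.w z y = W.a) ∨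
    (W.ty y = 2 ∧ W.ty z = 1 ∧ W.w y z = W.a ∧ W.w z y = W.a) ∨
    (W.ty y = 2 ∧ W.ty z = 3 ∧ W.w y z = W.q ∧ W.w z y = W.q) ∨
    (W.ty y = 3 ∧ W.ty z = 2 ∧ W.w y z = W.q ∧ W.w z y = W.q) := by
  have hy4 := W.ty_le y
  have hz4 := W.ty_le z
  rw [W.symm z y]
  obtain hy | hy | hy | hy : W.ty y = 1 ∨ W.ty y = 2 ∨ W.ty y = 3 ∨ W.ty y = 4 := by omega
  · obtain hz | hz | hz : W.ty z = 1 ∨ W.ty z = 2 ∨ 3 ≤ W.ty z := by omega
    · left; rw [W.h11 _ _ hyz hy hz]; simp
    · rcases W.h12 _ _ hy hz with h | h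
      · left; exact ⟨h, h⟩
      · right; left; exact ⟨hy, hz, h, h⟩
    · left; rw [W.h13 _ _ hy hz]; simp
  · obtain hz | hz | hz | hz : W.ty z = 1 ∨ W.ty z = 2 ∨ W.ty z = 3 ∨ W.ty z = 4 := by omega
    · rcases W.h12 _ _ hz hy with h | h <;> rw [W.symm] at h
      · left; exact ⟨h, h⟩
      · right; right; left; exact ⟨hy, hz, h, h⟩
    · left; rw [W.h22 _ _ hyz hy hz]; simp
    · rcases W.h23 _ _ hy hz with h | h
      · left; exact ⟨h, h⟩
      · right; right; right; left; exact ⟨hy, hz, h, h⟩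
    · left; rw [W.symm, W.h4k _ _ hyz.symm hz]; simp
  · obtain hz | hz | hz | hz : W.ty z = 1 ∨ W.ty z = 2 ∨ W.ty z = 3 ∨ W.ty z = 4 := by omega
    · left; rw [W.symm, W.h13 _ _ hz (by omega)]; simp
    · rcases W.h23 _ _ hz hy with h | h <;> rw [W.symm] at h
      · left; exact ⟨h, h⟩
      · right; right; right; right; exact ⟨hy, hz, h, h⟩
    · left; rw [W.h33 _ _ hyz hy hz]; simp
    · left; rw [W.symm, W.h4k _ _ hyz.symm hz]; simp
  · left; rw [W.h4k _ _ hyz hy]; simp

/-- A triple without a core. -/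
theorem nocore_le {u v x : V} (huv : u ≠ v) (hvx : v ≠ x) (hux : u ≠ x) (hu : 1 ≤ W.ty u)
    (hv : 1 ≤ W.ty v) (hx : 1 ≤ W.ty x)
    (hn : ∀ c c' t, [c, c', t].Perm [u, v, x] → ¬ W.BonusAt c c' t) :
    W.vl u v x ≤ W.ch u + W.ch v + W.ch x := by
  have ha := W.ha
  have hs := W.hs
  have h4a := W.h4a
  have cu := W.ch_nonneg u
  have cv := W.ch_nonneg v
  have cx := W.ch_nonneg x
  have b1 := hn u v x (List.Perm.refl _)
  have b2 := hn u x v ((List.Perm.swap _ _ _).cons _)
  have b3 := hn v u x (List.Perm.swap _ _ _)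
  have b4 := hn v x u (((List.Perm.swap _ _ _).cons _).trans (List.Perm.swap _ _ _))
  have b5 := hn x u v ((List.Perm.swap _ _ _).trans ((List.Perm.swap _ _ _).cons _))
  have b6 := hn x v u (((List.Perm.swap _ _ _).cons _).trans ((List.Perm.swap _ _ _).trans
    ((List.Perm.swap _ _ _).cons _)))
  have c2 := fun y => @ch2 V W y
  have c3 := fun y => @ch3 V W y
  unfold BonusAt at b1 b2 b3 b4 b5 b6
  unfold vl
  rcases W.pw huv hu hv with h1 | h1 | h1 | h1 | h1 <;>
    rcases W.pw hvx hv hx with h2 | h2 | h2 | h2 | h2 <;>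
    rcases W.pw hux hu hx with h3 | h3 | h3 | h3 | h3 <;>
    first
    | (exfalso; omega)
    | skip
  all_goals
    try have e1 := c2 _ h1.1
    try have e2 := c2 _ h1.2.1
    try have e3 := c3 _ h1.1
    try have e4 := c3 _ h1.2.1
    try have e5 := c2 _ h2.1
    try have e6 := c2 _ h2.2.1
    try have e7 := c3 _ h2.1
    try have e8 := c3 _ h2.2.1
    try have e9 := c2 _ h3.1
    try have e10 := c2 _ h3.2.1
    try have e11 := c3 _ h3.1
    try have e12 := c3 _ h3.2.1
  all_goals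
    try obtain ⟨f1, f2, f3, f4⟩ := h1
    try obtain ⟨f1, f2⟩ := h1
    try obtain ⟨g1, g2, g3, g4⟩ := h2
    try obtain ⟨g1, g2⟩ := h2
    try obtain ⟨k1, k2, k3, k4⟩ := h3
    try obtain ⟨k1, k2⟩ := h3
  all_goals first
    | linarith
    | exact absurd ⟨by assumption, by assumption, by assumption, by assumption, by assumption⟩ b1
    | exact absurd ⟨by assumption, by assumption, by assumption, by assumption, by assumption⟩ b2
    | exact absurd ⟨by assumption, by assumption, by assumption, by assumption, by assumption⟩ b3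
    | exact absurd ⟨by assumption, by assumption, by assumption, by assumption, by assumption⟩ b4
    | exact absurd ⟨by assumption, by assumption, by assumption, by assumption, by assumption⟩ b5
    | exact absurd ⟨by assumption, by assumption, by assumption, by assumption, by assumption⟩ b6
    | exact (W.h233 u v x hvx (by assumption) (by assumption) (by assumption)).elim
        (fun h => by linarith) (fun h => by linarith)
    | exact (W.h233 v u x hux (by assumption) (by assumption) (by assumption)).elim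
        (fun h => by linarith) (fun h => by linarith)
    | exact (W.h233 x u v huv (by assumption) (by assumption) (by assumption)).elim
        (fun h => by linarith) (fun h => by linarith)
    | exact (W.h322 u v x hvx (by assumption) (by assumption) (by assumption)).elim
        (fun h => by linarith) (fun h => by linarith)
    | exact (W.h322 v u x hux (by assumption) (by assumption) (by assumption)).elim
        (fun h => by linarith) (fun h => by linarith)
    | exact (W.h322 x u v huv (by assumption) (by assumption) (by assumption)).elim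
        (fun h => by linarith) (fun h => by linarith)

end Wtd

end Pool.Agent.H243R3.TP
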