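import Pool.Agent.H243R3.TP.Mu
import Pool.Agent.H243R3.TP.Tri

/-!
# The weights of the graph of a formula
-/

namespace Pool.Agent.H243R3.TP

variable {f : ℕ → ℕ} {n : ℕ} {sg : ℕ → Bool}

/-- The matchings with their multiplicities. -/
def kinds (S D : ℕ) : List ℕ :=
  List.replicate (4 * S) 0 ++ List.replicate (4 * S) 1 ++ List.replicate S 2 ++ List.replicate S 3 ++
    List.replicate 6 4 ++ [5, 6, 7] ++ List.replicate D 8

/-- The multiplicity of the pair `u v`. -/
def mult (f : ℕ → ℕ) (n : ℕ) (sg : ℕ → Bool) (S D : ℕ) (u v : ℕ × ℕ) : ℕ :=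
  (kinds S D).countP fun k => decide (mu f n sg k u = v)

theorem mult_eq {S D : ℕ} {u v : ℕ × ℕ} (huv : u ≠ v) : mult f n sg S D u v =
    (if mu f n sg 0 u = v then 4 * S else 0) + (if mu f n sg 1 u = v then 4 * S else 0) +
    (if mu f n sg 2 u = v then S else 0) + (if mu f n sg 3 u = v then S else 0) +
    (if mu f n sg 4 u = v then 6 else 0) + (if mu f n sg 5 u = v then 1 else 0) +
    (if mu f n sg 6 u = v then 1 else 0) + (if mu f n sg 7 u = v then 1 else 0) := by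
  have h8 : mu f n sg 8 u = u := by simp [mu]
  unfold mult kinds
  simp only [List.countP_append, List.countP_replicate, List.countP_cons, List.countP_nil, h8, huv,
    decide_eq_true_eq, if_false, decide_false, Bool.false_eq_true]
  ring

theorem mult_comm (hn : n % 3 = 0) {S D : ℕ} {u v : ℕ × ℕ} (hu : InV n u) (hv : InV n v) :
    mult f n sg S D u v = mult f n sg S D v u := by
  unfold mult
  congr 1
  funext k
  rw [decide_eq_decide]
  exact mu_eq_comm hn k hu hv

/-! ### The types of the partners -/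

theorem mu01_ty {k : ℕ} (hk : k < 2) {v : ℕ × ℕ} (h : ty v = 0) : ty (mu f n sg k v) = 0 := by
  rw [ty_zero] at h ⊢
  obtain ⟨l, i⟩ := v
  simp only at h
  interval_cases k <;> interval_cases i <;> simp [mu]

theorem mu01_fix {k : ℕ} (hk : k < 2) {v : ℕ × ℕ} (h : ty v ≠ 0) : mu f n sg k v = v := by
  rw [Ne, ty_zero] at h
  obtain ⟨l, i⟩ := v
  simp only at h
  interval_cases k <;> simp [mu, show i ≠ 0 by omega, show i ≠ 1 by omega, show i ≠ 2 by omega,
    show i ≠ 3 by omega]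

theorem mu23_ty0 {k : ℕ} (hk : k = 2 ∨ k = 3) {v : ℕ × ℕ} (h : ty v = 0) :
    ty (mu f n sg k v) = 1 := by
  rw [ty_zero] at h
  rw [ty_one]
  obtain ⟨l, i⟩ := v
  simp only at h
  rcases hk with rfl | rfl <;> interval_cases i <;> simp [mu]

theorem mu23_ty1 {k : ℕ} (hk : k = 2 ∨ k = 3) {v : ℕ × ℕ} (h : ty v = 1) :
    ty (mu f n sg k v) = 0 := by
  rw [ty_one] at h
  rw [ty_zero]
  obtain ⟨l, i⟩ := v
  simp only at h
  obtain ⟨h1, h2⟩ := h
  rcases hk with rfl | rfl <;> interval_cases i <;> simp [mu]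

theorem mu23_fix {k : ℕ} (hk : k = 2 ∨ k = 3) {v : ℕ × ℕ} (hv : v.2 < 9) (h : 2 ≤ ty v) :
    mu f n sg k v = v := by
  have h8 : v.2 = 8 := by
    by_contra hc
    have h1 := ty_le v
    have : ty v = 2 ∨ ty v = 3 ∨ ty v = 4 := by omega
    rcases this with h | h | h
    · exact hc ((ty_two hv).1 h).1
    · exact hc ((ty_three hv).1 h).1
    · exact hc ((ty_four hv).1 h).1
  rcases hk with rfl | rfl <;> simp [mu, h8]

theorem mu4_ty2 {v : ℕ × ℕ} (hv : v.2 < 9) (h : ty v = 2) : ty (mu f n sg 4 v) = 3 := by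
  rw [ty_two hv] at h
  rw [ty_three (by simp [mu, h.1, h.2])]
  simp [mu, h.1, h.2]
  omega

theorem mu4_ty3 {v : ℕ × ℕ} (hv : v.2 < 9) (h : ty v = 3) : ty (mu f n sg 4 v) = 2 := by
  rw [ty_three hv] at h
  rw [ty_two (by simp [mu, h.1, h.2])]
  simp [mu, h.1, h.2]
  omega

theorem mu4_fix {v : ℕ × ℕ} (hv : v.2 < 9) (h2 : ty v ≠ 2) (h3 : ty v ≠ 3) :
    mu f n sg 4 v = v := by
  rw [Ne, ty_two hv] at h2
  rw [Ne, ty_three hv] at h3
  simp [mu, h2, h3]

theorem mu5_ty2 {k : ℕ} (hk : 5 ≤ k) (hk' : k < 8) {v : ℕ × ℕ} (hv : v.2 < 9) (h : ty v = 2) :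
    ty (mu f n sg k v) = 1 := by
  rw [ty_two hv] at h
  have h1 := off_cases sg (v.1 + (k - 5))
  rw [ty_one]
  unfold mu
  simp only [show k ≠ 0 by omega, show k ≠ 1 by omega, show k ≠ 2 by omega, show k ≠ 3 by omega,
      show k ≠ 4 by omega, hk', if_true, if_false, h, and_self]
  omega

theorem mu5_ty1 {k : ℕ} (hk : 5 ≤ k) (hk' : k < 8) {v : ℕ × ℕ} (h : ty v = 1)
    (hne : mu f n sg k v ≠ v) :
    v.1 % 3 = k - 5 ∧ v.2 = off sg v.1 ∧ mu f n sg k v = (v.1 - (k - 5), 8) := by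
  rw [ty_one] at h
  unfold mu at hne ⊢
  simp only [show k ≠ 0 by omega, show k ≠ 1 by omega, show k ≠ 2 by omega, show k ≠ 3 by omega,
      show k ≠ 4 by omega, hk', if_true, if_false, show ¬ v.2 = 8 by omega, false_and] at hne ⊢
  split_ifs at hne ⊢ with h1
  · exact ⟨h1.1, h1.2, rfl⟩
  · exact absurd rfl hne

theorem mu5_fix {k : ℕ} (hk : 5 ≤ k) (hk' : k < 8) {v : ℕ × ℕ} (hv : v.2 < 9) (h1 : ty v ≠ 1)
    (h2 : ty v ≠ 2) : mu f n sg k v = v := by
  rw [Ne, ty_one] at h1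
  rw [Ne, ty_two hv] at h2
  unfold mu
  have := off_cases sg v.1
  simp only [show k ≠ 0 by omega, show k ≠ 1 by omega, show k ≠ 2 by omega, show k ≠ 3 by omega,
      show k ≠ 4 by omega, hk', if_true, if_false, h2]
  rw [if_neg]
  omega

/-! ### The multiplicities -/

section Mult

variable {S D : ℕ} (hn : n % 3 = 0) {u v x : ℕ × ℕ}

/-- partners of type mismatch do not occur -/
theorem ne_of_ty {k a : ℕ} {u v : ℕ × ℕ} (h : ty (mu f n sg k u) = a) (hv : ty v ≠ a) :
    mu f n sg k u ≠ v := by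
  rintro rfl; exact hv h

theorem mult00 (hu : InV n u) (huv : u ≠ v) (h1 : ty u = 0) (h2 : ty v = 0) :
    mult f n sg S D u v = 4 * S * (if mu f n sg 0 u = v ∨ mu f n sg 1 u = v then 1 else 0) := by
  rw [mult_eq huv]
  have a2 : mu f n sg 2 u ≠ v := ne_of_ty (mu23_ty0 (Or.inl rfl) h1) (by omega)
  have a3 : mu f n sg 3 u ≠ v := ne_of_ty (mu23_ty0 (Or.inr rfl) h1) (by omega)
  have a4 : mu f n sg 4 u ≠ v := by rw [mu4_fix hu.2 (by omega) (by omega)]; exact huv
  have a5 : mu f n sg 5 u ≠ v := by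
    rw [mu5_fix (by omega) (by omega) hu.2 (by omega) (by omega)]; exact huv
  have a6 : mu f n sg 6 u ≠ v := by
    rw [mu5_fix (by omega) (by omega) hu.2 (by omega) (by omega)]; exact huv
  have a7 : mu f n sg 7 u ≠ v := by
    rw [mu5_fix (by omega) (by omega) hu.2 (by omega) (by omega)]; exact huv
  have a01 : ¬ (mu f n sg 0 u = v ∧ mu f n sg 1 u = v) := by
    rw [ty_zero] at h1
    obtain ⟨l, i⟩ := u
    simp only at h1
    rintro ⟨b1, b2⟩
    rw [← b1] at b2
    interval_cases i <;> simp [mu] at b2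
  simp only [a2, a3, a4, a5, a6, a7, if_false, add_zero]
  by_cases b0 : mu f n sg 0 u = v <;> by_cases b1 : mu f n sg 1 u = v <;> simp [b0, b1]
  exact absurd ⟨b0, b1⟩ a01

theorem mult01 (hu : InV n u) (h1 : ty u = 0) (h2 : ty v = 1) :
    mult f n sg S D u v = S * (if mu f n sg 2 u = v ∨ mu f n sg 3 u = v then 1 else 0) := by
  have huv : u ≠ v := by rintro rfl; omega
  rw [mult_eq huv]
  have a0 : mu f n sg 0 u ≠ v := ne_of_ty (mu01_ty (by omega) h1) (by omega)
  have a1 : mu f n sg 1 u ≠ v := ne_of_ty (mu01_ty (by omega) h1) (by omega)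
  have a4 : mu f n sg 4 u ≠ v := by rw [mu4_fix hu.2 (by omega) (by omega)]; exact huv
  have a5 : mu f n sg 5 u ≠ v := by
    rw [mu5_fix (by omega) (by omega) hu.2 (by omega) (by omega)]; exact huv
  have a6 : mu f n sg 6 u ≠ v := by
    rw [mu5_fix (by omega) (by omega) hu.2 (by omega) (by omega)]; exact huv
  have a7 : mu f n sg 7 u ≠ v := by
    rw [mu5_fix (by omega) (by omega) hu.2 (by omega) (by omega)]; exact huv
  have a01 : ¬ (mu f n sg 2 u = v ∧ mu f n sg 3 u = v) := by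
    rw [ty_zero] at h1
    obtain ⟨l, i⟩ := u
    simp only at h1
    rintro ⟨b1, b2⟩
    rw [← b1] at b2
    interval_cases i <;> simp [mu] at b2
  simp only [a0, a1, a4, a5, a6, a7, if_false, add_zero, zero_add]
  by_cases b0 : mu f n sg 2 u = v <;> by_cases b1 : mu f n sg 3 u = v <;> simp [b0, b1]
  exact absurd ⟨b0, b1⟩ a01

theorem mult0k (hu : InV n u) (h1 : ty u = 0) (h2 : 2 ≤ ty v) : mult f n sg S D u v = 0 := by
  have huv : u ≠ v := by rintro rfl; omega
  rw [mult_eq huv]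
  have a0 : mu f n sg 0 u ≠ v := ne_of_ty (mu01_ty (by omega) h1) (by omega)
  have a1 : mu f n sg 1 u ≠ v := ne_of_ty (mu01_ty (by omega) h1) (by omega)
  have a2 : mu f n sg 2 u ≠ v := ne_of_ty (mu23_ty0 (Or.inl rfl) h1) (by omega)
  have a3 : mu f n sg 3 u ≠ v := ne_of_ty (mu23_ty0 (Or.inr rfl) h1) (by omega)
  have a4 : mu f n sg 4 u ≠ v := by rw [mu4_fix hu.2 (by omega) (by omega)]; exact huv
  have a5 : mu f n sg 5 u ≠ v := by
    rw [mu5_fix (by omega) (by omega) hu.2 (by omega) (by omega)]; exact huv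
  have a6 : mu f n sg 6 u ≠ v := by
    rw [mu5_fix (by omega) (by omega) hu.2 (by omega) (by omega)]; exact huv
  have a7 : mu f n sg 7 u ≠ v := by
    rw [mu5_fix (by omega) (by omega) hu.2 (by omega) (by omega)]; exact huv
  simp only [a0, a1, a2, a3, a4, a5, a6, a7, if_false, add_zero]

/-- the pairs of a tip and another vertex that is not a core -/
theorem mult1k (hu : InV n u) (h1 : ty u = 1) (h2 : 1 ≤ ty v) (huv : u ≠ v) :
    mult f n sg S D u v =
      (if v = (u.1 - u.1 % 3, 8) ∧ u.2 = off sg u.1 then 1 else 0) := by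
  rw [mult_eq huv]
  have a0 : mu f n sg 0 u ≠ v := by rw [mu01_fix (by omega) (by omega)]; exact huv
  have a1 : mu f n sg 1 u ≠ v := by rw [mu01_fix (by omega) (by omega)]; exact huv
  have a2 : mu f n sg 2 u ≠ v := ne_of_ty (mu23_ty1 (Or.inl rfl) h1) (by omega)
  have a3 : mu f n sg 3 u ≠ v := ne_of_ty (mu23_ty1 (Or.inr rfl) h1) (by omega)
  have a4 : mu f n sg 4 u ≠ v := by rw [mu4_fix hu.2 (by omega) (by omega)]; exact huv
  have key : ∀ k, 5 ≤ k → k < 8 → (mu f n sg k u = v ↔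
      (u.1 % 3 = k - 5 ∧ v = (u.1 - u.1 % 3, 8) ∧ u.2 = off sg u.1)) := by
    intro k hk hk'
    constructor
    · intro h
      obtain ⟨b1, b2, b3⟩ := mu5_ty1 hk hk' h1 (by rw [h]; exact huv.symm)
      rw [h] at b3
      exact ⟨b1, by rw [b3, b1], b2⟩
    · rintro ⟨b1, b2, b3⟩
      rw [ty_one] at h1
      unfold mu
      simp only [show k ≠ 0 by omega, show k ≠ 1 by omega, show k ≠ 2 by omega,
        show k ≠ 3 by omega, show k ≠ 4 by omega, hk', if_true, if_false,
        show ¬ u.2 = 8 by omega, false_and]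
      rw [if_pos ⟨b1, b3⟩, b2, b1]
  rw [if_neg a0, if_neg a1, if_neg a2, if_neg a3, if_neg a4]
  simp only [key 5 (by omega) (by omega), key 6 (by omega) (by omega), key 7 (by omega) (by omega)]
  by_cases hc : v = (u.1 - u.1 % 3, 8) ∧ u.2 = off sg u.1
  · rw [if_pos hc]
    have : u.1 % 3 = 0 ∨ u.1 % 3 = 1 ∨ u.1 % 3 = 2 := by omega
    rcases this with h | h | h <;> simp [hc.1, hc.2, h]
  · rw [if_neg hc]
    rw [if_neg (fun h => hc h.2), if_neg (fun h => hc h.2), if_neg (fun h => hc h.2)]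

/-- the pairs of clause vertices and dummies -/
theorem multkk (hu : InV n u) (hv : InV n v) (h1 : 2 ≤ ty u) (h2 : 2 ≤ ty v) (huv : u ≠ v) :
    mult f n sg S D u v = if mu f n sg 4 u = v then 6 else 0 := by
  rw [mult_eq huv]
  have a0 : mu f n sg 0 u ≠ v := by rw [mu01_fix (by omega) (by omega)]; exact huv
  have a1 : mu f n sg 1 u ≠ v := by rw [mu01_fix (by omega) (by omega)]; exact huv
  have a2 : mu f n sg 2 u ≠ v := by rw [mu23_fix (Or.inl rfl) hu.2 h1]; exact huv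
  have a3 : mu f n sg 3 u ≠ v := by rw [mu23_fix (Or.inr rfl) hu.2 h1]; exact huv
  have key : ∀ k, 5 ≤ k → k < 8 → mu f n sg k u ≠ v := by
    intro k hk hk'
    by_cases h : ty u = 2
    · exact ne_of_ty (mu5_ty2 hk hk' hu.2 h) (by omega)
    · rw [mu5_fix hk hk' hu.2 (by omega) h]; exact huv
  rw [if_neg a0, if_neg a1, if_neg a2, if_neg a3, if_neg (key 5 (by omega) (by omega)),
    if_neg (key 6 (by omega) (by omega)), if_neg (key 7 (by omega) (by omega))]
  ring

end Mult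

end Pool.Agent.H243R3.TP
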